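import Pool.Agent.Run7.h691.QM.Fr

/-!
# QM: the law of the patterns for finitely many multipliers

`a_1, …, a_m` nonzero and pairwise different modulo squares. The criteria for the `g a_i` are independent,
each with the probability `c2`, in the class of the `g` such that no `g a_i` is in the class of `1`.
-/

set_option autoImplicit false
set_option linter.unusedVariables false

open scoped Classical
open Finset Filter

namespace Pool.Agent.H691.QM

open H385 (ZI nrm im1)
open Pool.Agent.Y699 (PP PS PD PS_prod mem_PD PD_one pi1 qr)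
open Pool.Agent.Y703.CQ (c2)
open Pool.Agent.H691.GZ (qa Gd SS S_LOW ClsE)
open Pool.Agent.H691.GZ.NS (card_cls card_eq gd_of_ker ker_of_gd)
open Pool.Agent.H691.GJ (sq_div prod3 parN SG_parN lim_of)
open Run7.h26.QI (RA clsA_iff sA sA_eq nQ fin_Q sA_pos count_sqf)

variable {m : ℕ}

/-- nonzero and pairwise different modulo squares -/
def Dst (a : Fin m → ZI) : Prop := (∀ i, a i ≠ 0) ∧ ∀ i j, i ≠ j → ¬ IsSquare (a i * a j)

/-- the mask of `a i` -/
noncomputable def UP (c₀ : ZI) (a : Fin m → ZI) (i : Fin m) : Finset ZI := UQ c₀ a {i}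

/-- the criterion for `g a_i` -/
def GA (a : Fin m → ZI) (i : Fin m) (g : ZI) : Prop := ∀ c D' : ZI, Rp (g * a i) c D' → Gx c D'

/-- no normal form in the class of `1` -/
def FrA (a : Fin m → ZI) (g : ZI) : Prop := ∀ (i : Fin m) (D' : ZI), ¬ Rp (g * a i) 1 D'

theorem frA_neg {a : Fin m → ZI} {g : ZI} : FrA a (-g) ↔ FrA a g := by
  unfold FrA
  refine forall_congr' fun J => forall_congr' fun D' => ?_
  rw [neg_mul, rp_neg]

theorem gA_neg {a : Fin m → ZI} {i : Fin m} {g : ZI} : GA a i (-g) ↔ GA a i g := by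
  unfold GA
  refine forall_congr' fun c => forall_congr' fun D' => ?_
  rw [neg_mul, rp_neg]

section fam
variable {c₀ : ZI} {a : Fin m → ZI}

theorem UP_inj (h0 : Cx c₀) (ha : Dst a) : Function.Injective (UP c₀ a) := by
  intro i j h
  by_contra hne
  have e1 := rpJ h0 ha.1 {i}
  have e2 := rpJ h0 ha.1 {j}
  have hS : ∀ J, ∀ u ∈ PD (BJ c₀ a J), PP u := fun J u hu =>
    ((mem_PD (rpJ h0 ha.1 J).ps.ne).1 hu).1
  obtain ⟨g1, g2⟩ := split_mask (hS {i}) (hS {j}) (vx_sub e1.cx) (vx_sub e2.cx) h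
  have g3 := vx_inj e1.cx e2.cx g2
  have g4 : BJ c₀ a {i} = BJ c₀ a {j} := by
    have h1 : ∏ π ∈ PD (BJ c₀ a {i}), π = BJ c₀ a {i} := e1.ps.prod
    have h2 : ∏ π ∈ PD (BJ c₀ a {j}), π = BJ c₀ a {j} := e2.ps.prod
    rw [← h1, ← h2, g1]
  rw [← g3, ← g4] at e2
  obtain ⟨s, hs⟩ := e1.sq
  obtain ⟨t, ht⟩ := e2.sq
  rw [prod_singleton] at hs ht
  refine ha.2 i j hne ?_
  have hne0 : c₀ * (cJ c₀ a {i} * BJ c₀ a {i}) ≠ 0 :=
    mul_ne_zero h0.ne (mul_ne_zero e1.cx.ne e1.ps.ne)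
  refine sq_div hne0 (t := s * t) ?_
  rw [mul_pow s, pow_two s, pow_two t, ← hs, ← ht]
  ring

theorem keyV (h0 : Cx c₀) (ha : ∀ i, a i ≠ 0) {D : ZI} (hD : PS D) (J : Finset (Fin m)) :
    GdV (symmDiff (PD D) (UQ c₀ a J)) ↔
      Gx (cJ c₀ a J) (∏ π ∈ symmDiff (PD D) (PD (BJ c₀ a J)), π) := by
  have h := rpD h0 ha hD J
  rw [gx_iff h.cx h.ps, (PS_prod (pp_sd hD (rpJ h0 ha J).ps)).2]
  have e : symmDiff (PD D) (UQ c₀ a J) =
      symmDiff (PD D) (PD (BJ c₀ a J)) ∪ vx (cJ c₀ a J) := by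
    ext x
    unfold UQ
    have a1 : x ∈ PD D → x ∉ vx (cJ c₀ a J) := fun h1 h2 =>
      vv_np (vx_sub h.cx h2) ((mem_PD hD.ne).1 h1).1
    have a2 : x ∈ PD (BJ c₀ a J) → x ∉ vx (cJ c₀ a J) := fun h1 h2 =>
      vv_np (vx_sub h.cx h2) ((mem_PD (rpJ h0 ha J).ps.ne).1 h1).1
    simp only [Finset.mem_symmDiff, Finset.mem_union]
    tauto
  rw [e]

theorem ja_iff (h0 : Cx c₀) (ha : ∀ i, a i ≠ 0) {D : ZI} (hD : PS D) (A : Finset (Fin m)) :
    (∀ i ∈ A, GA a i (c₀ * D)) ↔ GdW (A.image (UP c₀ a)) (PD D) := by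
  constructor
  · intro h U hU
    obtain ⟨i, hi, rfl⟩ := mem_image.1 hU
    have h1 := rpD h0 ha hD {i}
    rw [prod_singleton] at h1
    exact (keyV h0 ha hD {i}).2 (h i hi _ _ h1)
  · intro h i hi c D' hr
    have h1 := rpD h0 ha hD {i}
    rw [prod_singleton] at h1
    have hne : c₀ * D * a i ≠ 0 := mul_ne_zero (mul_ne_zero h0.ne hD.ne) (ha i)
    obtain ⟨e1, e2⟩ := rp_uniq hne hr h1
    rw [e1, e2]
    exact (keyV h0 ha hD {i}).1 (h _ (mem_image_of_mem _ hi))

/-- the joint law in the class of `c₀` -/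
theorem t_QA (h0 : Cx c₀) (ha : Dst a) (A : Finset (Fin m)) :
    Tendsto (fun X : ℕ => (nC (fun g => ∀ i ∈ A, GA a i g) c₀ X : ℝ) / (sA X : ℝ)) atTop
      (nhds (c2 ^ A.card)) := by
  have hcard : (A.image (UP c₀ a)).card = A.card :=
    Finset.card_image_of_injective _ (UP_inj h0 ha)
  have hRA : RA ≠ ∅ := by decide
  obtain ⟨c, X₀, hc, hlow⟩ := low_R (R := RA) (Or.inl rfl) hRA
  have h : Tendsto (fun X : ℕ => (((SS RA X).filter (GdW (A.image (UP c₀ a)))).card : ℝ) /
      ((SS RA X).card : ℝ)) atTop (nhds (c2 ^ A.card)) := by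
    refine lim_of ⟨c, hc, ?_⟩ fun ε hε => ?_
    · filter_upwards [eventually_ge_atTop X₀] with X hX
      exact hlow X hX
    · have h := t_AQ (parN RA) (WQ c₀ a) (WQ_pp h0 ha.1) (A.image (UP c₀ a)) (fun U hU => by
        obtain ⟨i, -, rfl⟩ := mem_image.1 hU
        exact subset_biUnion_of_mem (UQ c₀ a) (mem_univ ({i} : Finset (Fin m)))) (fun U hU U' hU' => by
        obtain ⟨i, -, rfl⟩ := mem_image.1 hU
        obtain ⟨j, -, rfl⟩ := mem_image.1 hU'
        exact UQ_vv h0 ha.1 {i} {j}) ε hε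
      filter_upwards [h] with X hX
      rw [SG_parN, hcard] at hX
      exact hX
  refine h.congr fun X => ?_
  rw [sA_eq, ← card_eq RA X (GdW (A.image (UP c₀ a)))]
  congr 3
  ext D
  simp only [Set.mem_ofPred_eq]
  refine and_congr_right fun _ => ?_
  constructor
  · rintro ⟨h1, h2⟩
    have h3 := (clsA_iff D).1 h1
    exact ⟨h3, (ja_iff h0 ha.1 h3 A).2 h2⟩
  · rintro ⟨h1, h2⟩
    exact ⟨(clsA_iff D).2 h1, (ja_iff h0 ha.1 h1 A).1 h2⟩

theorem frA_iff (h0 : Cx c₀) (ha : ∀ i, a i ≠ 0) {D : ZI} (hD : PS D) :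
    FrA a (c₀ * D) ↔ ∀ i, kap a {i} ≠ c₀ := by
  have hne : ∀ i : Fin m, c₀ * D * a i ≠ 0 := fun i =>
    mul_ne_zero (mul_ne_zero h0.ne hD.ne) (ha i)
  have hrp : ∀ i : Fin m, Rp (c₀ * D * a i) (cJ c₀ a {i})
      (∏ π ∈ symmDiff (PD D) (PD (BJ c₀ a {i})), π) := by
    intro i
    have h1 := rpD h0 ha hD {i}
    rwa [prod_singleton] at h1
  constructor
  · intro h i hi
    have h1 := hrp i
    rw [(cJ_iff h0 ha {i}).2 hi] at h1
    exact h i _ h1
  · intro h i D' hD'
    obtain ⟨e1, -⟩ := rp_uniq (hne i) hD' (hrp i)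
    exact h i ((cJ_iff h0 ha {i}).1 e1.symm)

end fam

section main
variable {a : Fin m → ZI}

/-- the density of the class of `c` -/
noncomputable def fa (a : Fin m → ZI) (c : ZI) : ℝ := if ∀ i, kap a {i} ≠ c then 1 else 0

/-- the share -/
noncomputable def shA (a : Fin m → ZI) : ℝ :=
  (2 * fa a 1 + 2 * fa a im1 + fa a pi1 + fa a (im1 * pi1)) / 6

theorem fa_nonneg (c : ZI) : 0 ≤ fa a c := by
  unfold fa
  split_ifs <;> norm_num

theorem lim_fa {c : ZI} (hc : Cx c) (ha : Dst a) (A : Finset (Fin m)) :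
    Tendsto (fun X : ℕ => (nC (fun g => FrA a g ∧ ∀ i ∈ A, GA a i g) c X : ℝ) / (sA X : ℝ)) atTop
      (nhds (c2 ^ A.card * fa a c)) := by
  by_cases h : ∀ i, kap a {i} ≠ c
  · have h1 := t_QA hc ha A
    have e : fa a c = 1 := by
      unfold fa
      rw [if_pos h]
    rw [e, mul_one]
    refine h1.congr fun X => ?_
    congr 2
    unfold nC
    congr 1
    ext D
    refine and_congr_right fun _ => and_congr_right fun h1 => ?_
    exact ⟨fun h2 => ⟨(frA_iff hc ha.1 h1).2 h, h2⟩, fun h2 => h2.2⟩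
  · have e : fa a c = 0 := by
      unfold fa
      rw [if_neg h]
    rw [e, mul_zero]
    refine (tendsto_const_nhds (x := (0 : ℝ))).congr fun X => ?_
    have : nC (fun g => FrA a g ∧ ∀ i ∈ A, GA a i g) c X = 0 := by
      unfold nC
      rw [Set.ncard_eq_zero (fin_Q _ X)]
      ext D
      simp only [Set.mem_ofPred_eq, Set.mem_empty_iff_false, iff_false]
      rintro ⟨-, h1, h2, -⟩
      exact h ((frA_iff hc ha.1 h1).1 h2)
    rw [this]
    simp

/-- the law of the good ones -/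
theorem share_A (ha : Dst a) (A : Finset (Fin m)) :
    Tendsto (fun X : ℕ => (nQ (fun g => Squarefree g ∧ (FrA a g ∧ ∀ i ∈ A, GA a i g)) X : ℝ) /
      (nQ Squarefree X : ℝ)) atTop (nhds (c2 ^ A.card * shA a)) := by
  have h := lim_tot (P := fun g => FrA a g ∧ ∀ i ∈ A, GA a i g)
    (fun g => and_congr frA_neg (forall_congr' fun i => forall_congr' fun _ => gA_neg))
    (l := fun c => c2 ^ A.card * fa a c) fun c hc => lim_fa hc ha A
  have e : (2 * (c2 ^ A.card * fa a 1) + 2 * (c2 ^ A.card * fa a im1) + c2 ^ A.card * fa a pi1 +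
      c2 ^ A.card * fa a (im1 * pi1)) / 6 = c2 ^ A.card * shA a := by
    unfold shA
    ring
  rw [e] at h
  exact h

/-- **the law of the patterns** -/
theorem share_AB (ha : Dst a) : ∀ (B A : Finset (Fin m)), Disjoint A B →
    Tendsto (fun X : ℕ => (nQ (fun g => Squarefree g ∧ (FrA a g ∧ (∀ i ∈ A, GA a i g) ∧
      ∀ i ∈ B, ¬ GA a i g)) X : ℝ) / (nQ Squarefree X : ℝ)) atTop
      (nhds (c2 ^ A.card * (1 - c2) ^ B.card * shA a)) := by
  intro B
  induction B using Finset.induction_on with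
  | empty =>
    intro A _
    have h := share_A ha A
    rw [card_empty, pow_zero, mul_one]
    refine h.congr fun X => ?_
    congr 3
    funext g
    simp
  | insert q B hq ih =>
    intro A hAB
    have hqA : q ∉ A := fun h => (Finset.disjoint_left.1 hAB h) (mem_insert_self q B)
    have hA : Disjoint A B := hAB.mono_right (subset_insert q B)
    have hA' : Disjoint (insert q A) B := by
      rw [Finset.disjoint_insert_left]
      exact ⟨hq, hA⟩
    have h := (ih A hA).sub (ih (insert q A) hA')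
    have e : c2 ^ A.card * (1 - c2) ^ B.card * shA a -
        c2 ^ (insert q A).card * (1 - c2) ^ B.card * shA a =
        c2 ^ A.card * (1 - c2) ^ (insert q B).card * shA a := by
      rw [card_insert_of_notMem hqA, card_insert_of_notMem hq]
      ring
    rw [e] at h
    refine h.congr fun X => ?_
    rw [← sub_div]
    congr 1
    rw [sub_eq_iff_eq_add]
    have key : nQ (fun g => Squarefree g ∧ (FrA a g ∧ (∀ i ∈ A, GA a i g) ∧
        ∀ i ∈ B, ¬ GA a i g)) X =
        nQ (fun g => Squarefree g ∧ (FrA a g ∧ (∀ i ∈ A, GA a i g) ∧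
          ∀ i ∈ insert q B, ¬ GA a i g)) X +
        nQ (fun g => Squarefree g ∧ (FrA a g ∧ (∀ i ∈ insert q A, GA a i g) ∧
          ∀ i ∈ B, ¬ GA a i g)) X := by
      unfold nQ
      rw [← Set.ncard_union_eq _ (fin_Q _ X) (fin_Q _ X)]
      · congr 1
        ext g
        simp only [Set.mem_union, Set.mem_ofPred_eq, Finset.forall_mem_insert]
        tauto
      · rw [Set.disjoint_left]
        intro g h1 h2
        simp only [Set.mem_ofPred_eq, Finset.forall_mem_insert] at h1 h2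
        tauto
    rw [key]
    push_cast
    ring

theorem shA_of {c : ZI} (hc : Cx c) (h : ∀ i, kap a {i} ≠ c) : 1 / 6 ≤ shA a := by
  have n1 := fa_nonneg (a := a) 1
  have n2 := fa_nonneg (a := a) im1
  have n3 := fa_nonneg (a := a) pi1
  have n4 := fa_nonneg (a := a) (im1 * pi1)
  have h1 : fa a c = 1 := by
    unfold fa
    rw [if_pos h]
  unfold shA
  rcases hc with rfl | rfl | rfl | rfl <;> linarith

theorem shA_nonempty (ha : ∀ i, a i ≠ 0) {g : ZI} (hg : g ≠ 0) (h : FrA a g) : 1 / 6 ≤ shA a := by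
  obtain ⟨c, D, hr⟩ := exists_rp hg
  have h1 : FrA a (c * D) := by
    intro J D' hD'
    refine h J D' ⟨hD'.cx, hD'.ps, ?_⟩
    obtain ⟨s, hs⟩ := hr.sq
    obtain ⟨t, ht⟩ := hD'.sq
    refine sq_div (mul_ne_zero hr.cx.ne hr.ps.ne) (t := s * t) ?_
    rw [mul_pow s, pow_two s, pow_two t, ← hs, ← ht]
    ring
  exact shA_of hr.cx ((frA_iff hr.cx ha hr.ps).1 h1)

/-- few multipliers -/
theorem shA_low : 1 - (m : ℝ) / 3 ≤ shA a := by
  have hx : ∀ c : ZI, fa a c = 1 - if c ∈ univ.image (fun i : Fin m => kap a {i}) then 1 else 0 := by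
    intro c
    unfold fa
    by_cases h : ∀ i, kap a {i} ≠ c
    · rw [if_pos h, if_neg]
      · ring
      · rw [mem_image]
        rintro ⟨i, -, hi⟩
        exact h i hi
    · rw [if_neg h, if_pos]
      · ring
      · push Not at h
        obtain ⟨i, hi⟩ := h
        exact mem_image.2 ⟨i, mem_univ _, hi⟩
  have h4 : ({1, im1, pi1, im1 * pi1} : Finset ZI).card = 4 := by decide
  have hsum : ∑ c ∈ ({1, im1, pi1, im1 * pi1} : Finset ZI),
      (if c ∈ univ.image (fun i : Fin m => kap a {i}) then (1 : ℝ) else 0) ≤ m := by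
    rw [Finset.sum_ite_mem, Finset.sum_const, nsmul_eq_mul, mul_one]
    have h1 : (({1, im1, pi1, im1 * pi1} : Finset ZI) ∩
        univ.image (fun i : Fin m => kap a {i})).card ≤ m := by
      refine (card_le_card inter_subset_right).trans ?_
      refine card_image_le.trans ?_
      rw [card_univ, Fintype.card_fin]
    exact_mod_cast h1
  have n12 : (1 : ZI) ∉ ({im1, pi1, im1 * pi1} : Finset ZI) := by decide
  have n23 : (im1 : ZI) ∉ ({pi1, im1 * pi1} : Finset ZI) := by decide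
  have n34 : (pi1 : ZI) ∉ ({im1 * pi1} : Finset ZI) := by decide
  rw [sum_insert n12, sum_insert n23, sum_insert n34, sum_singleton] at hsum
  have z : ∀ c : ZI, (0 : ℝ) ≤ if c ∈ univ.image (fun i : Fin m => kap a {i}) then 1 else 0 := by
    intro c
    split_ifs <;> norm_num
  have z3 := z pi1
  have z4 := z (im1 * pi1)
  unfold shA
  rw [hx 1, hx im1, hx pi1, hx (im1 * pi1)]
  linarith

/-- the `a i` are primary -/
theorem shA_prim (hm : 0 < m) (ha : ∀ i, PS (a i)) : shA a = 2 / 3 := by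
  have ha0 : ∀ i, a i ≠ 0 := fun i => (ha i).ne
  have h0 : ∀ c : ZI, c ≠ 1 → fa a c = 1 := by
    intro c hc
    unfold fa
    rw [if_pos]
    intro i hi
    exact hc (by rw [← hi, kap_prim ha])
  have h1 : fa a 1 = 0 := by
    unfold fa
    rw [if_neg]
    intro h
    exact h ⟨0, hm⟩ (kap_prim ha _)
  unfold shA
  rw [h1, h0 im1 (by decide), h0 pi1 (by decide), h0 (im1 * pi1) (by decide)]
  norm_num

end main

end Pool.Agent.H691.QM
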