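import Pool.Agent.Run7.h691.QM.Sg
import Pool.Agent.Run7.h691.MI.FinF

/-!
# QM: lower bounds of the share of the eligible elements
-/

set_option autoImplicit false
set_option linter.unusedVariables false

open scoped Classical
open Finset Filter

namespace Pool.Agent.H691.QM

open H385 (ZI nrm im1)
open Pool.Agent.Y699 (PP PS PD PS_prod mem_PD PD_one pi1 qr)
open Pool.Agent.H691.GJ (sq_div)
open Run7.h26.QI (RA clsA_iff)

variable {r : ℕ} {b : Fin r → ZI}

theorem ps_one : PS (1 : ZI) := by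
  have := (PS_prod (S := ∅) (fun π hπ => absurd hπ (notMem_empty _))).1
  rwa [prod_empty] at this

/-- the class of the product -/
noncomputable def kap (b : Fin r → ZI) (J : Finset (Fin r)) : ZI := cJ 1 b J

theorem rp_kap (hb : ∀ i, b i ≠ 0) (J : Finset (Fin r)) :
    Rp (∏ i ∈ J, b i) (kap b J) (BJ 1 b J) := by
  have h := rpJ (c₀ := 1) (Or.inl rfl) hb J
  rwa [one_mul] at h

theorem cJ_iff {c : ZI} (hc : Cx c) (hb : ∀ i, b i ≠ 0) (J : Finset (Fin r)) :
    cJ c b J = 1 ↔ kap b J = c := by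
  have h1 := rpJ hc hb J
  have h2 := rp_kap hb J
  have hcc : Rp c c 1 := ⟨hc, ps_one, c, by rw [mul_one]⟩
  obtain ⟨c'', h3, h4⟩ := rp_mul' hcc h2
  have hne : c * ∏ i ∈ J, b i ≠ 0 := mul_ne_zero hc.ne (prod_ne_zero_iff.2 fun i _ => hb i)
  obtain ⟨e1, -⟩ := rp_uniq hne h1 h3
  rw [e1]
  constructor
  · intro h
    rw [h, mul_one] at h4
    exact (cx_uniq hc h2.cx h4).symm
  · intro h
    rw [h] at h4
    obtain ⟨z, hz⟩ := h4
    have h5 : IsSquare c'' := sq_div hc.ne (a := c'') (t := z) (by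
      rw [pow_two z, ← hz]
      ring)
    refine cx_uniq h3.cx (Or.inl rfl) ?_
    rwa [mul_one]

theorem dn_nonneg (c : ZI) : 0 ≤ dn b c := by
  unfold dn hR
  positivity

theorem dn_free {c : ZI} (hc : Cx c) (hb : ∀ i, b i ≠ 0) (h : ∀ J, kap b J ≠ c) : dn b c = 1 := by
  have h1 : RS c b = RA := by
    unfold RS
    rw [filter_eq_self]
    intro k _ J hJ
    exact absurd ((cJ_iff hc hb J).1 hJ) (h J)
  unfold dn hR
  rw [h1]
  have : RA.card = 4 := by decide
  rw [this]
  norm_num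

theorem RS_const {c : ZI} {m : ℕ} (hc : Cx c) (hb : ∀ i, b i ≠ 0) (hm : m = 1 ∨ m = 5)
    (h : ∀ J, cJ c b J = 1 → nrm (BJ c b J) % 8 = m) :
    (if m = 1 then ({5, 13} : Finset ℕ) else {1, 9}) ⊆ RS c b := by
  intro k hk
  unfold RS
  rcases hm with rfl | rfl
  · rw [if_pos rfl] at hk
    simp only [mem_insert, mem_singleton] at hk
    rw [mem_filter]
    refine ⟨by unfold RA; rcases hk with rfl | rfl <;> decide, fun J hJ => ?_⟩
    have h1 := h J hJ
    rw [Nat.mul_mod, h1]
    rcases hk with rfl | rfl <;> norm_num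
  · rw [if_neg (by norm_num)] at hk
    simp only [mem_insert, mem_singleton] at hk
    rw [mem_filter]
    refine ⟨by unfold RA; rcases hk with rfl | rfl <;> decide, fun J hJ => ?_⟩
    have h1 := h J hJ
    rw [Nat.mul_mod, h1]
    rcases hk with rfl | rfl <;> norm_num

theorem dn_const {c : ZI} {m : ℕ} (hc : Cx c) (hb : ∀ i, b i ≠ 0) (hm : m = 1 ∨ m = 5)
    (h : ∀ J, cJ c b J = 1 → nrm (BJ c b J) % 8 = m) : 1 / 2 ≤ dn b c := by
  have h1 := card_le_card (RS_const hc hb hm h)
  have h2 : (if m = 1 then ({5, 13} : Finset ℕ) else {1, 9}).card = 2 := by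
    split_ifs
    · decide
    · decide
  rw [h2] at h1
  unfold dn hR
  have h3 : (2 : ℝ) ≤ ((RS c b).card : ℝ) := by exact_mod_cast h1
  linarith

theorem dn_uniq {c : ZI} (hc : Cx c) (hb : ∀ i, b i ≠ 0) (h : ∀ J J', kap b J = c → kap b J' = c → J = J') :
    1 / 2 ≤ dn b c := by
  by_cases h0 : ∃ J, kap b J = c
  · obtain ⟨J₀, hJ₀⟩ := h0
    have h4 := nrm4 (rpJ hc hb J₀).ps
    refine dn_const (m := nrm (BJ c b J₀) % 8) hc hb (by omega) fun J hJ => ?_
    rw [h J J₀ ((cJ_iff hc hb J).1 hJ) hJ₀]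
  · push Not at h0
    rw [dn_free hc hb h0]
    norm_num

theorem cx1 : Cx (1 : ZI) := Or.inl rfl
theorem cx2 : Cx (im1 : ZI) := Or.inr (Or.inl rfl)
theorem cx3 : Cx (pi1 : ZI) := Or.inr (Or.inr (Or.inl rfl))
theorem cx4 : Cx (im1 * pi1 : ZI) := Or.inr (Or.inr (Or.inr rfl))

/-- one free class -/
theorem sh_of {c : ZI} (hc : Cx c) {a : ℝ} (ha : a ≤ dn b c) : a / 6 ≤ sh b := by
  have n1 := dn_nonneg (b := b) 1
  have n2 := dn_nonneg (b := b) im1
  have n3 := dn_nonneg (b := b) pi1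
  have n4 := dn_nonneg (b := b) (im1 * pi1)
  unfold sh
  rcases hc with rfl | rfl | rfl | rfl <;> linarith

/-- degree at most four -/
theorem sh_two (hb : ∀ i, b i ≠ 0) (hr : r ≤ 2) : 1 / 6 ≤ sh b := by
  by_cases h : ∃ c, Cx c ∧ ∀ J, kap b J ≠ c
  · obtain ⟨c, hc, h1⟩ := h
    exact sh_of hc (dn_free hc hb h1).ge
  · push Not at h
    -- all the classes occur, each exactly once
    have hS : ((univ : Finset (Finset (Fin r))).image (kap b)).card = (univ : Finset (Finset (Fin r))).card := by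
      have h1 : ({1, im1, pi1, im1 * pi1} : Finset ZI) ⊆ (univ : Finset (Finset (Fin r))).image (kap b) := by
        intro c hc
        simp only [mem_insert, mem_singleton] at hc
        obtain ⟨J, hJ⟩ := h c hc
        exact mem_image.2 ⟨J, mem_univ J, hJ⟩
      have h2 := card_le_card h1
      have h3 : ({1, im1, pi1, im1 * pi1} : Finset ZI).card = 4 := by decide
      have h4 : (univ : Finset (Finset (Fin r))).card = 2 ^ r := by
        rw [card_univ, Fintype.card_finset, Fintype.card_fin]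
      have h5 : 2 ^ r ≤ 2 ^ 2 := Nat.pow_le_pow_right (by norm_num) hr
      have h6 := card_image_le (s := (univ : Finset (Finset (Fin r)))) (f := kap b)
      omega
    have hinj : ∀ J J', kap b J = kap b J' → J = J' := fun J J' hJ =>
      (Finset.card_image_iff.1 hS) (mem_coe.2 (mem_univ J)) (mem_coe.2 (mem_univ J')) hJ
    have hd : ∀ c, Cx c → 1 / 2 ≤ dn b c := fun c hc =>
      dn_uniq hc hb fun J J' h1 h2 => hinj J J' (h1.trans h2.symm)
    have d1 := hd 1 cx1
    have d2 := hd im1 cx2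
    have d3 := hd pi1 cx3
    have d4 := hd _ cx4
    unfold sh
    linarith

/-- all the eligible elements -/
theorem sh_nonempty (hb : ∀ i, b i ≠ 0) {g : ZI} (hg : g ≠ 0) (h : SgE b g) : 1 / 12 ≤ sh b := by
  obtain ⟨c, D, hr⟩ := exists_rp hg
  have h1 : SgE b (c * D) := by
    intro J D' hD'
    refine h J D' ⟨hD'.cx, hD'.ps, ?_⟩
    obtain ⟨s, hs⟩ := hr.sq
    obtain ⟨t, ht⟩ := hD'.sq
    refine sq_div (mul_ne_zero hr.cx.ne hr.ps.ne) (t := s * t) ?_
    rw [mul_pow s, pow_two s, pow_two t, ← hs, ← ht]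
    ring
  have h2 := ((sg_iff hr.cx hb hr.ps).1 h1).nm
  have h3 : 1 / 2 ≤ dn b c := by
    have h4 : 2 ≤ (RS c b).card := by
      rcases RS_cases (c₀ := c) (b := b) with h | h | h | h
      · rw [h]; decide
      · rw [h]; decide
      · rw [h]; decide
      · rw [h] at h2
        exact absurd h2 (notMem_empty _)
    unfold dn hR
    have h5 : (2 : ℝ) ≤ ((RS c b).card : ℝ) := by exact_mod_cast h4
    linarith
  have h4 := sh_of hr.cx h3
  linarith

/-- quadratic extensions -/
theorem sh_one (hb : ∀ i, b i ≠ 0) (hr : r = 1) : 2 / 3 ≤ sh b := by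
  subst hr
  have hJ : ∀ J : Finset (Fin 1), J = ∅ ∨ J = univ := by decide
  have h0 : kap b ∅ = 1 := by
    have h := rp_kap hb ∅
    rw [prod_empty] at h
    exact (rp_uniq one_ne_zero h ⟨cx1, ps_one, 1, by norm_num⟩).1
  have hk := (rp_kap hb univ).cx
  have hfree : ∀ c, Cx c → c ≠ 1 → c ≠ kap b univ → dn b c = 1 := by
    intro c hc h1 h2
    refine dn_free hc hb fun J hJ' => ?_
    rcases hJ J with h | h
    · rw [h, h0] at hJ'
      exact h1 hJ'.symm
    · rw [h] at hJ'
      exact h2 hJ'.symm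
  have huniq : kap b univ ≠ 1 → ∀ c, Cx c → 1 / 2 ≤ dn b c := by
    intro h1 c hc
    refine dn_uniq hc hb fun J J' h2 h3 => ?_
    rcases hJ J with h | h <;> rcases hJ J' with h' | h' <;> rw [h, h'] <;> exfalso
    · rw [h, h0] at h2
      rw [h'] at h3
      exact h1 (h3.trans h2.symm)
    · rw [h', h0] at h3
      rw [h] at h2
      exact h1 (h2.trans h3.symm)
  have n1 := dn_nonneg (b := b) 1
  have n12 : (im1 : ZI) ≠ 1 := by decide
  have n13 : (pi1 : ZI) ≠ 1 := by decide
  have n14 : (im1 * pi1 : ZI) ≠ 1 := by decide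
  have n23 : (im1 : ZI) ≠ pi1 := by decide
  have n24 : (im1 : ZI) ≠ im1 * pi1 := by decide
  have n34 : (pi1 : ZI) ≠ im1 * pi1 := by decide
  unfold sh
  rcases hk with h | h | h | h
  · have d2 := hfree im1 cx2 n12 (by rw [h]; exact n12)
    have d3 := hfree pi1 cx3 n13 (by rw [h]; exact n13)
    have d4 := hfree _ cx4 n14 (by rw [h]; exact n14)
    linarith
  · have hu := huniq (by rw [h]; exact n12)
    have d1 := hu 1 cx1
    have d2 := hu im1 cx2
    have d3 := hfree pi1 cx3 n13 (by rw [h]; exact n23.symm)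
    have d4 := hfree _ cx4 n14 (by rw [h]; exact n24.symm)
    linarith
  · have hu := huniq (by rw [h]; exact n13)
    have d1 := hu 1 cx1
    have d3 := hu pi1 cx3
    have d2 := hfree im1 cx2 n12 (by rw [h]; exact n23)
    have d4 := hfree _ cx4 n14 (by rw [h]; exact n34.symm)
    linarith
  · have hu := huniq (by rw [h]; exact n14)
    have d1 := hu 1 cx1
    have d4 := hu _ cx4
    have d2 := hfree im1 cx2 n12 (by rw [h]; exact n24)
    have d3 := hfree pi1 cx3 n13 (by rw [h]; exact n34)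
    linarith

/-- products of primary elements -/
theorem rp_prod (hb : ∀ i, PS (b i)) (J : Finset (Fin r)) :
    ∃ B, Rp (∏ i ∈ J, b i) 1 B ∧ ((∀ i, nrm (b i) % 8 = 1) → nrm B % 8 = 1) := by
  induction J using Finset.induction_on with
  | empty =>
    refine ⟨1, ⟨cx1, ps_one, 1, by norm_num⟩, fun _ => by decide⟩
  | insert a J ha ih =>
    obtain ⟨B, h1, h2⟩ := ih
    have h3 : Rp (b a) 1 (b a) := ⟨cx1, hb a, b a, by rw [one_mul]⟩
    obtain ⟨c'', h4, h5⟩ := rp_mul' h3 h1
    have h6 : c'' = 1 := by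
      refine cx_uniq h4.cx cx1 ?_
      rw [mul_one]
      rwa [one_mul, one_mul] at h5
    rw [h6] at h4
    refine ⟨_, by rw [prod_insert ha]; exact h4, fun h => ?_⟩
    rw [nrm_sd (hb a) h1.ps, Nat.mul_mod, h a, h2 h]

theorem kap_prim (hb : ∀ i, PS (b i)) (J : Finset (Fin r)) : kap b J = 1 := by
  obtain ⟨B, h1, -⟩ := rp_prod hb J
  exact (rp_uniq (prod_ne_zero_iff.2 fun i _ => (hb i).ne) (rp_kap (fun i => (hb i).ne) J) h1).1

theorem dn_prim (hb : ∀ i, PS (b i)) {c : ZI} (hc : Cx c) (h1 : c ≠ 1) : dn b c = 1 :=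
  dn_free hc (fun i => (hb i).ne) fun J hJ => h1 (by rw [← hJ, kap_prim hb])

/-- the `b i` are primary -/
theorem sh_prim (hb : ∀ i, PS (b i)) : 2 / 3 ≤ sh b := by
  have n1 := dn_nonneg (b := b) 1
  have d2 := dn_prim hb cx2 (by decide)
  have d3 := dn_prim hb cx3 (by decide)
  have d4 := dn_prim hb cx4 (by decide)
  unfold sh
  linarith

/-- unramified extensions -/
theorem sh_unr (hb : ∀ i, PS (b i)) (hn : ∀ i, nrm (b i) % 8 = 1) : sh b = 5 / 6 := by
  have hb0 : ∀ i, b i ≠ 0 := fun i => (hb i).ne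
  have d2 := dn_prim hb cx2 (by decide)
  have d3 := dn_prim hb cx3 (by decide)
  have d4 := dn_prim hb cx4 (by decide)
  have hB : ∀ J, nrm (BJ 1 b J) % 8 = 1 := by
    intro J
    obtain ⟨B, h1, h2⟩ := rp_prod hb J
    rw [(rp_uniq (prod_ne_zero_iff.2 fun i _ => (hb i).ne) (rp_kap (fun i => (hb i).ne) J) h1).2]
    exact h2 hn
  have d1 : dn b 1 = 1 / 2 := by
    have h1 : RS 1 b = {5, 13} := by
      rcases RS_cases (c₀ := 1) (b := b) with h | h | h | h
      · exfalso
        have h2 : 1 ∈ RS 1 b := by rw [h]; decide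
        unfold RS at h2
        rw [mem_filter] at h2
        have h3 := h2.2 ∅ ((cJ_iff cx1 hb0 ∅).2 (kap_prim hb ∅))
        have h4 := hB ∅
        omega
      · exact h
      · exfalso
        have h2 : 1 ∈ RS 1 b := by rw [h]; decide
        unfold RS at h2
        rw [mem_filter] at h2
        have h3 := h2.2 ∅ ((cJ_iff cx1 hb0 ∅).2 (kap_prim hb ∅))
        have h4 := hB ∅
        omega
      · exfalso
        have h2 := RS_const (m := 1) cx1 hb0 (Or.inl rfl) fun J _ => hB J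
        rw [if_pos rfl, h] at h2
        exact absurd (h2 (by decide : (5 : ℕ) ∈ ({5, 13} : Finset ℕ))) (notMem_empty _)
    unfold dn hR
    rw [h1]
    have : ({5, 13} : Finset ℕ).card = 2 := by decide
    rw [this]
    norm_num
  unfold sh
  rw [d1, d2, d3, d4]
  norm_num

end Pool.Agent.H691.QM
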