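import Pool.Agent.Run7.h691.QM.Stm
import Pool.Agent.Run7.h691.GJ.NS
import Pool.Agent.Y699.Min

/-!
# QM: the representatives `c D` of the square classes of `ℚ(i)`
-/

set_option autoImplicit false
set_option linter.unusedVariables false

open scoped Classical
open Finset Filter

namespace Pool.Agent.H691.QM

open H385 (ZI nrm im1)
open Pool.Agent.Y699 (PP PS PD PS_prod mem_PD PD_one exists_PP pi1 pi1_prime norm_odd_iff)
open Pool.Agent.H304R2.EC.A1 (prim)
open Pool.Agent.W164.RC (unit_norm unit_cases)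
open Run7.h26.QI (cc3 not_dvd_cc3)
open Pool.Agent.H691.GJ (sq_div prod3 uniq)

/-- the classes -/
def Cx (c : ZI) : Prop := c = 1 ∨ cc3 c

/-- `c D` is the representative of the square class of `x` -/
structure Rp (x c D : ZI) : Prop where
  cx : Cx c
  ps : PS D
  sq : IsSquare (x * (c * D))

theorem Cx.ne {c : ZI} (h : Cx c) : c ≠ 0 := by
  rcases h with rfl | rfl | rfl | rfl <;> decide

theorem cx_mul {c c' : ZI} (h : Cx c) (h' : Cx c') : ∃ c'', Cx c'' ∧ IsSquare (c * c' * c'') := by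
  have m0 : Cx 1 := Or.inl rfl
  have m1 : Cx im1 := Or.inr (Or.inl rfl)
  have m2 : Cx pi1 := Or.inr (Or.inr (Or.inl rfl))
  have m3 : Cx (im1 * pi1) := Or.inr (Or.inr (Or.inr rfl))
  rcases h with rfl | rfl | rfl | rfl <;> rcases h' with rfl | rfl | rfl | rfl
  · exact ⟨1, m0, 1, by decide⟩
  · exact ⟨im1, m1, im1, by decide⟩
  · exact ⟨pi1, m2, pi1, by decide⟩
  · exact ⟨im1 * pi1, m3, im1 * pi1, by decide⟩
  · exact ⟨im1, m1, im1, by decide⟩
  · exact ⟨1, m0, im1, by decide⟩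
  · exact ⟨im1 * pi1, m3, im1 * pi1, by decide⟩
  · exact ⟨pi1, m2, im1 * pi1, by decide⟩
  · exact ⟨pi1, m2, pi1, by decide⟩
  · exact ⟨im1 * pi1, m3, im1 * pi1, by decide⟩
  · exact ⟨1, m0, pi1, by decide⟩
  · exact ⟨im1, m1, im1 * pi1, by decide⟩
  · exact ⟨im1 * pi1, m3, im1 * pi1, by decide⟩
  · exact ⟨pi1, m2, im1 * pi1, by decide⟩
  · exact ⟨im1, m1, im1 * pi1, by decide⟩
  · exact ⟨1, m0, im1 * pi1, by decide⟩

theorem pp_sd {D D' : ZI} (hD : PS D) (hD' : PS D') : ∀ π ∈ symmDiff (PD D) (PD D'), PP π := by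
  intro π hπ
  rcases Finset.mem_symmDiff.1 hπ with h | h
  · exact ((mem_PD hD.ne).1 h.1).1
  · exact ((mem_PD hD'.ne).1 h.1).1

theorem sd_sq {D D' : ZI} (hD : PS D) (hD' : PS D') :
    D * D' * ∏ π ∈ symmDiff (PD D) (PD D'), π = (∏ π ∈ PD D ∪ PD D', π) ^ 2 := by
  have h := prod3 (PD D) (PD D')
  have h1 : ∏ π ∈ PD D, π = D := hD.prod
  have h2 : ∏ π ∈ PD D', π = D' := hD'.prod
  rw [h1, h2] at h
  exact h

theorem rp_mul' {x y c D c' D' : ZI} (h : Rp x c D) (h' : Rp y c' D') :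
    ∃ c'', Rp (x * y) c'' (∏ π ∈ symmDiff (PD D) (PD D'), π) ∧ IsSquare (c * c' * c'') := by
  obtain ⟨c'', hc, z, hz⟩ := cx_mul h.cx h'.cx
  have hw := sd_sq h.ps h'.ps
  obtain ⟨s, hs⟩ := h.sq
  obtain ⟨t, ht⟩ := h'.sq
  refine ⟨c'', ⟨hc, (PS_prod (pp_sd h.ps h'.ps)).1, ?_⟩, z, hz⟩
  have hne : c * c' * D * D' ≠ 0 := mul_ne_zero (mul_ne_zero (mul_ne_zero h.cx.ne h'.cx.ne)
    h.ps.ne) h'.ps.ne
  refine sq_div hne (t := s * t * z * ∏ π ∈ PD D ∪ PD D', π) ?_
  rw [mul_pow _ (∏ π ∈ PD D ∪ PD D', π), ← hw]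
  calc x * y * (c'' * ∏ π ∈ symmDiff (PD D) (PD D'), π) * (c * c' * D * D') ^ 2
      = (x * (c * D)) * (y * (c' * D')) * (c * c' * c'') *
        (D * D' * ∏ π ∈ symmDiff (PD D) (PD D'), π) := by ring
    _ = (s * s) * (t * t) * (z * z) * (D * D' * ∏ π ∈ symmDiff (PD D) (PD D'), π) := by
        rw [hs, ht, hz]
    _ = _ := by ring

theorem rp_unit {u : ZI} (hu : u.norm = 1) : ∃ c, Rp u c 1 := by
  have h1 : PS (1 : ZI) := by
    have := (PS_prod (S := ∅) (fun π hπ => absurd hπ (notMem_empty _))).1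
    rwa [prod_empty] at this
  rcases unit_cases hu with rfl | rfl | rfl | rfl
  · exact ⟨1, Or.inl rfl, h1, 1, by decide⟩
  · exact ⟨im1, Or.inr (Or.inl rfl), h1, im1, by decide⟩
  · exact ⟨1, Or.inl rfl, h1, im1, by decide⟩
  · exact ⟨im1, Or.inr (Or.inl rfl), h1, 1, by decide⟩

/-- every class has a representative -/
theorem exists_rp {x : ZI} (hx : x ≠ 0) : ∃ c D, Rp x c D := by
  have h1 : PS (1 : ZI) := by
    have := (PS_prod (S := ∅) (fun π hπ => absurd hπ (notMem_empty _))).1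
    rwa [prod_empty] at this
  induction x using UniqueFactorizationMonoid.induction_on_prime with
  | h₁ => exact absurd rfl hx
  | h₂ x hu =>
    obtain ⟨u, rfl⟩ := hu
    obtain ⟨c, hc⟩ := rp_unit (unit_norm u)
    exact ⟨c, 1, hc⟩
  | h₃ a p ha hp ih =>
    obtain ⟨c, D, hcD⟩ := ih ha
    have hp' : ∃ c' D', Rp p c' D' := by
      by_cases ho : p.norm % 2 = 1
      · obtain ⟨π, hπ, u, hu⟩ := exists_PP hp ho
        obtain ⟨c', hc'⟩ := rp_unit (unit_norm u)
        have h2 : Rp π 1 π := ⟨Or.inl rfl, hπ.ps, π, by ring⟩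
        obtain ⟨c'', hc'', -⟩ := rp_mul' h2 hc'
        rw [hu] at hc''
        exact ⟨_, _, hc''⟩
      · have hd : pi1 ∣ p := by
          by_contra hc
          exact ho ((norm_odd_iff p).2 hc)
        obtain ⟨u, hu⟩ := pi1_prime.associated_of_dvd hp hd
        obtain ⟨c', hc'⟩ := rp_unit (unit_norm u)
        have h2 : Rp pi1 pi1 1 := ⟨Or.inr (Or.inr (Or.inl rfl)), h1, pi1, by ring⟩
        obtain ⟨c'', hc'', -⟩ := rp_mul' h2 hc'
        rw [hu] at hc''
        exact ⟨_, _, hc''⟩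
    obtain ⟨c', D', h'⟩ := hp'
    obtain ⟨c'', hc'', -⟩ := rp_mul' h' hcD
    exact ⟨_, _, hc''⟩

/-- the odd parts are equal -/
theorem uniq_e {e D D' : ZI} (he : ∀ π, PP π → ¬ π ∣ e) (hD : PS D) (hD' : PS D')
    (h : IsSquare (e * (D * D'))) : D = D' := by
  have key : ∀ {D D' : ZI}, PS D → PS D' → IsSquare (e * (D * D')) → PD D ⊆ PD D' := by
    intro D D' hD hD' h π hπ
    obtain ⟨t, ht⟩ := h
    obtain ⟨h1, h2⟩ := (mem_PD hD.ne).1 hπ
    rw [mem_PD hD'.ne]
    refine ⟨h1, ?_⟩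
    have h3 : π ∣ t := by
      have : π ∣ t * t := by rw [← ht]; exact (h2.mul_right _).mul_left _
      rcases h1.pr.dvd_or_dvd this with h | h <;> exact h
    have h4 : π * π ∣ e * (D * D') := by rw [ht]; exact mul_dvd_mul h3 h3
    obtain ⟨c, rfl⟩ := h2
    have h5 : ¬ π ∣ c := fun h => h1.pr.not_isUnit (hD.sqf π (mul_dvd_mul_left π h))
    have h6 : π ∣ e * c * D' := by
      have e1 : e * (π * c * D') = π * (e * c * D') := by ring
      rw [e1] at h4
      exact (mul_dvd_mul_iff_left h1.ne).1 h4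
    rcases h1.pr.dvd_or_dvd h6 with h7 | h7
    · rcases h1.pr.dvd_or_dvd h7 with h8 | h8
      · exact absurd h8 (he π h1)
      · exact absurd h8 h5
    · exact h7
  have h1 := key hD hD' h
  have h2 := key hD' hD (by rw [mul_comm D' D]; exact h)
  rw [← hD.prod, ← hD'.prod]
  exact congrArg (fun S : Finset ZI => ∏ π ∈ S, π) (Finset.Subset.antisymm h1 h2)

theorem norm_sq_two {x : ZI} (hx : x.norm = 2) : ¬ IsSquare x := by
  rintro ⟨z, rfl⟩
  rw [Zsqrtd.norm_mul] at hx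
  have h0 := GaussianInt.norm_nonneg z
  have h1 : z.norm ≤ 1 := by nlinarith
  interval_cases h : z.norm <;> omega

theorem not_sq_im : ¬ IsSquare im1 := by
  rintro ⟨z, hz⟩
  have h1 : z.norm = 1 := by
    have h2 := congrArg Zsqrtd.norm hz
    rw [Zsqrtd.norm_mul] at h2
    have h3 : im1.norm = 1 := by decide
    rw [h3] at h2
    have h0 := GaussianInt.norm_nonneg z
    nlinarith
  rcases unit_cases h1 with rfl | rfl | rfl | rfl <;> exact absurd hz (by decide)

theorem not_sq_neg : ¬ IsSquare (-2 : ZI) := by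
  rintro ⟨z, hz⟩
  have h1 : (z * z).re = -2 := by rw [← hz]; decide
  have h2 : (z * z).im = 0 := by rw [← hz]; decide
  rw [Zsqrtd.re_mul] at h1
  rw [Zsqrtd.im_mul] at h2
  have h3 : z.re * z.im = 0 := by linarith
  rcases mul_eq_zero.1 h3 with h | h
  · rw [h] at h1
    have h4 : z.im * z.im = 2 := by linarith
    have h5 : z.im ≤ 1 := by nlinarith
    have h6 : -1 ≤ z.im := by nlinarith
    interval_cases h7 : z.im <;> omega
  · rw [h] at h1
    nlinarith [mul_self_nonneg z.re]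

theorem cx_uniq {c c' : ZI} (h : Cx c) (h' : Cx c') (hs : IsSquare (c * c')) : c = c' := by
  have n2 : ∀ {x : ZI}, x.norm = 2 → IsSquare x → False := fun hx h => norm_sq_two hx h
  rcases h with rfl | rfl | rfl | rfl <;> rcases h' with rfl | rfl | rfl | rfl
  · rfl
  · rw [one_mul] at hs
    exact absurd hs not_sq_im
  · exact absurd hs (norm_sq_two (by decide))
  · exact absurd hs (norm_sq_two (by decide))
  · rw [mul_one] at hs
    exact absurd hs not_sq_im
  · rfl
  · exact absurd hs (norm_sq_two (by decide))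
  · exact absurd hs (norm_sq_two (by decide))
  · exact absurd hs (norm_sq_two (by decide))
  · exact absurd hs (norm_sq_two (by decide))
  · rfl
  · exact absurd hs (by
      have e : pi1 * (im1 * pi1) = (-2 : ZI) := by decide
      rw [e]
      exact not_sq_neg)
  · exact absurd hs (norm_sq_two (by decide))
  · exact absurd hs (norm_sq_two (by decide))
  · exact absurd hs (by
      have e : im1 * pi1 * pi1 = (-2 : ZI) := by decide
      rw [e]
      exact not_sq_neg)
  · rfl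

theorem cx_np {c π : ZI} (hc : Cx c) (hπ : PP π) : ¬ π ∣ c := by
  rcases hc with rfl | hc
  · exact hπ.pr.not_dvd_one
  · exact not_dvd_cc3 hc hπ

/-- the representative is unique -/
theorem rp_uniq {x c D c' D' : ZI} (hx : x ≠ 0) (h : Rp x c D) (h' : Rp x c' D') :
    c = c' ∧ D = D' := by
  obtain ⟨s, hs⟩ := h.sq
  obtain ⟨t, ht⟩ := h'.sq
  have h1 : IsSquare (c * c' * (D * D')) := by
    refine sq_div hx (t := s * t) ?_
    rw [mul_pow, pow_two s, pow_two t, ← hs, ← ht]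
    ring
  have h2 : D = D' := uniq_e (fun π hπ hd => by
    rcases hπ.pr.dvd_or_dvd hd with h | h
    · exact cx_np ‹Rp x c D›.cx hπ h
    · exact cx_np h'.cx hπ h) h.ps h'.ps h1
  refine ⟨cx_uniq h.cx h'.cx ?_, h2⟩
  rw [← h2] at h1
  obtain ⟨w, hw⟩ := h1
  refine sq_div h.ps.ne (t := w) ?_
  rw [pow_two, hw, pow_two]

end Pool.Agent.H691.QM
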