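import Pool.Agent.Run7.h691.QM.Asy
import Pool.Agent.Run7.h691.QM.Rep
import Pool.Agent.Run7.h26.QI.Ct6

/-!
# QM: the joint law in terms of the elements
-/

set_option autoImplicit false
set_option linter.unusedVariables false

open scoped Classical
open Finset Filter

namespace Pool.Agent.H691.QM

open H385 (ZI nrm im1)
open Pool.Agent.Y699 (PP PS PD PS_prod mem_PD PD_one pi1 qr)
open Pool.Agent.Y703.CQ (c2)
open Pool.Agent.H304R2.EC.A1 (prim)
open Pool.Agent.H691.GZ (qa Gd SS S_LOW ClsE)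
open Pool.Agent.H691.GZ.NS (card_cls card_eq gd_of_ker ker_of_gd)
open Pool.Agent.H691.GJ (sq_div prod3 parN SG_parN lim_of)
open Run7.h26.QI (cc3 GdC GoodC gdC_of_ker kerC_of_gd)

/-- the criterion for `c D` -/
def Gx (c D : ZI) : Prop := if c = 1 then Gd (PD D) else GdC c (PD D)

/-- the further vertex of a class -/
noncomputable def vx (c : ZI) : Finset ZI := if c = 1 then ∅ else {c}

theorem vx_sub {c : ZI} (h : Cx c) : vx c ⊆ VV := by
  unfold vx
  by_cases h1 : c = 1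
  · rw [if_pos h1]
    exact empty_subset _
  · rw [if_neg h1, singleton_subset_iff, mem_VV]
    exact h.resolve_left h1

theorem vx_card (c : ZI) : (vx c).card ≤ 1 := by
  unfold vx
  split_ifs
  · simp
  · simp

theorem vx_inj {c c' : ZI} (h : Cx c) (h' : Cx c') (he : vx c = vx c') : c = c' := by
  unfold vx at he
  by_cases h1 : c = 1
  · rw [if_pos h1] at he
    by_cases h2 : c' = 1
    · rw [h1, h2]
    · rw [if_neg h2] at he
      exact absurd he.symm (singleton_ne_empty _)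
  · rw [if_neg h1] at he
    by_cases h2 : c' = 1
    · rw [if_pos h2] at he
      exact absurd he (singleton_ne_empty _)
    · rw [if_neg h2] at he
      exact singleton_injective he

/-- the criterion in terms of the vertices -/
theorem gx_iff {c D : ZI} (h : Cx c) (hD : PS D) : Gx c D ↔ GdV (PD D ∪ vx c) := by
  have hS : ∀ u ∈ PD D, PP u := fun u hu => ((mem_PD hD.ne).1 hu).1
  unfold Gx vx
  by_cases h1 : c = 1
  · rw [if_pos h1, if_pos h1, union_empty]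
    exact (gdV_gd hS).symm
  · rw [if_neg h1, if_neg h1, union_comm, ← insert_eq]
    exact (gdV_C (mem_VV.2 (h.resolve_left h1)) hS).symm

variable {r : ℕ}

section fam
variable {c₀ : ZI} {b : Fin r → ZI}

/-- the class of `c₀ b^J` -/
noncomputable def cJ (c₀ : ZI) (b : Fin r → ZI) (J : Finset (Fin r)) : ZI :=
  if h : ∃ c D, Rp (c₀ * ∏ i ∈ J, b i) c D then h.choose else 1

/-- the odd part of `c₀ b^J` -/
noncomputable def BJ (c₀ : ZI) (b : Fin r → ZI) (J : Finset (Fin r)) : ZI :=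
  if h : ∃ c D, Rp (c₀ * ∏ i ∈ J, b i) c D then h.choose_spec.choose else 1

theorem rpJ (h0 : Cx c₀) (hb : ∀ i, b i ≠ 0) (J : Finset (Fin r)) :
    Rp (c₀ * ∏ i ∈ J, b i) (cJ c₀ b J) (BJ c₀ b J) := by
  have h : ∃ c D, Rp (c₀ * ∏ i ∈ J, b i) c D :=
    exists_rp (mul_ne_zero h0.ne (prod_ne_zero_iff.2 fun i _ => hb i))
  unfold cJ BJ
  rw [dif_pos h, dif_pos h]
  exact h.choose_spec.choose_spec

/-- the mask -/
noncomputable def UQ (c₀ : ZI) (b : Fin r → ZI) (J : Finset (Fin r)) : Finset ZI :=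
  PD (BJ c₀ b J) ∪ vx (cJ c₀ b J)

theorem split_mask {P P' V V' : Finset ZI} (hP : ∀ u ∈ P, PP u) (hP' : ∀ u ∈ P', PP u)
    (hV : V ⊆ VV) (hV' : V' ⊆ VV) (h : P ∪ V = P' ∪ V') : P = P' ∧ V = V' := by
  have key : ∀ {P P' V V' : Finset ZI}, (∀ u ∈ P, PP u) → (∀ u ∈ P', PP u) → V ⊆ VV → V' ⊆ VV →
      P ∪ V = P' ∪ V' → P ⊆ P' ∧ V ⊆ V' := by
    intro P P' V V' hP hP' hV hV' h
    constructor
    · intro x hx
      have h1 : x ∈ P' ∪ V' := by rw [← h]; exact mem_union_left _ hx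
      rcases mem_union.1 h1 with h2 | h2
      · exact h2
      · exact absurd (hP x hx) (vv_np (hV' h2))
    · intro x hx
      have h1 : x ∈ P' ∪ V' := by rw [← h]; exact mem_union_right _ hx
      rcases mem_union.1 h1 with h2 | h2
      · exact absurd (hP' x h2) (vv_np (hV hx))
      · exact h2
  obtain ⟨a1, a2⟩ := key hP hP' hV hV' h
  obtain ⟨b1, b2⟩ := key hP' hP hV' hV h.symm
  exact ⟨Subset.antisymm a1 b1, Subset.antisymm a2 b2⟩

theorem UQ_inj (h0 : Cx c₀) (hb : ∀ i, b i ≠ 0)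
    (hind : ∀ J : Finset (Fin r), J.Nonempty → ¬ IsSquare (∏ i ∈ J, b i)) :
    Function.Injective (UQ c₀ b) := by
  intro J J' h
  by_contra hne
  have h1 : (symmDiff J J').Nonempty := by
    rw [Finset.nonempty_iff_ne_empty]
    intro h0
    exact hne (symmDiff_eq_bot.1 h0)
  have e1 := rpJ h0 hb J
  have e2 := rpJ h0 hb J'
  have hS : ∀ J, ∀ u ∈ PD (BJ c₀ b J), PP u := fun J u hu =>
    ((mem_PD (rpJ h0 hb J).ps.ne).1 hu).1
  obtain ⟨g1, g2⟩ := split_mask (hS J) (hS J') (vx_sub e1.cx) (vx_sub e2.cx) h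
  have g3 := vx_inj e1.cx e2.cx g2
  have g4 : BJ c₀ b J = BJ c₀ b J' := by
    have h1 : ∏ π ∈ PD (BJ c₀ b J), π = BJ c₀ b J := e1.ps.prod
    have h2 : ∏ π ∈ PD (BJ c₀ b J'), π = BJ c₀ b J' := e2.ps.prod
    rw [← h1, ← h2, g1]
  rw [← g3, ← g4] at e2
  obtain ⟨s, hs⟩ := e1.sq
  obtain ⟨t, ht⟩ := e2.sq
  refine hind _ h1 ?_
  -- the product over the symmetric difference
  have h5 : (∏ i ∈ symmDiff J J', b i) * (∏ i ∈ J ∩ J', b i) ^ 2 =
      (∏ i ∈ J, b i) * ∏ i ∈ J', b i := by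
    have d : symmDiff J J' = (J \ J') ∪ (J' \ J) := rfl
    have hd : Disjoint (J \ J') (J' \ J) := by
      rw [Finset.disjoint_left]
      intro x hx hx'
      rw [Finset.mem_sdiff] at hx hx'
      exact hx.2 hx'.1
    have e1 : (∏ i ∈ J ∩ J', b i) * ∏ i ∈ J \ J', b i = ∏ i ∈ J, b i :=
      Finset.prod_inter_mul_prod_diff J J' b
    have e2 : (∏ i ∈ J' ∩ J, b i) * ∏ i ∈ J' \ J, b i = ∏ i ∈ J', b i :=
      Finset.prod_inter_mul_prod_diff J' J b
    rw [Finset.inter_comm J' J] at e2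
    rw [d, Finset.prod_union hd, ← e1, ← e2]
    ring
  have hne0 : (∏ i ∈ J ∩ J', b i) * (c₀ * (cJ c₀ b J * BJ c₀ b J)) ≠ 0 :=
    mul_ne_zero (prod_ne_zero_iff.2 fun i _ => hb i)
      (mul_ne_zero h0.ne (mul_ne_zero e1.cx.ne e1.ps.ne))
  refine sq_div hne0 (t := s * t) ?_
  rw [mul_pow, ← mul_assoc, h5, mul_pow s, pow_two s, pow_two t, ← hs, ← ht]
  ring

/-- all the vertices -/
noncomputable def WQ (c₀ : ZI) (b : Fin r → ZI) : Finset ZI := univ.biUnion (UQ c₀ b)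

theorem WQ_pp (h0 : Cx c₀) (hb : ∀ i, b i ≠ 0) : ∀ u ∈ WQ c₀ b, PP u ∨ u ∈ VV := by
  intro u hu
  unfold WQ at hu
  obtain ⟨J, -, hJ⟩ := mem_biUnion.1 hu
  unfold UQ at hJ
  rcases mem_union.1 hJ with h | h
  · exact Or.inl ((mem_PD (rpJ h0 hb J).ps.ne).1 h).1
  · exact Or.inr (vx_sub (rpJ h0 hb J).cx h)

theorem UQ_vv (h0 : Cx c₀) (hb : ∀ i, b i ≠ 0) (J J' : Finset (Fin r)) :
    ¬ VV ⊆ UQ c₀ b J ∪ UQ c₀ b J' := by
  intro h
  have h1 : VV ⊆ vx (cJ c₀ b J) ∪ vx (cJ c₀ b J') := by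
    intro x hx
    have h2 := h hx
    unfold UQ at h2
    rw [mem_union, mem_union, mem_union] at h2
    rw [mem_union]
    rcases h2 with (h2 | h2) | (h2 | h2)
    · exact absurd ((mem_PD (rpJ h0 hb J).ps.ne).1 h2).1 (vv_np hx)
    · exact Or.inl h2
    · exact absurd ((mem_PD (rpJ h0 hb J').ps.ne).1 h2).1 (vv_np hx)
    · exact Or.inr h2
  have h2 := (card_le_card h1).trans (card_union_le _ _)
  have h3 := vx_card (cJ c₀ b J)
  have h4 := vx_card (cJ c₀ b J')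
  have h5 : VV.card = 3 := by unfold VV; decide
  omega

/-- the criterion for all the `c₀ D b^J` -/
def JQ (c₀ : ZI) (b : Fin r → ZI) (D : ZI) : Prop :=
  ∀ (J : Finset (Fin r)) (c D' : ZI), Rp (c₀ * D * ∏ i ∈ J, b i) c D' → Gx c D'

/-- the representative of `c₀ D b^J` -/
theorem rpD (h0 : Cx c₀) (hb : ∀ i, b i ≠ 0) {D : ZI} (hD : PS D) (J : Finset (Fin r)) :
    Rp (c₀ * D * ∏ i ∈ J, b i) (cJ c₀ b J) (∏ π ∈ symmDiff (PD D) (PD (BJ c₀ b J)), π) := by
  have h := rpJ h0 hb J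
  refine ⟨h.cx, (PS_prod (pp_sd hD h.ps)).1, ?_⟩
  have h1 := sd_sq hD h.ps
  obtain ⟨s, hs⟩ := h.sq
  refine sq_div h.ps.ne (t := s * ∏ π ∈ PD D ∪ PD (BJ c₀ b J), π) ?_
  rw [mul_pow s, ← h1, pow_two s, ← hs]
  ring

theorem jq_iff (h0 : Cx c₀) (hb : ∀ i, b i ≠ 0) {D : ZI} (hD : PS D) :
    JQ c₀ b D ↔ GdW (univ.image (UQ c₀ b)) (PD D) := by
  have key : ∀ J, GdV (symmDiff (PD D) (UQ c₀ b J)) ↔
      Gx (cJ c₀ b J) (∏ π ∈ symmDiff (PD D) (PD (BJ c₀ b J)), π) := by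
    intro J
    have h := rpD h0 hb hD J
    rw [gx_iff h.cx h.ps, (PS_prod (pp_sd hD (rpJ h0 hb J).ps)).2]
    have e : symmDiff (PD D) (UQ c₀ b J) =
        symmDiff (PD D) (PD (BJ c₀ b J)) ∪ vx (cJ c₀ b J) := by
      ext x
      unfold UQ
      have a1 : x ∈ PD D → x ∉ vx (cJ c₀ b J) := fun h1 h2 =>
        vv_np (vx_sub h.cx h2) ((mem_PD hD.ne).1 h1).1
      have a2 : x ∈ PD (BJ c₀ b J) → x ∉ vx (cJ c₀ b J) := fun h1 h2 =>
        vv_np (vx_sub h.cx h2) ((mem_PD (rpJ h0 hb J).ps.ne).1 h1).1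
      simp only [Finset.mem_symmDiff, Finset.mem_union]
      tauto
    rw [e]
  constructor
  · intro h U hU
    obtain ⟨J, -, rfl⟩ := mem_image.1 hU
    exact (key J).2 (h J _ _ (rpD h0 hb hD J))
  · intro h J c D' hr
    have hne : c₀ * D * ∏ i ∈ J, b i ≠ 0 :=
      mul_ne_zero (mul_ne_zero h0.ne hD.ne) (prod_ne_zero_iff.2 fun i _ => hb i)
    obtain ⟨e1, e2⟩ := rp_uniq hne hr (rpD h0 hb hD J)
    rw [e1, e2]
    exact (key J).1 (h _ (mem_image_of_mem _ (mem_univ J)))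

end fam

/-- **the joint law for the elements** -/
theorem t_QE {R : Finset ℕ} (hR : S_LOW R) {c₀ : ZI} (h0 : Cx c₀) {b : Fin r → ZI}
    (hb : ∀ i, b i ≠ 0)
    (hind : ∀ J : Finset (Fin r), J.Nonempty → ¬ IsSquare (∏ i ∈ J, b i)) :
    Tendsto (fun X : ℕ => ({D : ZI | nrm D ≤ X ∧ ClsE R D ∧ JQ c₀ b D}.ncard : ℝ) /
      ({D : ZI | nrm D ≤ X ∧ ClsE R D}.ncard : ℝ)) atTop (nhds (c2 ^ 2 ^ r)) := by
  have hcard : (univ.image (UQ c₀ b)).card = 2 ^ r := by
    rw [Finset.card_image_of_injective _ (UQ_inj h0 hb hind), Finset.card_univ,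
      Fintype.card_finset, Fintype.card_fin]
  obtain ⟨c, X₀, hc, hlow⟩ := hR
  have h : Tendsto (fun X : ℕ => (((SS R X).filter (GdW (univ.image (UQ c₀ b)))).card : ℝ) /
      ((SS R X).card : ℝ)) atTop (nhds (c2 ^ 2 ^ r)) := by
    refine lim_of ⟨c, hc, ?_⟩ fun ε hε => ?_
    · filter_upwards [eventually_ge_atTop X₀] with X hX
      exact hlow X hX
    · have h := t_AQ (parN R) (WQ c₀ b) (WQ_pp h0 hb) (univ.image (UQ c₀ b)) (fun U hU => by
        obtain ⟨J, -, rfl⟩ := mem_image.1 hU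
        exact subset_biUnion_of_mem (UQ c₀ b) (mem_univ J)) (fun U hU U' hU' => by
        obtain ⟨J, -, rfl⟩ := mem_image.1 hU
        obtain ⟨J', -, rfl⟩ := mem_image.1 hU'
        exact UQ_vv h0 hb J J') ε hε
      filter_upwards [h] with X hX
      rw [SG_parN, hcard] at hX
      exact hX
  refine h.congr fun X => ?_
  rw [card_cls, ← card_eq R X (GdW (univ.image (UQ c₀ b)))]
  congr 3
  ext D
  simp only [Set.mem_ofPred_eq]
  refine and_congr_right fun _ => and_congr_right fun hc => ?_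
  exact (jq_iff h0 hb hc.ps).symm

/-- the criterion for `c D` in terms of the factorisations -/
theorem gx_crit {c D : ZI} (h : Cx c) (hD : PS D) : Gx c D ↔
    (c = 1 → ∀ d d' : ZI, prim d → prim d' → D = d * d' → (∀ π ∈ PD d, qr π d' = 1) →
      (∀ π ∈ PD d', qr π d = 1) → d = 1 ∨ d' = 1) ∧ (c ≠ 1 → GoodC c D) := by
  unfold Gx
  by_cases h1 : c = 1
  · rw [if_pos h1]
    constructor
    · intro hg
      exact ⟨fun _ => ker_of_gd hD hg, fun h => absurd h1 h⟩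
    · intro hg
      exact gd_of_ker hD (hg.1 h1)
  · rw [if_neg h1]
    constructor
    · intro hg
      exact ⟨fun h => absurd h h1, fun _ => kerC_of_gd (h.resolve_left h1) hD hg⟩
    · intro hg
      exact gdC_of_ker (h.resolve_left h1) (hg.2 h1)

end Pool.Agent.H691.QM
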