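import Pool.Agent.Run7.h691.QM.NS
import Pool.Agent.Run7.h26.QI.Ct9

/-!
# QM: the sign condition and the shares among all the squarefree Gaussian integers
-/

set_option autoImplicit false
set_option linter.unusedVariables false

open scoped Classical
open Finset Filter

namespace Pool.Agent.H691.QM

open H385 (ZI nrm im1)
open Pool.Agent.Y699 (PP PS PD PS_prod mem_PD PD_one pi1 qr)
open Pool.Agent.Y703.CQ (c2)
open Pool.Agent.H304R2.EC.A1 (prim prim_norm_odd)
open Pool.Agent.H691.GZ (SS S_LOW ClsE low5 SQ.prim_mod4)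
open Pool.Agent.H691.GZ.NS (card_cls)
open Pool.Agent.H691.GJ (sq_div)
open Run7.h26.QI (cc3 RA clsA_iff SS_mono lowA sA sA_eq lim_s5 lim_half sA_pos half_tendsto nQ fin_Q
  nQ_classes nQ_congr sum_UU UU mem_UU sqf_unit sqf_pi count_sqf)

theorem nrm_ml (x y : ZI) : nrm (x * y) = nrm x * nrm y := by
  unfold nrm
  rw [Zsqrtd.norm_mul, Int.natAbs_mul]

theorem nrm_cast (x : ZI) : ((nrm x : ℕ) : ℤ) = x.norm := GaussianInt.abs_natCast_norm x

theorem nrm4 {D : ZI} (h : PS D) : nrm D % 4 = 1 := by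
  have h1 := ((clsA_iff D).2 h).nm
  unfold RA at h1
  simp only [mem_insert, mem_singleton] at h1
  omega

/-- the norm of the twist -/
theorem nrm_sd {D B : ZI} (hD : PS D) (hB : PS B) :
    nrm (∏ π ∈ symmDiff (PD D) (PD B), π) % 8 = (nrm D * nrm B) % 8 := by
  have hP := (PS_prod (pp_sd hD hB)).1
  obtain ⟨P, hPe⟩ : ∃ P, P = ∏ π ∈ symmDiff (PD D) (PD B), π := ⟨_, rfl⟩
  obtain ⟨T, hT⟩ : ∃ T, T = ∏ π ∈ PD D ∪ PD B, π := ⟨_, rfl⟩
  have h := congrArg nrm (sd_sq hD hB)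
  rw [← hPe] at h hP ⊢
  rw [← hT, nrm_ml, nrm_ml, pow_two, nrm_ml] at h
  have a1 := nrm4 hD
  have a2 := nrm4 hB
  have a3 := nrm4 hP
  have hTo : nrm T % 2 = 1 := by
    by_contra hc
    have h2 : nrm T % 2 = 0 := by omega
    have h3 : (nrm T * nrm T) % 2 = 0 := by rw [Nat.mul_mod, h2]
    rw [← h, Nat.mul_mod, Nat.mul_mod (nrm D)] at h3
    have b1 : nrm D % 2 = 1 := by omega
    have b2 : nrm B % 2 = 1 := by omega
    have b3 : nrm P % 2 = 1 := by omega
    rw [b1, b2, b3] at h3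
    omega
  have hT8 : (nrm T * nrm T) % 8 = 1 := by
    have h9 : nrm T % 8 = 1 ∨ nrm T % 8 = 3 ∨ nrm T % 8 = 5 ∨ nrm T % 8 = 7 := by omega
    rw [Nat.mul_mod]
    rcases h9 with h | h | h | h <;> rw [h]
  rw [← h, Nat.mul_mod, Nat.mul_mod (nrm D)] at hT8
  rw [Nat.mul_mod]
  have c1 : nrm D % 8 = 1 ∨ nrm D % 8 = 5 := by omega
  have c2 : nrm B % 8 = 1 ∨ nrm B % 8 = 5 := by omega
  have c3 : nrm P % 8 = 1 ∨ nrm P % 8 = 5 := by omega
  rcases c1 with c1 | c1 <;> rcases c2 with c2 | c2 <;> rcases c3 with c3 | c3 <;>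
    rw [c1, c2] at hT8 ⊢ <;> rw [c3] at hT8 ⊢ <;> omega

variable {r : ℕ}

/-- the sign condition for `g` -/
def SgE (b : Fin r → ZI) (g : ZI) : Prop :=
  ∀ (J : Finset (Fin r)) (D' : ZI), Rp (g * ∏ i ∈ J, b i) 1 D' → D'.norm % 8 = 5

/-- the criterion for `g` -/
def JE (b : Fin r → ZI) (g : ZI) : Prop :=
  ∀ (J : Finset (Fin r)) (c D' : ZI), Rp (g * ∏ i ∈ J, b i) c D' → Gx c D'

theorem rp_neg {x c D : ZI} : Rp (-x) c D ↔ Rp x c D := by
  have key : ∀ {x : ZI}, Rp x c D → Rp (-x) c D := by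
    intro x h
    refine ⟨h.cx, h.ps, ?_⟩
    obtain ⟨s, hs⟩ := h.sq
    refine ⟨im1 * s, ?_⟩
    have h1 : im1 * im1 = (-1 : ZI) := by decide
    calc -x * (c * D) = -(x * (c * D)) := by ring
      _ = (im1 * im1) * (s * s) := by rw [hs, h1]; ring
      _ = im1 * s * (im1 * s) := by ring
  exact ⟨fun h => by have := key h; rwa [neg_neg] at this, key⟩

theorem sgE_neg {b : Fin r → ZI} {g : ZI} : SgE b (-g) ↔ SgE b g := by
  unfold SgE
  refine forall_congr' fun J => forall_congr' fun D' => ?_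
  rw [neg_mul, rp_neg]

theorem jE_neg {b : Fin r → ZI} {g : ZI} : JE b (-g) ↔ JE b g := by
  unfold JE
  refine forall_congr' fun J => forall_congr' fun c => forall_congr' fun D' => ?_
  rw [neg_mul, rp_neg]

section cls
variable {c₀ : ZI} {b : Fin r → ZI}

/-- the classes of the norm modulo `16` allowed by the sign condition -/
noncomputable def RS (c₀ : ZI) (b : Fin r → ZI) : Finset ℕ :=
  RA.filter fun k => ∀ J : Finset (Fin r), cJ c₀ b J = 1 → (k * nrm (BJ c₀ b J)) % 8 = 5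

theorem sg_iff (h0 : Cx c₀) (hb : ∀ i, b i ≠ 0) {D : ZI} (hD : PS D) :
    SgE b (c₀ * D) ↔ ClsE (RS c₀ b) D := by
  have hne : ∀ J : Finset (Fin r), c₀ * D * ∏ i ∈ J, b i ≠ 0 := fun J =>
    mul_ne_zero (mul_ne_zero h0.ne hD.ne) (prod_ne_zero_iff.2 fun i _ => hb i)
  have hk := ((clsA_iff D).2 hD).nm
  have key : SgE b (c₀ * D) ↔ ∀ J : Finset (Fin r), cJ c₀ b J = 1 →
      (nrm D * nrm (BJ c₀ b J)) % 8 = 5 := by
    constructor
    · intro h J hJ
      have h1 := rpD h0 hb hD J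
      rw [hJ] at h1
      have h2 := h J _ h1
      rw [← nrm_cast] at h2
      rw [← nrm_sd hD (rpJ h0 hb J).ps]
      omega
    · intro h J D' hD'
      obtain ⟨e1, e2⟩ := rp_uniq (hne J) hD' (rpD h0 hb hD J)
      have h2 := h J e1.symm
      rw [← nrm_sd hD (rpJ h0 hb J).ps] at h2
      rw [e2, ← nrm_cast]
      omega
  rw [key]
  constructor
  · intro h
    refine ⟨hD, ?_⟩
    unfold RS
    rw [mem_filter]
    refine ⟨hk, fun J hJ => ?_⟩
    have h1 := h J hJ
    rw [Nat.mul_mod] at h1 ⊢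
    have : nrm D % 16 % 8 = nrm D % 8 := by omega
    rw [this]
    exact h1
  · intro h J hJ
    have h1 := h.nm
    unfold RS at h1
    rw [mem_filter] at h1
    have h2 := h1.2 J hJ
    rw [Nat.mul_mod] at h2 ⊢
    have : nrm D % 16 % 8 = nrm D % 8 := by omega
    rw [this] at h2
    exact h2

/-- the four cases -/
theorem RS_cases : RS c₀ b = RA ∨ RS c₀ b = {5, 13} ∨ RS c₀ b = {1, 9} ∨ RS c₀ b = ∅ := by
  obtain ⟨P, hP⟩ : ∃ P : ℕ → Prop, P = fun k => ∀ J : Finset (Fin r), cJ c₀ b J = 1 →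
    (k * nrm (BJ c₀ b J)) % 8 = 5 := ⟨_, rfl⟩
  have hR : RS c₀ b = RA.filter P := by
    rw [hP]
    unfold RS
    congr!
  have h9 : P 9 ↔ P 1 := by
    rw [hP]
    refine forall_congr' fun J => forall_congr' fun _ => ?_
    omega
  have h13 : P 13 ↔ P 5 := by
    rw [hP]
    refine forall_congr' fun J => forall_congr' fun _ => ?_
    omega
  rw [hR]
  unfold RA
  simp only [filter_insert, filter_singleton, h9, h13]
  by_cases a1 : P 1 <;> by_cases a5 : P 5
  · left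
    rw [if_pos a1, if_pos a5, if_pos a1, if_pos a5]
  · right; right; left
    rw [if_pos a1, if_neg a5, if_pos a1, if_neg a5]
    rfl
  · right; left
    rw [if_neg a1, if_pos a5, if_neg a1, if_pos a5]
  · right; right; right
    rw [if_neg a1, if_neg a5, if_neg a1, if_neg a5]

end cls

/-- the class of norm `1` modulo `8` -/
theorem lim_s1 : Tendsto (fun X : ℕ => ((SS {1, 9} X).card : ℝ) / (sA X : ℝ)) atTop (nhds (1 / 2)) := by
  have h1 := lim_s5.const_sub 1
  have e : (1 : ℝ) - 1 / 2 = 1 / 2 := by norm_num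
  rw [e] at h1
  refine h1.congr' ?_
  filter_upwards [sA_pos] with X hX
  have h2 : (sA X : ℝ) = ((SS {1, 9} X).card : ℝ) + ((SS {5, 13} X).card : ℝ) := by
    rw [sA_eq]
    have h3 : SS RA X = SS {1, 9} X ∪ SS {5, 13} X := by
      ext S
      unfold SS
      rw [mem_union, mem_filter, mem_filter, mem_filter]
      constructor
      · rintro ⟨k1, ⟨k2, k3⟩, k4⟩
        unfold RA at k3
        simp only [mem_insert, mem_singleton] at k3
        rcases k3 with k3 | k3 | k3 | k3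
        · exact Or.inl ⟨k1, ⟨k2, by rw [k3]; decide⟩, k4⟩
        · exact Or.inr ⟨k1, ⟨k2, by rw [k3]; decide⟩, k4⟩
        · exact Or.inl ⟨k1, ⟨k2, by rw [k3]; decide⟩, k4⟩
        · exact Or.inr ⟨k1, ⟨k2, by rw [k3]; decide⟩, k4⟩
      · rintro (⟨k1, ⟨k2, k3⟩, k4⟩ | ⟨k1, ⟨k2, k3⟩, k4⟩)
        · exact ⟨k1, ⟨k2, (by decide : ({1, 9} : Finset ℕ) ⊆ RA) k3⟩, k4⟩
        · exact ⟨k1, ⟨k2, (by decide : ({5, 13} : Finset ℕ) ⊆ RA) k3⟩, k4⟩
    have h4 : Disjoint (SS {1, 9} X) (SS {5, 13} X) := by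
      rw [Finset.disjoint_left]
      intro S hS hS'
      unfold SS at hS hS'
      rw [mem_filter] at hS hS'
      have k1 := hS.2.1.2
      have k2 := hS'.2.1.2
      simp only [mem_insert, mem_singleton] at k1 k2
      omega
    rw [h3, card_union_of_disjoint h4]
    push_cast
    ring
  rw [eq_div_iff hX.ne', sub_mul, one_mul, div_mul_cancel₀ _ hX.ne', h2]
  ring

theorem low_of_lim {R : Finset ℕ} {a : ℝ} (ha : 0 < a)
    (h : Tendsto (fun X : ℕ => ((SS R X).card : ℝ) / (sA X : ℝ)) atTop (nhds a)) : S_LOW R := by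
  obtain ⟨c, X₀, hc, hlow⟩ := lowA
  obtain ⟨X₁, hX₁⟩ := eventually_atTop.1 ((tendsto_order.1 h).1 (a / 2) (by linarith))
  obtain ⟨X₂, hX₂⟩ := eventually_atTop.1 sA_pos
  refine ⟨a / 2 * c, max X₀ (max X₁ X₂), by positivity, fun X hX => ?_⟩
  have k0 := (le_max_left _ _).trans hX
  have k1 := (le_max_left _ _).trans ((le_max_right _ _).trans hX)
  have k2 := (le_max_right _ _).trans ((le_max_right _ _).trans hX)
  have h1 := hX₁ X k1
  rw [lt_div_iff₀ (hX₂ X k2)] at h1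
  have h2 := hlow X k0
  rw [← sA_eq] at h2
  nlinarith

/-- the density of the class -/
noncomputable def hR (R : Finset ℕ) : ℝ := (R.card : ℝ) / 4

theorem lim_R {R : Finset ℕ} (h : R = RA ∨ R = {5, 13} ∨ R = {1, 9} ∨ R = ∅) :
    Tendsto (fun X : ℕ => ((SS R X).card : ℝ) / (sA X : ℝ)) atTop (nhds (hR R)) := by
  rcases h with rfl | rfl | rfl | rfl
  · have e : hR RA = 1 := by
      unfold hR
      have : RA.card = 4 := by decide
      rw [this]
      norm_num
    rw [e]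
    refine (tendsto_const_nhds (x := (1 : ℝ))).congr' ?_
    filter_upwards [sA_pos] with X hX
    rw [← sA_eq, div_self hX.ne']
  · have e : hR {5, 13} = 1 / 2 := by
      unfold hR
      have : ({5, 13} : Finset ℕ).card = 2 := by decide
      rw [this]
      norm_num
    rw [e]
    exact lim_s5
  · have e : hR {1, 9} = 1 / 2 := by
      unfold hR
      have : ({1, 9} : Finset ℕ).card = 2 := by decide
      rw [this]
      norm_num
    rw [e]
    exact lim_s1
  · have e : hR ∅ = 0 := by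
      unfold hR
      simp
    rw [e]
    refine (tendsto_const_nhds (x := (0 : ℝ))).congr fun X => ?_
    have : SS ∅ X = ∅ := by
      ext S
      unfold SS
      simp [Pool.Agent.H691.GZ.Cl]
    rw [this]
    simp

theorem hR_pos {R : Finset ℕ} (h : R ≠ ∅) : 0 < hR R := by
  unfold hR
  have : 0 < R.card := Finset.card_pos.2 (nonempty_iff_ne_empty.2 h)
  positivity

theorem low_R {R : Finset ℕ} (h : R = RA ∨ R = {5, 13} ∨ R = {1, 9} ∨ R = ∅) (hne : R ≠ ∅) :
    S_LOW R := low_of_lim (hR_pos hne) (lim_R h)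

/-! ### the four classes -/

section tot

/-- the number of the elements of a class -/
noncomputable def nC (P : ZI → Prop) (c : ZI) (X : ℕ) : ℕ := {D : ZI | nrm D ≤ X ∧ (PS D ∧ P (c * D))}.ncard

theorem count_tot {P : ZI → Prop} (hP : ∀ g, P (-g) ↔ P g) (X : ℕ) :
    nQ (fun g => Squarefree g ∧ P g) X = 2 * nC P 1 X + 2 * nC P im1 X + 2 * nC P pi1 (X / 2) +
      2 * nC P (im1 * pi1) (X / 2) := by
  rw [nQ_classes (fun g h => h.1), sum_UU, sum_UU]
  have h1 : ∀ u c : ZI, u.norm = 1 → (∀ D, P (u * D) ↔ P (c * D)) → ∀ Y,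
      nQ (fun D => prim D ∧ (Squarefree (u * D) ∧ P (u * D))) Y = nC P c Y := by
    intro u c hu h Y
    unfold nC
    refine nQ_congr (Q' := fun D => PS D ∧ P (c * D)) (fun g => ?_) Y
    rw [h, sqf_unit hu]
    exact ⟨fun h => ⟨⟨h.1, h.2.1⟩, h.2.2⟩, fun h => ⟨h.1.prm, h.1.sqf, h.2⟩⟩
  have h2 : ∀ u c : ZI, u.norm = 1 → (∀ D, P (pi1 * (u * D)) ↔ P (c * D)) → ∀ Y,
      nQ (fun D => prim D ∧ (Squarefree (pi1 * (u * D)) ∧ P (pi1 * (u * D)))) Y = nC P c Y := by
    intro u c hu h Y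
    unfold nC
    refine nQ_congr (Q' := fun D => PS D ∧ P (c * D)) (fun g => ?_) Y
    rw [h]
    have e : pi1 * (u * g) = u * (pi1 * g) := by ring
    rw [e, sqf_unit hu]
    constructor
    · rintro ⟨k1, k2, k3⟩
      exact ⟨⟨k1, (sqf_pi k1).1 k2⟩, k3⟩
    · rintro ⟨k1, k3⟩
      exact ⟨k1.prm, (sqf_pi k1.prm).2 k1.sqf, k3⟩
  have n1 : (-1 : ZI).norm = 1 := by decide
  have n2 : im1.norm = 1 := by decide
  have n3 : (-im1).norm = 1 := by decide
  have n0 : (1 : ZI).norm = 1 := by decide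
  rw [h1 1 1 n0 (fun D => Iff.rfl), h1 (-1) 1 n1 (fun D => by rw [neg_mul, hP]),
    h1 im1 im1 n2 (fun D => Iff.rfl), h1 (-im1) im1 n3 (fun D => by rw [neg_mul, hP]),
    h2 1 pi1 n0 (fun D => by rw [one_mul]),
    h2 (-1) pi1 n1 (fun D => by rw [neg_mul, one_mul, mul_neg, hP]),
    h2 im1 (im1 * pi1) n2 (fun D => by
      have e : pi1 * (im1 * D) = im1 * pi1 * D := by ring
      rw [e]),
    h2 (-im1) (im1 * pi1) n3 (fun D => by
      have e : pi1 * (-im1 * D) = -(im1 * pi1 * D) := by ring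
      rw [e, hP])]
  ring

/-- the share among all the squarefree elements -/
theorem lim_tot {P : ZI → Prop} (hP : ∀ g, P (-g) ↔ P g) {l : ZI → ℝ}
    (hl : ∀ c, Cx c → Tendsto (fun X : ℕ => (nC P c X : ℝ) / (sA X : ℝ)) atTop (nhds (l c))) :
    Tendsto (fun X : ℕ => (nQ (fun g => Squarefree g ∧ P g) X : ℝ) / (nQ Squarefree X : ℝ)) atTop
      (nhds ((2 * l 1 + 2 * l im1 + l pi1 + l (im1 * pi1)) / 6)) := by
  have m1 := hl 1 (Or.inl rfl)
  have m2 := hl im1 (Or.inr (Or.inl rfl))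
  have mh : ∀ c, Cx c → Tendsto (fun X : ℕ => (nC P c (X / 2) : ℝ) / (sA X : ℝ)) atTop
      (nhds (l c / 2)) := by
    intro c hc
    have h1 := ((hl c hc).comp half_tendsto).mul lim_half
    have e : l c * (1 / 2) = l c / 2 := by ring
    rw [e] at h1
    refine h1.congr' ?_
    have h2 := half_tendsto.eventually sA_pos
    filter_upwards [h2] with X h3
    simp only [Function.comp]
    rw [div_mul_div_comm, mul_comm (sA (X / 2) : ℝ) (sA X : ℝ), mul_div_mul_right _ _ h3.ne']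
  have m3 := mh pi1 (Or.inr (Or.inr (Or.inl rfl)))
  have m4 := mh (im1 * pi1) (Or.inr (Or.inr (Or.inr rfl)))
  have h1 := (((m1.const_mul 2).add (m2.const_mul 2)).add (m3.const_mul 2)).add (m4.const_mul 2)
  have h2 : Tendsto (fun X : ℕ => 4 + 4 * ((sA (X / 2) : ℝ) / (sA X : ℝ))) atTop
      (nhds (4 + 4 * (1 / 2))) := (lim_half.const_mul 4).const_add 4
  have h3 := h1.div h2 (by norm_num)
  have e : (2 * l 1 + 2 * l im1 + 2 * (l pi1 / 2) + 2 * (l (im1 * pi1) / 2)) / (4 + 4 * (1 / 2)) =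
      (2 * l 1 + 2 * l im1 + l pi1 + l (im1 * pi1)) / 6 := by ring
  rw [e] at h3
  refine h3.congr' ?_
  filter_upwards [sA_pos] with X hX
  rw [Pi.div_apply, count_sqf, count_tot hP]
  push_cast
  field_simp

end tot

section main
variable {b : Fin r → ZI}

/-- the density of the class of `c` -/
noncomputable def dn (b : Fin r → ZI) (c : ZI) : ℝ := hR (RS c b)

/-- the share of the eligible elements -/
noncomputable def sh (b : Fin r → ZI) : ℝ :=
  (2 * dn b 1 + 2 * dn b im1 + dn b pi1 + dn b (im1 * pi1)) / 6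

theorem nC_sg {c : ZI} (hc : Cx c) (hb : ∀ i, b i ≠ 0) (X : ℕ) :
    nC (SgE b) c X = (SS (RS c b) X).card := by
  unfold nC
  rw [← card_cls]
  congr 1
  ext D
  refine and_congr_right fun _ => ?_
  constructor
  · exact fun h => (sg_iff hc hb h.1).1 h.2
  · exact fun h => ⟨h.ps, (sg_iff hc hb h.ps).2 h⟩

theorem lim_sg {c : ZI} (hc : Cx c) (hb : ∀ i, b i ≠ 0) :
    Tendsto (fun X : ℕ => (nC (SgE b) c X : ℝ) / (sA X : ℝ)) atTop (nhds (dn b c)) := by
  refine (lim_R RS_cases).congr fun X => ?_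
  rw [nC_sg hc hb]

/-- the exact law in the class of `c` -/
theorem law_c {c : ZI} (hc : Cx c) (hb : ∀ i, b i ≠ 0)
    (hind : ∀ J : Finset (Fin r), J.Nonempty → ¬ IsSquare (∏ i ∈ J, b i)) (hne : RS c b ≠ ∅) :
    Tendsto (fun X : ℕ => (nC (fun g => SgE b g ∧ JE b g) c X : ℝ) / (nC (SgE b) c X : ℝ)) atTop
      (nhds (c2 ^ 2 ^ r)) := by
  refine (t_QE (low_R RS_cases hne) hc hb hind).congr fun X => ?_
  have e1 : {D : ZI | nrm D ≤ X ∧ ClsE (RS c b) D ∧ JQ c b D}.ncard =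
      nC (fun g => SgE b g ∧ JE b g) c X := by
    unfold nC
    congr 1
    ext D
    refine and_congr_right fun _ => ?_
    constructor
    · rintro ⟨h1, h2⟩
      exact ⟨h1.ps, (sg_iff hc hb h1.ps).2 h1, h2⟩
    · rintro ⟨h1, h2, h3⟩
      exact ⟨(sg_iff hc hb h1).1 h2, h3⟩
  rw [e1, card_cls, ← nC_sg hc hb]

theorem lim_sj {c : ZI} (hc : Cx c) (hb : ∀ i, b i ≠ 0)
    (hind : ∀ J : Finset (Fin r), J.Nonempty → ¬ IsSquare (∏ i ∈ J, b i)) :
    Tendsto (fun X : ℕ => (nC (fun g => SgE b g ∧ JE b g) c X : ℝ) / (sA X : ℝ)) atTop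
      (nhds (c2 ^ 2 ^ r * dn b c)) := by
  by_cases hne : RS c b = ∅
  · have e : dn b c = 0 := by
      unfold dn hR
      rw [hne]
      simp
    rw [e, mul_zero]
    refine (tendsto_const_nhds (x := (0 : ℝ))).congr fun X => ?_
    have : nC (fun g => SgE b g ∧ JE b g) c X = 0 := by
      unfold nC
      rw [Set.ncard_eq_zero (fin_Q _ X)]
      ext D
      simp only [Set.mem_ofPred_eq, Set.mem_empty_iff_false, iff_false]
      rintro ⟨-, h1, h2, -⟩
      have h3 := ((sg_iff hc hb h1).1 h2).nm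
      rw [hne] at h3
      exact absurd h3 (notMem_empty _)
    rw [this]
    simp
  · have h1 := (law_c hc hb hind hne).mul (lim_sg hc hb)
    refine h1.congr' ?_
    obtain ⟨c', X₀, hc', hlow⟩ := low_R RS_cases hne
    filter_upwards [eventually_ge_atTop X₀, eventually_ge_atTop 1] with X h2 h3
    have hXr : (0 : ℝ) < X := by exact_mod_cast h3
    have hS : (0 : ℝ) < (nC (SgE b) c X : ℝ) := by
      rw [nC_sg hc hb]
      exact lt_of_lt_of_le (by positivity) (hlow X h2)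
    rw [div_mul_div_comm, mul_comm (nC (SgE b) c X : ℝ) (sA X : ℝ), mul_div_mul_right _ _ hS.ne']

/-- the share of the eligible elements -/
theorem share_sg (hb : ∀ i, b i ≠ 0) :
    Tendsto (fun X : ℕ => (nQ (fun g => Squarefree g ∧ SgE b g) X : ℝ) / (nQ Squarefree X : ℝ)) atTop
      (nhds (sh b)) :=
  lim_tot (fun g => sgE_neg) (l := dn b) fun c hc => lim_sg hc hb

/-- the share of the good elements -/
theorem share_sj (hb : ∀ i, b i ≠ 0)
    (hind : ∀ J : Finset (Fin r), J.Nonempty → ¬ IsSquare (∏ i ∈ J, b i)) :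
    Tendsto (fun X : ℕ => (nQ (fun g => Squarefree g ∧ (SgE b g ∧ JE b g)) X : ℝ) /
      (nQ Squarefree X : ℝ)) atTop (nhds (c2 ^ 2 ^ r * sh b)) := by
  have h := lim_tot (P := fun g => SgE b g ∧ JE b g) (fun g => and_congr sgE_neg jE_neg)
    (l := fun c => c2 ^ 2 ^ r * dn b c) fun c hc => lim_sj hc hb hind
  have e : (2 * (c2 ^ 2 ^ r * dn b 1) + 2 * (c2 ^ 2 ^ r * dn b im1) + c2 ^ 2 ^ r * dn b pi1 +
      c2 ^ 2 ^ r * dn b (im1 * pi1)) / 6 = c2 ^ 2 ^ r * sh b := by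
    unfold sh
    ring
  rw [e] at h
  exact h

/-- **the exact proportion among the eligible elements** -/
theorem share_main (hb : ∀ i, b i ≠ 0)
    (hind : ∀ J : Finset (Fin r), J.Nonempty → ¬ IsSquare (∏ i ∈ J, b i)) (hs : 0 < sh b) :
    Tendsto (fun X : ℕ => (nQ (fun g => Squarefree g ∧ (SgE b g ∧ JE b g)) X : ℝ) /
      (nQ (fun g => Squarefree g ∧ SgE b g) X : ℝ)) atTop (nhds (c2 ^ 2 ^ r)) := by
  have h := (share_sj hb hind).div (share_sg hb) hs.ne'
  rw [mul_div_cancel_right₀ _ hs.ne'] at h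
  refine h.congr' ?_
  filter_upwards [sA_pos] with X hX
  rw [Pi.div_apply]
  have h1 : (nQ Squarefree X : ℝ) ≠ 0 := by
    rw [count_sqf]
    push_cast
    positivity
  rw [div_div_div_cancel_right₀ h1]

end main

end Pool.Agent.H691.QM
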