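import Pool.Agent.Run7.h691.QM.Hq
import Pool.Agent.Run7.h691.GJ.Box

/-! QM: few sets have labels which are degenerate or do not separate the masks. -/

set_option autoImplicit false
set_option linter.unusedVariables false

open scoped Classical

namespace Pool.Agent.H691.QM

open Finset Filter
open H385 (ZI nrm im1)
open Pool.Agent.Y699 hiding kk f1 f2 LE f1_hasProd f2_hasProd sg
open Pool.Agent.Y703.CX (eL zz kk)
open Pool.Agent.H691.GZ
open Pool.Agent.H691.GZ.BF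
open Pool.Agent.H691.GJ.FW (tl tl_nonneg half_le4 lg_mul_le wt_count few_count' gen4)

theorem vx_ne {u : ZI} (h : PP u ∨ u ∈ VV) : u ≠ 0 := by
  rcases h with h | h
  · exact h.ne
  · rintro rfl
    exact absurd h (by unfold VV; decide)

theorem pN_posQ {S : Finset ZI} (h : ∀ u ∈ S, PP u ∨ u ∈ VV) : 0 < pN S :=
  Finset.prod_pos fun π hπ => nrm_pos' (vx_ne (h π hπ))

theorem pN_unQ (S₀ W : Finset ZI) (h : ∀ u ∈ S₀ ∪ W, PP u ∨ u ∈ VV) :
    pN (S₀ ∪ W) ≤ pN S₀ * pN W := by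
  have h1 : pN (S₀ ∪ W) * pN (S₀ ∩ W) = pN S₀ * pN W := by
    unfold pN
    exact Finset.prod_union_inter
  have h2 : 0 < pN (S₀ ∩ W) := pN_posQ fun u hu =>
    h u (Finset.mem_union_left _ (Finset.mem_inter.1 hu).1)
  rw [← h1]
  exact Nat.le_mul_of_pos_right _ h2

theorem notNdU {𝒰 : Finset (Finset ZI)} {S₀ T : Finset ZI} (h : ¬ NdU 𝒰 S₀ T) :
    ∃ U ∈ 𝒰, ∃ A : Finset ZI, A ⊆ symmDiff S₀ U ∧ A.Nonempty ∧
      ∀ π ∈ T, ∑ u ∈ A, qx u π = 0 := by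
  unfold NdU at h
  push Not at h
  obtain ⟨U, hU, v, ⟨u, hu, hu0⟩, h2⟩ := h
  have key0 : ∀ c : ZMod 2, c ≠ 0 → c = 1 := by decide
  refine ⟨U, hU, (symmDiff S₀ U).filter fun u => v u = 1, filter_subset _ _,
    ⟨u, mem_filter.2 ⟨hu, key0 _ hu0⟩⟩, ?_⟩
  intro π hπ
  have h3 := h2 π hπ
  rw [← h3, sum_filter]
  refine sum_congr rfl fun u _ => ?_
  have key : ∀ a b : ZMod 2, (if a = 1 then b else 0) = a * b := by decide
  exact key (v u) (qx u π)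

section cnt
variable {R : Finset ℕ} {X : ℕ} {W S₀ : Finset ZI}

theorem la_pp {z : ℕ} {S : Finset ZI} (h : S ∈ SS R X) {π : ZI} (hπ : π ∈ la z S) :
    PP π ∧ ¬ nrm π ≤ z := by
  unfold la at hπ
  rw [mem_filter] at hπ
  unfold SS at h
  rw [mem_filter] at h
  exact ⟨h.2.1.1 π hπ.1, hπ.2⟩

/-- the sets with degenerate labels -/
theorem deg_countQ {z : ℕ} (hS₀ : ∀ u ∈ S₀, PP u ∧ nrm u ≤ z)
    (hW : ∀ u ∈ W, (PP u ∨ u ∈ VV) ∧ nrm u ≤ z)
    (A : Finset ZI) (hA : A ⊆ S₀ ∪ W) (hne : A.Nonempty) (hV : ¬ VV ⊆ A)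
    (F : Finset (Finset ZI)) (hF : ∀ S ∈ F, (S ∈ SS R X ∧ sm z S = S₀) ∧
      ∀ π ∈ la z S, ∑ u ∈ A, qx u π = 0) :
    (F.card : ℝ) ≤ 5200 * lg (pN W) * lg (pN S₀) * tl (X / pN S₀) := by
  have hun : ∀ u ∈ S₀ ∪ W, (PP u ∨ u ∈ VV) ∧ nrm u ≤ z := by
    intro u hu
    rcases Finset.mem_union.1 hu with h | h
    · exact ⟨Or.inl (hS₀ u h).1, (hS₀ u h).2⟩
    · exact hW u h
  obtain ⟨χ, h1, h2, h3, -⟩ := exE (fun u hu => (hun u (hA hu)).1) hne hV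
  have h := fiber_le R X z S₀ (fun u hu => (hS₀ u hu).1) F (fun S hS => (hF S hS).1)
    (fun π => (1 + χ π) / 2) (fun π => by
      rcases h1 π with h | h | h <;> simp only [h] <;> norm_num) 1 (fun S hS => by
      refine le_of_eq (prod_eq_one fun π hπ => ?_).symm
      obtain ⟨⟨g1, g2⟩, g3⟩ := hF S hS
      have hπq := la_pp g1 hπ
      rw [h2 π hπq.1 fun h => hπq.2 (hun π (hA h)).2, g3 π hπ, EQ.sg_zero]
      norm_num)
  rw [mul_one] at h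
  refine h.trans ((h3 _).trans ?_)
  have hnn : pN A ≤ pN S₀ * pN W := by
    refine le_trans ?_ (pN_unQ S₀ W fun u hu => (hun u hu).1)
    unfold pN
    refine prod_le_prod_of_subset_of_one_le' hA fun u hu _ => ?_
    exact nrm_pos' (vx_ne (hun u hu).1)
  have h4 : Real.sqrt (lg (pN A)) ≤ 2 * lg (pN W) * lg (pN S₀) := by
    calc Real.sqrt (lg (pN A)) ≤ lg (pN A) := by
          rw [Real.sqrt_le_left (by have := one_le_lg (pN A); linarith)]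
          have := one_le_lg (pN A)
          nlinarith
      _ ≤ lg (pN S₀ * pN W) := lg_mono hnn
      _ ≤ _ := lg_mul_le (pN_pos fun u hu => (hS₀ u hu).1) (pN_posQ fun u hu => (hW u hu).1)
  have hTl := tl_nonneg (X / pN S₀)
  have h5 := half_le4 (X / pN S₀)
  have h6 : 0 ≤ ((X / pN S₀ : ℕ) : ℝ) / Real.sqrt (lg (X / pN S₀)) := by positivity
  have h7 : 0 ≤ 2 * lg (pN W) * lg (pN S₀) := by
    have := lg_pos (pN S₀)
    have := lg_pos (pN W)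
    positivity
  calc 2600 * Real.sqrt (lg (pN A)) * (((X / pN S₀ : ℕ) : ℝ) / Real.sqrt (lg (X / pN S₀)))
      ≤ 2600 * (2 * lg (pN W) * lg (pN S₀)) * tl (X / pN S₀) := by gcongr
    _ = _ := by ring

/-- all degenerate labels -/
theorem deg_allQ {z : ℕ} (hS₀ : ∀ u ∈ S₀, PP u ∧ nrm u ≤ z)
    (hW : ∀ u ∈ W, (PP u ∨ u ∈ VV) ∧ nrm u ≤ z) {𝒰 : Finset (Finset ZI)}
    (hU : ∀ U ∈ 𝒰, U ⊆ W) (hUV : ∀ U ∈ 𝒰, ¬ VV ⊆ U)
    (F : Finset (Finset ZI)) (hF : ∀ S ∈ F, (S ∈ SS R X ∧ sm z S = S₀) ∧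
      ¬ NdU 𝒰 S₀ (la z S)) :
    (F.card : ℝ) ≤ (5200 * lg (pN W) * 2 ^ W.card) * 4 ^ S₀.card * lg (pN S₀) *
      tl (X / pN S₀) := by
  set P := (S₀ ∪ W).powerset.filter fun p => p.Nonempty ∧ ¬ VV ⊆ p with hP
  have hsub : F ⊆ P.biUnion fun p => F.filter fun S => ∀ π ∈ la z S, ∑ u ∈ p, qx u π = 0 := by
    intro S hS
    obtain ⟨U, hU', A, hA, hne, hDg⟩ := notNdU (hF S hS).2
    rw [mem_biUnion]
    refine ⟨A, ?_, ?_⟩
    · rw [hP, mem_filter, mem_powerset]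
      refine ⟨hA.trans (Pool.Agent.H691.GJ.sd_sub (hU U hU')), hne, fun h => ?_⟩
      refine hUV U hU' fun x hx => ?_
      rcases Finset.mem_symmDiff.1 (hA (h hx)) with h1 | h1
      · exact absurd (hS₀ x h1.1).1 (vv_np hx)
      · exact h1.1
    · rw [mem_filter]
      exact ⟨hS, hDg⟩
  have h1 : (F.card : ℝ) ≤
      ∑ p ∈ P, ((F.filter fun S => ∀ π ∈ la z S, ∑ u ∈ p, qx u π = 0).card : ℝ) := by
    exact_mod_cast (card_le_card hsub).trans card_biUnion_le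
  have h2 : ∀ p ∈ P, ((F.filter fun S => ∀ π ∈ la z S, ∑ u ∈ p, qx u π = 0).card : ℝ) ≤
      5200 * lg (pN W) * lg (pN S₀) * tl (X / pN S₀) := by
    intro p hp
    rw [hP, mem_filter, mem_powerset] at hp
    refine deg_countQ (R := R) hS₀ hW p hp.1 hp.2.1 hp.2.2 _ ?_
    intro S hS
    rw [mem_filter] at hS
    exact ⟨(hF S hS.1).1, hS.2⟩
  have h3 : (P.card : ℝ) ≤ 2 ^ W.card * 4 ^ S₀.card := by
    have h31 : P.card ≤ 2 ^ (S₀ ∪ W).card := by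
      refine (card_filter_le _ _).trans (le_of_eq ?_)
      rw [card_powerset]
    have h32 : (2 : ℕ) ^ (S₀ ∪ W).card ≤ 2 ^ (S₀.card + W.card) :=
      Nat.pow_le_pow_right (by norm_num) (card_union_le _ _)
    have h33 : (2 : ℕ) ^ (S₀.card + W.card) ≤ 2 ^ W.card * 4 ^ S₀.card := by
      rw [pow_add, mul_comm]
      exact Nat.mul_le_mul_left _ (Nat.pow_le_pow_left (by norm_num) _)
    exact_mod_cast h31.trans (h32.trans h33)
  have hTl := tl_nonneg (X / pN S₀)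
  have hlg := lg_pos (pN S₀)
  have hlg2 := lg_pos (pN W)
  calc (F.card : ℝ) ≤ ∑ p ∈ P, 5200 * lg (pN W) * lg (pN S₀) * tl (X / pN S₀) :=
        h1.trans (sum_le_sum h2)
    _ = P.card * (5200 * lg (pN W) * lg (pN S₀) * tl (X / pN S₀)) := by
        rw [sum_const, nsmul_eq_mul]
    _ ≤ (2 ^ W.card * 4 ^ S₀.card) * (5200 * lg (pN W) * lg (pN S₀) * tl (X / pN S₀)) :=
        mul_le_mul_of_nonneg_right h3 (by positivity)
    _ = _ := by ring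

theorem exE2 {A : Finset ZI} (h : (∀ u ∈ A, PP u ∨ u ∈ VV) ∧ A.Nonempty ∧ ¬ VV ⊆ A) :
    ∃ C : ℝ, 0 ≤ C ∧ ∃ χ : ZI → ℝ, (∀ π, χ π = 0 ∨ χ π = 1 ∨ χ π = -1) ∧
      (∀ π, PP π → π ∉ A → χ π = sg (∑ u ∈ A, qx u π)) ∧
      ∀ T : ℕ, ∑ n ∈ SB T, mf (fun π => (3 + χ π) / 4) n ≤ C * tl T := by
  obtain ⟨χ, h1, h2, -, C, hC, h3⟩ := exE h.1 h.2.1 h.2.2
  exact ⟨C, hC, χ, h1, h2, h3⟩

/-- the constant for a mask -/
noncomputable def cQ (e : Finset ZI) : ℝ :=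
  if h : (∀ u ∈ e, PP u ∨ u ∈ VV) ∧ e.Nonempty ∧ ¬ VV ⊆ e then Classical.choose (exE2 h) else 0

theorem cQ_nonneg (e : Finset ZI) : 0 ≤ cQ e := by
  unfold cQ
  split_ifs with h
  · exact (Classical.choose_spec (exE2 h)).1
  · exact le_refl _

theorem cQ_spec {e : Finset ZI} (h : (∀ u ∈ e, PP u ∨ u ∈ VV) ∧ e.Nonempty ∧ ¬ VV ⊆ e) :
    ∃ χ : ZI → ℝ, (∀ π, χ π = 0 ∨ χ π = 1 ∨ χ π = -1) ∧
      (∀ π, PP π → π ∉ e → χ π = sg (∑ u ∈ e, qx u π)) ∧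
      ∀ T : ℕ, ∑ n ∈ SB T, mf (fun π => (3 + χ π) / 4) n ≤ cQ e * tl T := by
  unfold cQ
  rw [dif_pos h]
  exact (Classical.choose_spec (exE2 h)).2

/-- the sets whose labels do not separate a pair of masks -/
theorem sep_countQ (r : ℕ) {z : ℕ} (hS₀ : ∀ u ∈ S₀, PP u ∧ nrm u ≤ z)
    (hW : ∀ u ∈ W, (PP u ∨ u ∈ VV) ∧ nrm u ≤ z) (e : Finset ZI) (heW : e ⊆ W) (hne : e.Nonempty)
    (hV : ¬ VV ⊆ e)
    (F : Finset (Finset ZI)) (hF : ∀ S ∈ F, (S ∈ SS R X ∧ sm z S = S₀) ∧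
      ((la z S).filter fun p => ∑ u ∈ e, qx u p ≠ 0).card < 2 * (S₀ ∪ W).card + r) :
    (F.card : ℝ) ≤ (cQ e * 2 ^ (2 * W.card + r)) * 4 ^ S₀.card * lg (pN S₀) *
      tl (X / pN S₀) := by
  obtain ⟨χ, h1, h2, h3⟩ := cQ_spec ⟨fun u hu => (hW u (heW hu)).1, hne, hV⟩
  have h := fiber_le R X z S₀ (fun u hu => (hS₀ u hu).1)
    F (fun S hS => (hF S hS).1) (fun π => (3 + χ π) / 4)
    (fun π => by rcases h1 π with h | h | h <;> simp only [h] <;> norm_num)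
    ((1 / 2) ^ (2 * (S₀ ∪ W).card + r)) (fun S hS => by
        have e1 : ∏ π ∈ la z S, (3 + χ π) / 4 =
            ∏ π ∈ la z S, if ∑ u ∈ e, qx u π ≠ 0 then (1 / 2 : ℝ) else 1 := by
          refine prod_congr rfl fun π hπ => ?_
          have hπq := la_pp (hF S hS).1.1 hπ
          rw [h2 π hπq.1 fun h => hπq.2 (hW π (heW h)).2]
          unfold sg
          by_cases h1 : ∑ u ∈ e, qx u π = 0
          · rw [if_pos h1, if_neg (not_not.2 h1)]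
            norm_num
          · rw [if_neg h1, if_pos h1]
            norm_num
        rw [e1, prod_ite, prod_const_one, mul_one, prod_const]
        refine pow_le_pow_of_le_one (by norm_num) (by norm_num) (hF S hS).2.le)
  refine wt_count r (fun u hu => (hS₀ u hu).1) (cQ e) (cQ_nonneg e) _ (Nat.cast_nonneg _) ?_
  exact h.trans (h3 _)

end cnt

/-- **few sets are not regular** -/
theorem t_FEWQ (R : Finset ℕ) (r : ℕ) (W : Finset ZI) (hW : ∀ u ∈ W, PP u ∨ u ∈ VV)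
    (𝒰 : Finset (Finset ZI)) (hU : ∀ U ∈ 𝒰, U ⊆ W)
    (hUV : ∀ U ∈ 𝒰, ∀ U' ∈ 𝒰, ¬ VV ⊆ U ∪ U') : ∀ ε : ℝ, 0 < ε → ∃ X₀ : ℕ, ∀ X : ℕ, X₀ ≤ X →
      ∀ F : Finset (Finset ZI), (∀ S ∈ F, S ∈ SS R X ∧ S.card ≤ kk X ∧
        ((∀ u ∈ W, nrm u ≤ zz X) ∧ ¬ NdQ r W 𝒰 (sm (zz X) S) (la (zz X) S))) →
      (F.card : ℝ) ≤ ε * X := by
  set E : Finset (Finset ZI × Finset ZI) := (𝒰 ×ˢ 𝒰).filter fun p => p.1 ≠ p.2 with hE
  set b : ℝ := 5200 * lg (pN W) * 2 ^ W.card + 126 * 2 ^ (2 * W.card + r) +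
    ∑ p ∈ E, cQ (symmDiff p.1 p.2) * 2 ^ (2 * W.card + r) with hb
  have hlgW := lg_pos (pN W)
  have hb0 : 0 ≤ b := by
    have : 0 ≤ ∑ p ∈ E, cQ (symmDiff p.1 p.2) * 2 ^ (2 * W.card + r) :=
      sum_nonneg fun p _ => mul_nonneg (cQ_nonneg _) (by positivity)
    positivity
  have key : ∀ (X : ℕ) (S₀ : Finset ZI), (∀ u ∈ S₀, PP u ∧ nrm u ≤ zz X) → S₀.card ≤ kk X →
      ∀ F : Finset (Finset ZI),
      (∀ S ∈ F, S ∈ SS R X ∧ (S.card ≤ kk X ∧ ((∀ u ∈ W, nrm u ≤ zz X) ∧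
        ¬ NdQ r W 𝒰 (sm (zz X) S) (la (zz X) S))) ∧ sm (zz X) S = S₀) → (F.card : ℝ) ≤
        b * 4 ^ S₀.card * lg (pN S₀) * (((X / pN S₀ : ℕ) : ℝ) *
          (lg (X / pN S₀)) ^ (-(1 / 4) : ℝ)) := by
    intro X S₀ hS₀ _ F hF
    change (F.card : ℝ) ≤ b * 4 ^ S₀.card * lg (pN S₀) * tl (X / pN S₀)
    have hTl := tl_nonneg (X / pN S₀)
    have hlg := lg_pos (pN S₀)
    rcases F.eq_empty_or_nonempty with hFe | ⟨S', hS'⟩
    · rw [hFe, card_empty]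
      push_cast
      positivity
    have hWz : ∀ u ∈ W, (PP u ∨ u ∈ VV) ∧ nrm u ≤ zz X := fun u hu =>
      ⟨hW u hu, (hF S' hS').2.1.2.1 u hu⟩
    set F1 := F.filter fun S => ¬ NdU 𝒰 S₀ (la (zz X) S) with hF1
    set F2 := F.filter fun S => (la (zz X) S).card < 2 * (S₀ ∪ W).card + r with hF2
    set F3 : Finset ZI × Finset ZI → Finset (Finset ZI) := fun p => F.filter fun S =>
      ((la (zz X) S).filter fun q => ∑ u ∈ symmDiff p.1 p.2, qx u q ≠ 0).card <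
        2 * (S₀ ∪ W).card + r with hF3
    have hsub : F ⊆ (F1 ∪ F2) ∪ E.biUnion F3 := by
      intro S hS
      have h := hF S hS
      have hnd := h.2.1.2.2
      rw [h.2.2] at hnd
      by_contra hc
      apply hnd
      rw [mem_union, mem_union, mem_biUnion] at hc
      push Not at hc
      obtain ⟨⟨c1, c2⟩, c3⟩ := hc
      rw [hF1, mem_filter] at c1
      rw [hF2, mem_filter] at c2
      refine ⟨?_, ?_, ?_⟩
      · by_contra hh
        exact c1 ⟨hS, hh⟩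
      · by_contra hh
        exact c2 ⟨hS, not_le.1 hh⟩
      · intro U hU' V hV hUV
        by_contra hh
        refine c3 (U, V) ?_ ?_
        · rw [hE, mem_filter, mem_product]
          exact ⟨⟨hU', hV⟩, hUV⟩
        · rw [hF3, mem_filter]
          exact ⟨hS, not_le.1 hh⟩
    have h0 : (F.card : ℝ) ≤ (F1.card + F2.card) + ∑ p ∈ E, ((F3 p).card : ℝ) := by
      have g := card_le_card hsub
      have g2 := (g.trans (card_union_le _ _)).trans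
        (Nat.add_le_add (card_union_le _ _) card_biUnion_le)
      exact_mod_cast g2
    have h1 : (F1.card : ℝ) ≤ (5200 * lg (pN W) * 2 ^ W.card) * 4 ^ S₀.card * lg (pN S₀) *
        tl (X / pN S₀) := by
      refine deg_allQ (R := R) hS₀ hWz hU (fun U hU1 h => hUV U hU1 U hU1 (by
        rw [union_self]; exact h)) F1 fun S hS => ?_
      rw [hF1, mem_filter] at hS
      exact ⟨⟨(hF S hS.1).1, (hF S hS.1).2.2⟩, hS.2⟩
    have h2 : (F2.card : ℝ) ≤ (126 * 2 ^ (2 * W.card + r)) * 4 ^ S₀.card * lg (pN S₀) *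
        tl (X / pN S₀) := by
      refine few_count' (R := R) r hS₀ F2 fun S hS => ?_
      rw [hF2, mem_filter] at hS
      exact ⟨⟨(hF S hS.1).1, (hF S hS.1).2.2⟩, hS.2⟩
    have h3 : ∀ p ∈ E, ((F3 p).card : ℝ) ≤ (cQ (symmDiff p.1 p.2) * 2 ^ (2 * W.card + r)) *
        4 ^ S₀.card * lg (pN S₀) * tl (X / pN S₀) := by
      intro p hp
      rw [hE, mem_filter, mem_product] at hp
      refine sep_countQ (R := R) r hS₀ hWz (symmDiff p.1 p.2) ?_ ?_ ?_ (F3 p) fun S hS => ?_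
      · intro u hu
        rcases Finset.mem_symmDiff.1 hu with h | h
        · exact hU _ hp.1.1 h.1
        · exact hU _ hp.1.2 h.1
      · rw [Finset.nonempty_iff_ne_empty]
        intro h
        exact hp.2 (symmDiff_eq_bot.1 h)
      · intro h
        refine hUV _ hp.1.1 _ hp.1.2 fun x hx => ?_
        rw [mem_union]
        rcases Finset.mem_symmDiff.1 (h hx) with h1 | h1
        · exact Or.inl h1.1
        · exact Or.inr h1.1
      · rw [hF3, mem_filter] at hS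
        exact ⟨⟨(hF S hS.1).1, (hF S hS.1).2.2⟩, hS.2⟩
    have h4 := sum_le_sum h3
    calc (F.card : ℝ) ≤ (F1.card + F2.card) + ∑ p ∈ E, ((F3 p).card : ℝ) := h0
      _ ≤ ((5200 * lg (pN W) * 2 ^ W.card) * 4 ^ S₀.card * lg (pN S₀) * tl (X / pN S₀) +
          (126 * 2 ^ (2 * W.card + r)) * 4 ^ S₀.card * lg (pN S₀) * tl (X / pN S₀)) +
          ∑ p ∈ E, (cQ (symmDiff p.1 p.2) * 2 ^ (2 * W.card + r)) *
            4 ^ S₀.card * lg (pN S₀) * tl (X / pN S₀) := add_le_add (add_le_add h1 h2) h4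
      _ = b * 4 ^ S₀.card * lg (pN S₀) * tl (X / pN S₀) := by
          rw [hb, ← sum_mul, ← sum_mul, ← sum_mul]
          ring
  exact gen4 R 4 b (by norm_num) hb0
    (fun X S => (∀ u ∈ W, nrm u ≤ zz X) ∧ ¬ NdQ r W 𝒰 (sm (zz X) S) (la (zz X) S)) key

end Pool.Agent.H691.QM
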