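import Pool.Agent.Run7.h691.QM.Box
import Pool.Agent.Run7.h691.QM.Few
import Pool.Agent.Run7.h691.GJ.Asy

/-!
# QM: the joint law for the sets of primes
-/

set_option autoImplicit false
set_option linter.unusedVariables false

open scoped Classical
open Finset Filter

namespace Pool.Agent.H691.QM

open H385 (ZI nrm)
open Pool.Agent.Y699 (PP QB mem_QB)
open Pool.Agent.Y703.CX (jj XX eL zz kk eL_tendsto logX_eq rpow_eL HH NN ev_eL one_le_exp
  HH_ge HH_le HH_pos kk_ge kk_le X_pos one_add_log lin_le zz_ge zz_pos)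
open Pool.Agent.Y703.CQ (Sml sml_of sml_add S_C2 c2)
open Pool.Agent.H691.GZ (qa sg prs HB sm la bl SS CntP)
open Pool.Agent.H691.GZ.AS (sml_many sml_cut sml_coll kap kap_nonneg kap_pow sml_main cmp sml_eps)
open Pool.Agent.H691.GJ (Par SG RG SG_sub out_sub ev_W)

/-- **the joint law** -/
theorem t_AQ (P : Par) (W : Finset ZI) (hW : ∀ u ∈ W, PP u ∨ u ∈ VV) (𝒰 : Finset (Finset ZI))
    (hU : ∀ U ∈ 𝒰, U ⊆ W) (hUV : ∀ U ∈ 𝒰, ∀ U' ∈ 𝒰, ¬ VV ⊆ U ∪ U') (ε : ℝ) (hε : 0 < ε) :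
    ∀ᶠ X : ℕ in atTop, |(((SG P X).filter (GdW 𝒰)).card : ℝ) -
      c2 ^ 𝒰.card * ((SG P X).card : ℝ)| ≤ ε * X := by
  obtain ⟨hC2a, hC2b, hC2c, hC2d, hC2e⟩ := Pool.Agent.Y948.CQ.t_C2
  obtain ⟨D, hD⟩ := Pool.Agent.H691.GZ.CNT.t_CNT (range 16)
  have hD1 := hD.one
  obtain ⟨r, hr⟩ := t_BXQ 𝒰.card (ε / (2 * D)) (by positivity)
  have hbx := hr W 𝒰 rfl hW hU
  obtain ⟨C, hC1, hkey⟩ := Pool.Agent.H691.GJ.KEY.t_KEJ Pool.Agent.H691.GZ.t_BIL hbx (by positivity)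
  have s1 := sml_many hD
  have s2 := sml_cut hD
  have s3 := sml_coll hD
  have s4 : Sml 0 fun X => (((SS (range 16) X).filter fun S => S.card ≤ kk X ∧
      ((∀ u ∈ W, nrm u ≤ zz X) ∧ ¬ NdQ r W 𝒰 (sm (zz X) S) (la (zz X) S))).card : ℝ) := by
    refine sml_eps fun δ hδ => ?_
    obtain ⟨X₀, h0⟩ := t_FEWQ (range 16) r W hW 𝒰 hU hUV δ hδ
    refine ⟨X₀, fun X hX => h0 X hX _ fun S hS => ?_⟩
    rw [mem_filter] at hS
    exact hS
  have s6 := sml_main hC1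
  have s := sml_add (sml_add (sml_add (sml_add s1 s2) s3) s4) s6
  filter_upwards [s (ε / 2) (by linarith), ev_eL 1, ev_W W] with X hX hl hWX
  rw [neg_zero, zero_mul, Real.exp_zero, mul_one] at hX
  have hl0 : 0 < eL X := by linarith
  have hXp := X_pos hl0
  have hXp' : (0 : ℝ) < X := by exact_mod_cast hXp
  have hN : (HH X : ℝ) * Real.log X < NN X := by
    unfold NN
    push_cast
    exact Nat.lt_floor_add_one _
  have hmain := hkey P X (zz X) (HH X) (kk X) (NN X) (kap C X) hWX.1 hWX.2 hXp (HH_pos hl0)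
    (zz_pos hl) (kap_nonneg hC1 X) (kap_pow hC1 hl) hN
  set T := (RG P X (zz X) (HH X) (kk X)).filter fun S =>
    NdQ r W 𝒰 (sm (zz X) S) (la (zz X) S) with hT
  set Q := SG P X with hQ
  have hTG : (RG P X (zz X) (HH X) (kk X)).filter
      (fun S => NdQ r W 𝒰 (sm (zz X) S) (la (zz X) S) ∧ GdW 𝒰 S) = T.filter (GdW 𝒰) := by
    rw [hT, filter_filter]
  rw [hTG] at hmain
  have hTQ : T ⊆ Q := by
    intro S hS
    rw [hT, mem_filter] at hS
    unfold RG at hS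
    exact (mem_filter.1 hS.1).1
  have hRS : ((RG P X (zz X) (HH X) (kk X)).card : ℝ) ≤ D * X := by
    refine le_trans ?_ (hD.all X hXp)
    exact_mod_cast card_le_card ((filter_subset _ _).trans SG_sub)
  have hc0 : 0 ≤ c2 ^ 𝒰.card := pow_nonneg hC2b.le _
  have hc1 : c2 ^ 𝒰.card ≤ 1 := pow_le_one₀ hC2b.le hC2c.le
  have hcmp := cmp (GdW 𝒰) T Q hTQ (c2 ^ 𝒰.card) hc0 hc1
  have hout : ((Q \ T).card : ℝ) ≤
      ((((SS (range 16) X).filter fun S => kk X < S.card).card : ℝ) +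
      (((SS (range 16) X).filter fun S => S.card ≤ kk X ∧
        X < (∏ π ∈ sm (zz X) S, nrm π) * ∏ π ∈ la (zz X) S, XX (HH X) (bl (HH X) π)).card : ℝ) +
      (((SS (range 16) X).filter fun S =>
        ¬ Set.InjOn (bl (HH X)) (la (zz X) S : Set ZI)).card : ℝ)) +
      (((SS (range 16) X).filter fun S => S.card ≤ kk X ∧
        ((∀ u ∈ W, nrm u ≤ zz X) ∧ ¬ NdQ r W 𝒰 (sm (zz X) S) (la (zz X) S))).card : ℝ) := by
    have e : ((SS (range 16) X).filter fun S => S.card ≤ kk X ∧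
        ¬ NdQ r W 𝒰 (sm (zz X) S) (la (zz X) S)) ⊆ (SS (range 16) X).filter fun S =>
        S.card ≤ kk X ∧ ((∀ u ∈ W, nrm u ≤ zz X) ∧
          ¬ NdQ r W 𝒰 (sm (zz X) S) (la (zz X) S)) := by
      intro S hS
      rw [mem_filter] at hS ⊢
      exact ⟨hS.1, hS.2.1, hWX.1, hS.2.2⟩
    have g := card_le_card (out_sub P (NdQ r W 𝒰) X (zz X) (HH X) (kk X))
    rw [← hT, ← hQ] at g
    have g2 := (g.trans (card_union_le _ _)).trans (Nat.add_le_add ((card_union_le _ _).trans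
      (Nat.add_le_add_right (card_union_le _ _) _)) (card_le_card e))
    exact_mod_cast g2
  have g1 : ε / (2 * D) * ((RG P X (zz X) (HH X) (kk X)).card : ℝ) ≤ ε / 2 * X := by
    have hD0 : 0 < D := by linarith
    calc ε / (2 * D) * ((RG P X (zz X) (HH X) (kk X)).card : ℝ) ≤ ε / (2 * D) * (D * X) :=
          mul_le_mul_of_nonneg_left hRS (by positivity)
      _ = ε / 2 * X := by field_simp
  linarith

end Pool.Agent.H691.QM
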