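import Pool.Agent.Run7.h691.GJ.La

/-!
# QM-LA: the joint law, with labels which are not degenerate on each mask
-/

set_option autoImplicit false

open scoped Classical

namespace Pool.Agent.H691.QM

section cj
open Finset Module Function
open Pool.Agent.Y703.CQ (prs GdA c2)
open Pool.Agent.Y219.CQ (F bf bf_apply bf_symm bf_add bf_single Gs mf mf_apply mA mC mZ mL pa pa_surj
  gd_iff zx zx_of zx_not sum_zx mZ_symm mL_symm bf_l bf_r all_zero)
open Pool.Agent.Y697.PQ (JJ mem_JJ thmJ gi)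
open Pool.Agent.Y697.PP (YY mem_YY)
open Pool.Agent.Y697.CJ (GdM Am Bm Cm fm BM BM_symm gdM_nd dd yy_card finrank_JJ_le)

variable {U J : Type} [Fintype U] [Fintype J] [LinearOrder J]

theorem nd_BM' {U1 : Finset U} {J1 : Finset J} (m : Finset U)
    {A : U → U → F} {B : U → J → F} {C : J → U → F} {f : U → F} {g : J → F}
    (hC : ∀ w : U → ZMod 2, (∀ u, u ∉ U1 → w u = 0) → (∀ u, u ∉ m → w u = 0) →
      (∃ u, w u ≠ 0) → ∃ k ∈ J1, ∑ u, w u * C k u ≠ 0) :
    Pool.Agent.Y697.PP.Nd (BM U1 J1 m A B C f g)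
      (LinearMap.ker (LinearMap.snd (ZMod 2) (U1 → F) (J1 → F))) := by
  rintro ⟨x, y⟩ hw h0
  have hy : y = 0 := hw
  subst hy
  have h1 : ∀ w' : (U1 → F) × (J1 → F), bf (mA U1 (Am m A) (Bm m B) (fm m f)) x w'.1 +
      bf (mC U1 J1 (Cm m C)) x w'.2 = 0 := by
    intro w'
    have h2 := LinearMap.congr_fun h0 w'
    unfold BM at h2
    rw [mf_apply] at h2
    simpa using h2
  have h3 : ∀ k : J1, ∑ u : U1, x u * Cm m C k u = 0 := by
    refine all_zero _ fun y => ?_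
    have h4 := h1 (0, y)
    rw [map_zero, zero_add, bf_l] at h4
    exact h4
  have h5 : ∀ v : U1, ∑ u : U1, x u * mA U1 (Am m A) (Bm m B) (fm m f) u v = 0 := by
    refine all_zero _ fun y => ?_
    have h4 := h1 (y, 0)
    rw [map_zero, add_zero, bf_l] at h4
    exact h4
  have h6 : ∀ u : U1, (u : U) ∈ m → x u = 0 := by
    by_contra hne
    push Not at hne
    obtain ⟨u0, hu0, hx0⟩ := hne
    obtain ⟨k, hk, hk'⟩ := hC (fun u => if u ∈ m then zx U1 x u else 0)
      (fun u hu => by rw [zx_not U1 x hu, ite_self]) (fun u hu => if_neg hu)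
      ⟨u0, by
        rw [if_pos hu0, zx_of]
        exact hx0⟩
    apply hk'
    have h7 : ∑ u : U1, x u * Cm m C k u = ∑ u : U, (Cm m C k u) * zx U1 x u := by
      rw [sum_zx]
      exact sum_congr rfl fun u _ => mul_comm _ _
    refine Eq.trans ?_ (h3 ⟨k, hk⟩)
    rw [h7]
    refine sum_congr rfl fun u _ => ?_
    unfold Cm
    by_cases hu : u ∈ m
    · rw [if_pos hu, if_pos hu, mul_comm]
    · rw [if_neg hu, if_neg hu, zero_mul, zero_mul]
  have h7 : ∀ u : U1, (u : U) ∉ m → x u = 0 := by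
    intro v hv
    have h8 := h5 v
    rw [sum_eq_single v] at h8
    · unfold Pool.Agent.Y219.CQ.mA Am Bm fm at h8
      simp only [hv, false_and, and_false, if_false, sum_const_zero, if_true, zero_add, mul_one] at h8
      exact h8
    · intro u _ hu
      unfold Pool.Agent.Y219.CQ.mA Am
      rw [if_neg hu, if_neg (fun h => hv h.2), add_zero, mul_zero]
    · intro h
      exact absurd (mem_univ _) h
  refine Prod.ext (funext fun u => ?_) rfl
  by_cases hu : (u : U) ∈ m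
  · exact h6 u hu
  · exact h7 u hu

theorem laj_g' (M : ℕ) : ∀ ε : ℝ, 0 < ε → ∃ R : ℕ, ∀ (U J : Type) [Fintype U] [Fintype J]
    [LinearOrder J] (U1 : Finset U) (J1 : Finset J), (∃ l, l ∉ J1) →
    ∀ (A : U → U → ZMod 2) (B : U → J → ZMod 2) (C : J → U → ZMod 2) (f : U → ZMod 2)
    (g : J → ZMod 2),
    (∀ u ∈ U1, ∀ v ∈ U1, A u v = A v u) → (∀ u ∈ U1, ∀ k ∈ J1, B u k = C k u) →
    ∀ (m : Fin M → Finset U),
    (∀ i, ∀ w : U → ZMod 2, (∀ u, u ∉ U1 → w u = 0) → (∀ u, u ∉ m i → w u = 0) →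
      (∃ u, w u ≠ 0) → ∃ k ∈ J1, ∑ u, w u * C k u ≠ 0) →
    ∀ (A₀ : ℕ), 2 * U1.card + R ≤ A₀ → A₀ ≤ J1.card →
    (∀ k l, k ≠ l → A₀ ≤ (J1.filter fun j => dd (m k) (m l) C j ≠ 0).card) →
    |((univ.filter fun α : prs J1 → ZMod 2 => ∀ k,
      GdM U1 J1 (m k) A B C (Pool.Agent.Y703.CQ.ext α) f g).card : ℝ) / 2 ^ (prs J1).card -
        gi ^ M| ≤ ε := by
  intro ε hε
  obtain ⟨R, hR⟩ := thmJ M ε hε
  refine ⟨R, ?_⟩
  intro U J _ _ _ U1 J1 hJ A B C f g hA hB m hC A₀ hA₀ hJ1 hm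
  have e1 : finrank F (U1 → F) = U1.card := by
    rw [finrank_fintype_fun_eq_card, Fintype.card_coe]
  have e2 : finrank F (J1 → F) = J1.card := by
    rw [finrank_fintype_fun_eq_card, Fintype.card_coe]
  have e3 : finrank (ZMod 2) ((U1 → F) × (J1 → F)) = U1.card + J1.card := by
    rw [Module.finrank_prod, e1, e2]
  have e4 : finrank (ZMod 2) (LinearMap.ker (LinearMap.snd (ZMod 2) (U1 → F) (J1 → F))) =
      U1.card := by
    have h1 := LinearMap.finrank_range_add_finrank_ker (LinearMap.snd (ZMod 2) (U1 → F) (J1 → F))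
    rw [LinearMap.range_eq_top.2 (LinearMap.snd_surjective), finrank_top, e2, e3] at h1
    omega
  have key := hR ((U1 → F) × (J1 → F)) (LinearMap.ker (LinearMap.snd (ZMod 2) (U1 → F) (J1 → F)))
    (fun k => BM U1 J1 (m k) A B C f g) (2 * U1.card + (J1.card - A₀)) J1.card
    (fun k => BM_symm U1 J1 (m k) A B C f g hA) (fun k => nd_BM' (m k) (hC k))
    (fun k l hkl => (finrank_JJ_le (m k) (m l)).trans (by
      have := hm k l hkl
      omega)) (by rw [e4]; omega) (by rw [e3, e4]) (by omega)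
  have hpos : 0 < ((YY (LinearMap.ker (LinearMap.snd (ZMod 2) (U1 → F) (J1 → F)))).card : ℝ) := by
    rw [Nat.cast_pos, Finset.card_pos]
    refine ⟨0, mem_YY.2 ⟨fun _ _ => rfl, fun _ _ => rfl⟩⟩
  obtain ⟨P, hP⟩ : ∃ P : LinearMap.BilinForm (ZMod 2) ((U1 → F) × (J1 → F)) → Prop,
      ∀ Y, P Y ↔ ∀ k, Pool.Agent.Y697.PP.Nd (BM U1 J1 (m k) A B C f g + Y) ⊤ :=
    ⟨_, fun _ => Iff.rfl⟩
  have h1 : |(((YY (LinearMap.ker (LinearMap.snd (ZMod 2) (U1 → F) (J1 → F)))).filter P).card : ℝ) /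
      ((YY (LinearMap.ker (LinearMap.snd (ZMod 2) (U1 → F) (J1 → F)))).card : ℝ) - gi ^ M| ≤ ε := by
    rw [div_sub' hpos.ne', abs_div, abs_of_pos hpos, div_le_iff₀ hpos, mul_comm _ (gi ^ M)]
    refine le_trans (le_of_eq ?_) key
    congr 4
    ext Y
    simp only [Finset.mem_filter, hP]
  rw [yy_card] at h1
  refine le_trans (le_of_eq ?_) h1
  congr 2
  rw [← Pool.Agent.Y759.CX.fr_comp (pa J1) (pa_surj J1 hJ)]
  unfold Pool.Agent.Y759.CX.fr
  have h6 : Nat.card (prs J1 → F) = 2 ^ (prs J1).card := by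
    rw [Nat.card_fun, Nat.card_eq_fintype_card, Nat.card_eq_fintype_card, ZMod.card,
      Fintype.card_coe]
  rw [h6, Nat.card_eq_fintype_card, Fintype.card_subtype]
  push_cast
  congr 3
  ext α
  simp only [Finset.mem_filter, hP, gdM_nd U1 J1 _ A B C f g hA hB α]

end cj

section jq
open Finset
open Pool.Agent.Y703.CQ (prs GdA c2)

/-- the law with masks -/
theorem t_JLA' (M : ℕ) (ε : ℝ) (hε : 0 < ε) : ∃ R : ℕ, ∀ (U J : Type) [Fintype U] [Fintype J]
  [LinearOrder J] (U1 : Finset U) (J1 : Finset J), (∃ l, l ∉ J1) → ∀ (m : Fin M → Finset U)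
  (A : U → U → ZMod 2) (B : U → J → ZMod 2) (C : J → U → ZMod 2) (f : U → ZMod 2)
  (g : J → ZMod 2),
  (∀ u ∈ U1, ∀ v ∈ U1, A u v = A v u) → (∀ u ∈ U1, ∀ k ∈ J1, B u k = C k u) →
  (∀ i, ∀ w : U → ZMod 2, (∀ u, u ∉ U1 → w u = 0) → (∀ u, u ∉ m i → w u = 0) → (∃ u, w u ≠ 0) →
    ∃ k ∈ J1, ∑ u, w u * C k u ≠ 0) →
  2 * U1.card + R ≤ J1.card →
  (∀ i j, i ≠ j → 2 * U1.card + R ≤
    (J1.filter fun k => ∑ u ∈ m i, C k u + ∑ u ∈ m j, C k u ≠ 0).card) →
  |((univ.filter fun α : prs J1 → ZMod 2 => ∀ i,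
      Pool.Agent.Y687.JQ.GdM (m i) U1 J1 A B C (Pool.Agent.Y703.CQ.ext α) f g).card : ℝ) /
      2 ^ (prs J1).card - c2 ^ M| ≤ ε := by
  obtain ⟨R, hR⟩ := laj_g' M ε hε
  refine ⟨R, ?_⟩
  intro U J _ _ _ U1 J1 hJ m A B C f g hA hB hC h1 h2
  have h3 := hR U J U1 J1 hJ A B C f g hA hB m hC (2 * U1.card + R) le_rfl h1
    (fun k l hkl => h2 k l hkl)
  rw [Pool.Agent.Y697.CJ.gi_eq] at h3
  have h4 : (univ.filter fun α : prs J1 → ZMod 2 => ∀ i,
      Pool.Agent.Y687.JQ.GdM (m i) U1 J1 A B C (Pool.Agent.Y703.CQ.ext α) f g) =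
      univ.filter fun α : prs J1 → ZMod 2 => ∀ i,
      Pool.Agent.Y697.CJ.GdM U1 J1 (m i) A B C (Pool.Agent.Y703.CQ.ext α) f g := by
    ext α
    simp only [mem_filter, Pool.Agent.Y697.JQ.gdM_eq]
  rw [h4]
  exact h3

end jq

open Finset
open Pool.Agent.H691.GZ (prs)
open Pool.Agent.H691.GJ (GdX gdX_iff rst rst_bij)
open Pool.Agent.Y703.CQ (c2)

/-- a column which is not alone -/
theorem exists_ks' {ι κ : Type} [Fintype ι] [Fintype κ] (hJ : Fintype.card ι < Fintype.card κ)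
    (B : ι → κ → ZMod 2) : ∃ ks, ∀ w : ι → ZMod 2, (∀ k, k ≠ ks → ∑ u, w u * B u k = 0) →
      ∑ u, w u * B u ks = 0 := by
  by_contra hcon
  push Not at hcon
  choose w hw2 hs using hcon
  have hsurj : Function.Surjective (fun (x : ι → ZMod 2) (k : κ) => ∑ u, x u * B u k) := by
    intro g
    refine ⟨fun u => ∑ k, g k / (∑ v, w k v * B v k) * w k u, ?_⟩
    funext l
    show ∑ u, (∑ k, g k / (∑ v, w k v * B v k) * w k u) * B u l = g l
    simp only [sum_mul]
    rw [sum_comm]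
    have h1 : ∀ k, ∑ u, g k / (∑ v, w k v * B v k) * w k u * B u l =
        g k / (∑ v, w k v * B v k) * ∑ u, w k u * B u l := by
      intro k
      rw [mul_sum]
      exact sum_congr rfl fun u _ => by ring
    simp only [h1]
    rw [sum_eq_single l]
    · rw [div_mul_cancel₀ _ (hs l)]
    · intro k _ hk
      rw [hw2 k l (Ne.symm hk), mul_zero]
    · intro h
      exact absurd (mem_univ _) h
  have h2 := Fintype.card_le_of_surjective _ hsurj
  rw [Fintype.card_fun, Fintype.card_fun, ZMod.card] at h2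
  exact absurd ((Nat.pow_le_pow_iff_right (by norm_num)).1 h2) (not_le.2 hJ)

/-- **the joint law** -/
theorem t_LAJ' (M : ℕ) (ε : ℝ) (hε : 0 < ε) : ∃ R : ℕ, ∀ (U J : Type) [Fintype U] [Fintype J]
    [LinearOrder J] (m : Fin M → Finset U) (A : U → U → ZMod 2) (B : U → J → ZMod 2),
    (∀ u v, A u v = A v u) →
    (∀ i, ∀ w : U → ZMod 2, (∀ u, u ∉ m i → w u = 0) → (∃ u, w u ≠ 0) →
      ∃ k, ∑ u, w u * B u k ≠ 0) →
    2 * Fintype.card U + R ≤ Fintype.card J →
    (∀ i j, i ≠ j → 2 * Fintype.card U + R ≤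
      (univ.filter fun k => ∑ u ∈ m i, B u k + ∑ u ∈ m j, B u k ≠ 0).card) →
    |((univ.filter fun α : prs J → ZMod 2 =>
        ∀ i, GdX (m i) A B (Pool.Agent.H691.GZ.ext α)).card : ℝ) /
      2 ^ (prs J).card - c2 ^ M| ≤ ε := by
  obtain ⟨R, hR⟩ := t_JLA' M ε hε
  refine ⟨R + 1, ?_⟩
  intro U J _ _ _ m A B hA hB hJ hm
  obtain ⟨ks, hks⟩ := exists_ks' (by omega) B
  have hcJ : (univ.erase ks).card = Fintype.card J - 1 := by
    rw [card_erase_of_mem (mem_univ _), card_univ]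
  have h1 := hR U J univ (univ.erase ks) ⟨ks, notMem_erase _ _⟩ m A B (fun k u => B u k)
    (fun _ => 0) (fun _ => 0) (fun u _ v _ => hA u v) (fun _ _ _ _ => rfl)
    (fun i w _ hwm hw => by
      by_contra hc
      push Not at hc
      have e1 : ∀ k, k ≠ ks → ∑ u, w u * B u k = 0 := fun k hk =>
        hc k (mem_erase.2 ⟨hk, mem_univ _⟩)
      obtain ⟨k, hk⟩ := hB i w hwm hw
      by_cases h : k = ks
      · rw [h] at hk
        exact hk (hks w e1)
      · exact hk (e1 k h))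
    (by rw [hcJ, card_univ]; omega)
    (fun i j hij => by
      have h2 := hm i j hij
      rw [card_univ]
      have h3 : (univ.filter fun k => ∑ u ∈ m i, B u k + ∑ u ∈ m j, B u k ≠ 0) ⊆
          insert ks ((univ.erase ks).filter fun k => ∑ u ∈ m i, B u k + ∑ u ∈ m j, B u k ≠ 0) := by
        intro k hk
        rw [mem_filter] at hk
        rw [mem_insert, mem_filter, mem_erase]
        by_cases h : k = ks
        · exact Or.inl h
        · exact Or.inr ⟨⟨h, mem_univ _⟩, hk.2⟩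
      have h4 := (card_le_card h3).trans (card_insert_le _ _)
      omega)
  have hbij := rst_bij ks
  have hcard : (prs J).card = (Pool.Agent.Y703.CQ.prs (univ.erase ks)).card := by
    have h2 := Fintype.card_of_bijective hbij
    rw [Fintype.card_fun, Fintype.card_fun, ZMod.card, Fintype.card_coe, Fintype.card_coe] at h2
    exact Nat.pow_right_injective (le_refl 2) h2
  have hflt : (univ.filter fun α : prs J → ZMod 2 =>
        ∀ i, GdX (m i) A B (Pool.Agent.H691.GZ.ext α)).card =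
      (univ.filter fun α : Pool.Agent.Y703.CQ.prs (univ.erase ks) → ZMod 2 => ∀ i,
        Pool.Agent.Y687.JQ.GdM (m i) univ (univ.erase ks) A B (fun k u => B u k)
        (Pool.Agent.Y703.CQ.ext α) (fun _ => 0) (fun _ => 0)).card := by
    refine card_bij (fun α _ => rst ks α) ?_ ?_ ?_
    · intro α hα
      rw [mem_filter] at hα ⊢
      exact ⟨mem_univ _, fun i => (gdX_iff ks (m i) A B hA α).1 (hα.2 i)⟩
    · intro α _ β _ h
      exact hbij.1 h
    · intro γ hγ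
      obtain ⟨α, rfl⟩ := hbij.2 γ
      rw [mem_filter] at hγ
      refine ⟨α, ?_, rfl⟩
      rw [mem_filter]
      exact ⟨mem_univ _, fun i => (gdX_iff ks (m i) A B hA α).2 (hγ.2 i)⟩
  rw [hflt, hcard]
  exact h1

end Pool.Agent.H691.QM
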