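import Pool.Agent.Run7.h691.QM.Stm
import Pool.Agent.Run7.h691.QM.La
import Pool.Agent.Run7.h691.GJ.Box

/-! QM-BOX: the joint count in a box, with the further vertices. -/

set_option autoImplicit false

open scoped Classical

namespace Pool.Agent.H691.QM

open Finset
open H385 (ZI nrm)
open Pool.Agent.Y699 (PP PP.ps)
open Pool.Agent.Y703.CQ (c2)
open Pool.Agent.H691.GZ (qa prs HB sm la bl)
open Pool.Agent.H691.GZ.BOX (qa_symm sum_un ext_sum HB_sub ez0 ez0_coe)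
open Pool.Agent.H691.GJ (GdX pt mem_pt sum_pt add_pt sd_sd sd_union sd_sub BXJ)

/-- the label of a prime -/
noncomputable def lb (S₀ : Finset ZI) (x : ZI) : S₀ → ZMod 2 := fun u => qx u x

section one
variable {ι : Type} [Fintype ι] [LinearOrder ι] {S₁ T : Finset ZI} {p : ι → ZI}

theorem gdX_iff' (hT : T ⊆ S₁) (hp : Function.Injective p) (hpr : ∀ i, PP (p i))
    (hS₁ : ∀ u ∈ S₁, PP u ∨ u ∈ VV) (hd : ∀ i, p i ∉ S₁) (k₀ : ι) :
    GdV (T ∪ univ.image p) ↔ GdX (pt S₁ T) (fun u v : S₁ => qx u v) (fun (u : S₁) l => qx u (p l))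
      (Pool.Agent.H691.GZ.ext fun e : prs ι => qa (p e.1.1) (p e.1.2)) := by
  have hdT : ∀ i, p i ∉ T := fun i hi => hd i (hT hi)
  have hs : ∀ h : ZI → ZMod 2, ∑ x ∈ T ∪ univ.image p, h x =
      ∑ u ∈ pt S₁ T, h u + ∑ l, h (p l) := by
    intro h
    rw [sum_un hp hdT, Finset.sum_coe_sort T (fun x => h x), sum_pt hT]
  have hsym : ∀ (c : ZI → ZMod 2) (k : ι), ∑ u ∈ pt S₁ T, qx (p k) u * (c u - c (p k)) =
      ∑ u ∈ pt S₁ T, qx u (p k) * (c u - c (p k)) := by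
    intro c k
    refine Finset.sum_congr rfl fun u _ => ?_
    rw [qx_symm (Or.inl (hpr k)) (hS₁ u u.2)]
  have hsol : ∀ c : ZI → ZMod 2, SolV (T ∪ univ.image p) c ↔
      (∀ u : S₁, (u : ZI) ∈ T → ∑ v ∈ pt S₁ T, qx u v * (c v - c u) +
        ∑ l, qx u (p l) * (c (p l) - c u) = 0) ∧
      (∀ k : ι, ∑ u ∈ pt S₁ T, qx u (p k) * (c u - c (p k)) +
        ∑ l, Pool.Agent.H691.GZ.ext (fun e : prs ι => qa (p e.1.1) (p e.1.2)) k l *
          (c (p l) - c (p k)) = 0) := by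
    intro c
    unfold SolV
    constructor
    · intro h
      refine ⟨fun u huT => ?_, fun k => ?_⟩
      · have := h u (Finset.mem_union_left _ huT)
        rw [hs] at this
        exact this
      · have := h (p k) (Finset.mem_union_right _ (Finset.mem_image_of_mem _ (Finset.mem_univ _)))
        rw [hs, hsym] at this
        rw [ext_sum hpr k (fun l => c (p l))]
        simp only [qx_pp (hpr k)] at this
        exact this
    · rintro ⟨h1, h2⟩ x hx
      rw [hs]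
      rw [Finset.mem_union, Finset.mem_image] at hx
      rcases hx with hx | ⟨k, -, rfl⟩
      · exact h1 ⟨x, hT hx⟩ hx
      · have := h2 k
        rw [ext_sum hpr k (fun l => c (p l))] at this
        rw [hsym]
        simp only [qx_pp (hpr k)]
        exact this
  unfold GdV GdX
  constructor
  · intro h c d h1 h2
    obtain ⟨c', hc'⟩ : ∃ c' : ZI → ZMod 2, ∀ n, c' n = if h : n ∈ S₁ then c ⟨n, h⟩ else
      if h : ∃ l, p l = n then d h.choose else 0 := ⟨_, fun n => rfl⟩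
    have e1 : ∀ u : S₁, c' u = c u := by
      intro u
      rw [hc', dif_pos u.2]
    have e2 : ∀ l, c' (p l) = d l := by
      intro l
      have hex : ∃ l', p l' = p l := ⟨l, rfl⟩
      rw [hc', dif_neg (hd l), dif_pos hex]
      exact congrArg d (hp hex.choose_spec)
    have hs : SolV (T ∪ univ.image p) c' := by
      rw [hsol]
      refine ⟨fun u hu => ?_, fun k => ?_⟩
      · simp only [e1, e2]
        exact h1 u ((mem_pt u).2 hu)
      · simp only [e1, e2]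
        exact h2 k
    have h3 := h c' hs
    have hk₀' : p k₀ ∈ T ∪ univ.image p :=
      Finset.mem_union_right _ (Finset.mem_image_of_mem _ (Finset.mem_univ _))
    refine ⟨d k₀, fun u hu => ?_, fun l => ?_⟩
    · rw [← e1, ← e2]
      exact h3 _ (Finset.mem_union_left _ ((mem_pt u).1 hu)) _ hk₀'
    · rw [← e2, ← e2 k₀]
      exact h3 _ (Finset.mem_union_right _ (Finset.mem_image_of_mem _ (Finset.mem_univ _))) _ hk₀'
  · intro h c hc
    rw [hsol] at hc
    obtain ⟨t, ht1, ht2⟩ := h (fun u => c u) (fun l => c (p l))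
      (fun u hu => hc.1 u ((mem_pt u).1 hu)) (fun k => hc.2 k)
    have h4 : ∀ x ∈ T ∪ univ.image p, c x = t := by
      intro x hx
      rw [Finset.mem_union, Finset.mem_image] at hx
      rcases hx with hx | ⟨k, -, rfl⟩
      · exact ht1 ⟨x, hT hx⟩ ((mem_pt _).2 hx)
      · exact ht2 k
    intro x hx y hy
    rw [h4 x hx, h4 y hy]

end one

theorem nd1_iff {ι : Type} [Fintype ι] {S₁ T : Finset ZI} (hT : T ⊆ S₁) {p : ι → ZI} :
    (∀ v : ZI → ZMod 2, (∃ u ∈ T, v u ≠ 0) → ∃ π ∈ univ.image p, ∑ u ∈ T, v u * qx u π ≠ 0) ↔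
    ∀ w : S₁ → ZMod 2, (∀ u, u ∉ pt S₁ T → w u = 0) → (∃ u, w u ≠ 0) →
      ∃ i, ∑ u, w u * lb S₁ (p i) u ≠ 0 := by
  constructor
  · intro h w hw0 hw
    obtain ⟨u, hu⟩ := hw
    have huT : u ∈ pt S₁ T := by
      by_contra hc
      exact hu (hw0 u hc)
    obtain ⟨x, hx, hx2⟩ := h (ez0 w) ⟨u, (mem_pt u).1 huT, by rw [ez0_coe]; exact hu⟩
    rw [Finset.mem_image] at hx
    obtain ⟨i, -, rfl⟩ := hx
    refine ⟨i, ?_⟩
    rw [sum_pt hT] at hx2
    intro h0
    apply hx2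
    rw [← h0]
    rw [← Finset.sum_subset (Finset.subset_univ (pt S₁ T)) (fun u _ hu => by
      rw [hw0 u hu, zero_mul])]
    refine Finset.sum_congr rfl fun u _ => ?_
    rw [ez0_coe]
    rfl
  · intro h w hw
    obtain ⟨u, hu0, hu⟩ := hw
    obtain ⟨i, hi⟩ := h (fun u => if u ∈ pt S₁ T then w u else 0) (fun u hu => if_neg hu)
      ⟨⟨u, hT hu0⟩, by rw [if_pos ((mem_pt _).2 hu0)]; exact hu⟩
    refine ⟨p i, Finset.mem_image_of_mem _ (Finset.mem_univ _), ?_⟩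
    rw [sum_pt hT]
    rw [← Finset.sum_subset (Finset.subset_univ (pt S₁ T)) (fun u _ hu => by
      rw [if_neg hu, zero_mul])] at hi
    rw [Finset.sum_congr rfl fun u hu => by rw [if_pos hu]] at hi
    exact hi

/-- the good labels -/
def LQ {ι : Type} [Fintype ι] (R : ℕ) (S₀ W : Finset ZI) (𝒰 : Finset (Finset ZI))
    (β : ι → (S₀ ∪ W : Finset ZI) → ZMod 2) : Prop :=
  (∀ U ∈ 𝒰, ∀ w : (S₀ ∪ W : Finset ZI) → ZMod 2,
    (∀ u, u ∉ pt (S₀ ∪ W) (symmDiff S₀ U) → w u = 0) → (∃ u, w u ≠ 0) →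
      ∃ i, ∑ u, w u * β i u ≠ 0) ∧
  2 * (S₀ ∪ W).card + R ≤ Fintype.card ι ∧ ∀ U ∈ 𝒰, ∀ U' ∈ 𝒰, U ≠ U' →
    2 * (S₀ ∪ W).card + R ≤
      (univ.filter fun i : ι => ∑ u ∈ pt (S₀ ∪ W) (symmDiff U U'), β i u ≠ 0).card

theorem ndQ_iff {ι : Type} [Fintype ι] [LinearOrder ι] {S₀ W : Finset ZI}
    {𝒰 : Finset (Finset ZI)} {p : ι → ZI} (R : ℕ) (hU : ∀ U ∈ 𝒰, U ⊆ W)
    (hp : Function.Injective p) :
    NdQ R W 𝒰 S₀ (univ.image p) ↔ LQ R S₀ W 𝒰 (fun i => lb (S₀ ∪ W) (p i)) := by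
  unfold NdQ LQ NdU
  have h1 : (univ.image p).card = Fintype.card ι := by
    rw [Finset.card_image_of_injective _ hp, card_univ]
  have h3 : ∀ U ∈ 𝒰, ∀ U' ∈ 𝒰,
      ((univ.image p).filter fun q => ∑ u ∈ symmDiff U U', qx u q ≠ 0).card =
      (univ.filter fun i => ∑ u ∈ pt (S₀ ∪ W) (symmDiff U U'),
        (lb (S₀ ∪ W) (p i)) u ≠ 0).card := by
    intro U hU1 U' hU2
    have hs : symmDiff U U' ⊆ S₀ ∪ W := by
      intro x hx
      rw [Finset.mem_symmDiff] at hx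
      rw [Finset.mem_union]
      rcases hx with hx | hx
      · exact Or.inr (hU U hU1 hx.1)
      · exact Or.inr (hU U' hU2 hx.1)
    have h4 : (univ.image p).filter (fun q => ∑ u ∈ symmDiff U U', qx u q ≠ 0) =
        (univ.filter fun i => ∑ u ∈ pt (S₀ ∪ W) (symmDiff U U'),
        (lb (S₀ ∪ W) (p i)) u ≠ 0).image p := by
      ext q
      simp only [Finset.mem_filter, Finset.mem_image, Finset.mem_univ, true_and]
      constructor
      · rintro ⟨⟨i, rfl⟩, h6⟩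
        refine ⟨i, ?_, rfl⟩
        rw [sum_pt hs] at h6
        exact h6
      · rintro ⟨i, h6, rfl⟩
        refine ⟨⟨i, rfl⟩, ?_⟩
        rw [sum_pt hs]
        exact h6
    rw [h4, Finset.card_image_of_injective _ hp]
  rw [h1]
  refine and_congr ?_ (and_congr_right fun _ => ?_)
  · exact forall₂_congr fun U hU1 => nd1_iff (sd_sub (hU U hU1))
  · constructor
    · intro h U hU1 U' hU2 hne
      rw [← h3 U hU1 U' hU2]
      exact h U hU1 U' hU2 hne
    · intro h U hU1 U' hU2 hne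
      rw [h3 U hU1 U' hU2]
      exact h U hU1 U' hU2 hne

/-- **The joint count in a box.** -/
theorem t_BXQ (M : ℕ) (ε : ℝ) (hε : 0 < ε) : ∃ R : ℕ, ∀ (W : Finset ZI)
    (𝒰 : Finset (Finset ZI)), 𝒰.card = M → (∀ u ∈ W, PP u ∨ u ∈ VV) → (∀ U ∈ 𝒰, U ⊆ W) →
    BXJ (GdW 𝒰) (NdQ R W 𝒰) W (c2 ^ M) ε := by
  obtain ⟨R₀, hLA⟩ := t_LAJ' M ε hε
  refine ⟨R₀ + 1, ?_⟩
  intro W 𝒰 hM hWP hUW ι _ _ C X κ S₀ hκ hCX hHB hS₀ hC hdis
  obtain ⟨S₁, hS₁d⟩ : ∃ S₁, S₁ = S₀ ∪ W := ⟨_, rfl⟩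
  have hS₁ : ∀ u ∈ S₀ ∪ W, PP u ∨ u ∈ VV := by
    intro u hu
    rw [mem_union] at hu
    rcases hu with hu | hu
    · exact Or.inl (hS₀ u hu)
    · exact hWP u hu
  obtain ⟨R, hR⟩ : ∃ R : ℝ, R = 2 ^ (prs ι).card * (κ * ∏ j, (X j : ℝ)) := ⟨_, rfl⟩
  have hR0 : 0 ≤ R := by
    rw [hR]
    exact mul_nonneg (by positivity)
      (mul_nonneg hκ (Finset.prod_nonneg fun j _ => by positivity))
  -- the masks
  obtain ⟨e⟩ : Nonempty (𝒰 ≃ Fin M) := ⟨Finset.equivFinOfCardEq hM⟩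
  obtain ⟨Vm, hVm⟩ : ∃ Vm : Fin M → Finset ZI, ∀ i, Vm i = ((e.symm i : 𝒰) : Finset ZI) :=
    ⟨_, fun _ => rfl⟩
  have hVU : ∀ i, Vm i ∈ 𝒰 := fun i => by rw [hVm]; exact (e.symm i).2
  have hVW : ∀ i, Vm i ⊆ W := fun i => hUW _ (hVU i)
  have hVi : ∀ i j, i ≠ j → Vm i ≠ Vm j := by
    intro i j hij h
    rw [hVm, hVm] at h
    exact hij (e.symm.injective (Subtype.ext h))
  have hVs : ∀ U ∈ 𝒰, ∃ i, Vm i = U := by
    intro U hU
    refine ⟨e ⟨U, hU⟩, ?_⟩
    rw [hVm, Equiv.symm_apply_apply]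
  -- facts on tuples
  have hinj : ∀ p ∈ Fintype.piFinset C, Function.Injective p := by
    intro p hp i j hij
    rw [Fintype.mem_piFinset] at hp
    by_contra hne
    have h1 := Finset.disjoint_left.1 (hdis i j hne) (hp i)
    rw [hij] at h1
    exact h1 (hp j)
  have hd : ∀ p ∈ Fintype.piFinset C, ∀ i, p i ∉ S₀ ∪ W := by
    intro p hp i
    rw [Fintype.mem_piFinset] at hp
    exact (hC i _ (hp i)).2
  have hpr : ∀ p ∈ Fintype.piFinset C, ∀ i, PP (p i) := by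
    intro p hp i
    rw [Fintype.mem_piFinset] at hp
    exact (hC i _ (hp i)).1
  -- the part with given labels
  have h1 : ∀ β : ι → (S₀ ∪ W : Finset ZI) → ZMod 2, LQ (R₀ + 1) S₀ W 𝒰 β →
      |(((Fintype.piFinset C).filter fun p => (fun i => lb (S₀ ∪ W) (p i)) = β ∧
          GdW 𝒰 (S₀ ∪ univ.image p)).card : ℝ) -
        c2 ^ M * (((Fintype.piFinset C).filter fun p =>
          (fun i => lb (S₀ ∪ W) (p i)) = β).card : ℝ)| ≤
      ε * (((Fintype.piFinset C).filter fun p => (fun i => lb (S₀ ∪ W) (p i)) = β).card : ℝ) +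
        R := by
    intro β hβ
    have hιne : Nonempty ι := Fintype.card_pos_iff.1 (by have := hβ.2.1; omega)
    obtain ⟨k₀⟩ := hιne
    have hgd : ∀ p ∈ Fintype.piFinset C, (GdW 𝒰 (S₀ ∪ univ.image p) ↔
        ∀ i, GdX (pt (S₀ ∪ W) (symmDiff S₀ (Vm i)))
        (fun u v : (S₀ ∪ W : Finset ZI) => qx u v)
        (fun (u : (S₀ ∪ W : Finset ZI)) l => qx u (p l))
        (Pool.Agent.H691.GZ.ext fun e : prs ι => qa (p e.1.1) (p e.1.2))) := by
      intro p hp
      have hP : ∀ x ∈ univ.image p, x ∉ S₀ ∪ W := by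
        intro x hx
        rw [Finset.mem_image] at hx
        obtain ⟨i, -, rfl⟩ := hx
        exact hd p hp i
      have h1 : ∀ i, (GdV (symmDiff (S₀ ∪ univ.image p) (Vm i)) ↔
          GdX (pt (S₀ ∪ W) (symmDiff S₀ (Vm i)))
          (fun u v : (S₀ ∪ W : Finset ZI) => qx u v)
          (fun (u : (S₀ ∪ W : Finset ZI)) l => qx u (p l))
          (Pool.Agent.H691.GZ.ext fun e : prs ι => qa (p e.1.1) (p e.1.2))) := by
        intro i
        rw [sd_union (hVW i) hP]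
        exact gdX_iff' (sd_sub (hVW i)) (hinj p hp) (hpr p hp) hS₁ (hd p hp) k₀
      unfold GdW
      constructor
      · intro h i
        exact (h1 i).1 (h _ (hVU i))
      · intro h U hU
        obtain ⟨i, rfl⟩ := hVs U hU
        exact (h1 i).2 (h i)
    obtain ⟨C', hC'⟩ : ∃ C' : ι → Finset ZI, C' = fun i =>
      (C i).filter fun q => lb (S₀ ∪ W) q = β i := ⟨_, rfl⟩
    have hpi : (Fintype.piFinset C).filter (fun p => (fun i => lb (S₀ ∪ W) (p i)) = β) =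
        Fintype.piFinset C' := by
      ext p
      simp only [Finset.mem_filter, Fintype.mem_piFinset, hC']
      constructor
      · rintro ⟨h2, h3⟩ i
        exact ⟨h2 i, congrFun h3 i⟩
      · intro h2
        exact ⟨fun i => (h2 i).1, funext fun i => (h2 i).2⟩
    have h2 := hLA (S₀ ∪ W : Finset ZI) ι (fun i => pt (S₀ ∪ W) (symmDiff S₀ (Vm i)))
      (fun u v => qx u v) (fun u l => β l u)
      (fun u v => qx_symm (hS₁ u u.2) (hS₁ v v.2))
      (fun i w hw0 hw => hβ.1 (Vm i) (hVU i) w hw0 hw)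
      (by
        have h3 := hβ.2.1
        rw [Fintype.card_coe]
        omega)
      (by
        intro i j hij
        have h3 := hβ.2.2 (Vm i) (hVU i) (Vm j) (hVU j) (hVi i j hij)
        have h4 : (univ.filter fun k => ∑ u ∈ pt (S₀ ∪ W) (symmDiff S₀ (Vm i)), β k u +
            ∑ u ∈ pt (S₀ ∪ W) (symmDiff S₀ (Vm j)), β k u ≠ 0) =
            (univ.filter fun k => ∑ u ∈ pt (S₀ ∪ W) (symmDiff (Vm i) (Vm j)), β k u ≠ 0) := by
          refine Finset.filter_congr fun k _ => ?_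
          rw [add_pt, sd_sd]
        rw [h4, Fintype.card_coe]
        omega)
    obtain ⟨Q, hQ⟩ : ∃ Q : (prs ι → ZMod 2) → Prop, ∀ α, Q α ↔ ∀ i,
      GdX (pt (S₀ ∪ W) (symmDiff S₀ (Vm i))) (fun u v : (S₀ ∪ W : Finset ZI) => qx u v)
      (fun (u : (S₀ ∪ W : Finset ZI)) l => β l u)
      (Pool.Agent.H691.GZ.ext α) := ⟨_, fun _ => Iff.rfl⟩
    have h3 := Pool.Agent.H691.GZ.EQ.t_EQ ι C' X κ hκ
      (fun i => (Finset.card_le_card (by rw [hC']; exact Finset.filter_subset _ _)).trans (hCX i))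
      (by rw [hC']; exact HB_sub hHB fun i q => lb (S₀ ∪ W) q = β i) Q
    have h4 : ((Fintype.piFinset C).filter fun p => (fun i => lb (S₀ ∪ W) (p i)) = β ∧
        GdW 𝒰 (S₀ ∪ univ.image p)) = ((Fintype.piFinset C').filter fun p =>
          Q fun e => qa (p e.1.1) (p e.1.2)) := by
      rw [← hpi, Finset.filter_filter]
      refine Finset.filter_congr fun p hp => ?_
      refine and_congr_right fun hl => ?_
      rw [hgd p hp, hQ]
      subst hl
      exact Iff.rfl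
    have h5 : (((Fintype.piFinset C').card : ℕ) : ℝ) = ∏ j, ((C' j).card : ℝ) := by
      rw [Fintype.card_piFinset]
      push_cast
      rfl
    rw [h4, hpi, h5]
    rw [← hR] at h3
    obtain ⟨n, hn⟩ : ∃ n : ℝ, n = (((Fintype.piFinset C').filter fun p =>
          Q fun e => qa (p e.1.1) (p e.1.2)).card : ℝ) := ⟨_, rfl⟩
    obtain ⟨q, hq⟩ : ∃ q : ℝ, q = ((univ.filter Q).card : ℝ) / 2 ^ (prs ι).card := ⟨_, rfl⟩
    obtain ⟨P, hP⟩ : ∃ P : ℝ, P = ∏ j, ((C' j).card : ℝ) := ⟨_, rfl⟩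
    have hP0 : 0 ≤ P := by
      rw [hP]
      exact Finset.prod_nonneg fun j _ => by positivity
    have h2' : |q - c2 ^ M| ≤ ε := by
      rw [hq, Finset.filter_congr fun α _ => hQ α]
      exact h2
    rw [← hn, ← hq, ← hP] at h3
    rw [← hn, ← hP]
    have h6 : |n - c2 ^ M * P| ≤ |n - q * P| + |q - c2 ^ M| * P := by
      have h7 : n - c2 ^ M * P = (n - q * P) + (q - c2 ^ M) * P := by ring
      have h8 : |(q - c2 ^ M) * P| = |q - c2 ^ M| * P := by rw [abs_mul, abs_of_nonneg hP0]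
      rw [h7, ← h8]
      exact abs_add_le _ _
    have h7 : |q - c2 ^ M| * P ≤ ε * P := mul_le_mul_of_nonneg_right h2' hP0
    linarith
  -- sum over the labels
  obtain ⟨LL, hLL⟩ : ∃ LL : Finset (ι → (S₀ ∪ W : Finset ZI) → ZMod 2), LL =
    univ.filter (fun β => LQ (R₀ + 1) S₀ W 𝒰 β) := ⟨_, rfl⟩
  have hfib : ∀ T : (ι → ZI) → Prop,
      (((Fintype.piFinset C).filter fun p => NdQ (R₀ + 1) W 𝒰 S₀ (univ.image p) ∧
        T p).card : ℝ) =
      ∑ β ∈ LL, (((Fintype.piFinset C).filter fun p =>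
        (fun i => lb (S₀ ∪ W) (p i)) = β ∧ T p).card : ℝ) := by
    intro T
    rw [Finset.card_eq_sum_card_fiberwise (f := fun (p : ι → ZI) (i : ι) => lb (S₀ ∪ W) (p i))
      (t := LL) (by
        intro p hp
        rw [Finset.mem_coe, Finset.mem_filter] at hp
        rw [Finset.mem_coe, hLL, Finset.mem_filter]
        exact ⟨Finset.mem_univ _, (ndQ_iff (R₀ + 1) hUW (hinj p hp.1)).1 hp.2.1⟩)]
    push_cast
    refine Finset.sum_congr rfl fun β hβ => ?_
    rw [hLL, Finset.mem_filter] at hβ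
    congr 2
    ext p
    simp only [Finset.mem_filter]
    constructor
    · rintro ⟨⟨h3, h4, h4'⟩, h5⟩
      exact ⟨h3, h5, h4'⟩
    · rintro ⟨h3, h4, h5⟩
      refine ⟨⟨h3, ?_, h5⟩, h4⟩
      refine (ndQ_iff (R₀ + 1) hUW (hinj p h3)).2 ?_
      rw [h4]
      exact hβ.2
  have hf1 := hfib fun p => GdW 𝒰 (S₀ ∪ univ.image p)
  have hf2 := hfib fun _ => True
  simp only [and_true] at hf2
  rw [hf1, hf2, Finset.mul_sum, ← Finset.sum_sub_distrib]
  refine (Finset.abs_sum_le_sum_abs _ _).trans ?_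
  refine (Finset.sum_le_sum fun β hβ => h1 β (by
    rw [hLL] at hβ
    exact (Finset.mem_filter.1 hβ).2)).trans ?_
  rw [Finset.sum_add_distrib, ← Finset.mul_sum, Finset.sum_const, nsmul_eq_mul]
  have h5 : ((LL.card : ℕ) : ℝ) ≤ 2 ^ ((S₀ ∪ W).card * Fintype.card ι) := by
    have h6 : LL.card ≤ Fintype.card (ι → (S₀ ∪ W : Finset ZI) → ZMod 2) :=
      Finset.card_le_univ _
    rw [Fintype.card_fun, Fintype.card_fun, ZMod.card, Fintype.card_coe, ← pow_mul] at h6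
    exact_mod_cast h6
  have h6 := mul_le_mul_of_nonneg_right h5 hR0
  rw [pow_add, mul_assoc, ← hR]
  linarith

end Pool.Agent.H691.QM
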