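import Pool.Agent.Run7.h691.QM.Lb

/-!
# QM: the elements whose twists are all outside of the class of `1`
-/

set_option autoImplicit false
set_option linter.unusedVariables false

open scoped Classical
open Finset Filter

namespace Pool.Agent.H691.QM

open H385 (ZI nrm im1)
open Pool.Agent.Y699 (PP PS PD PS_prod mem_PD PD_one pi1 qr)
open Pool.Agent.Y703.CQ (c2)
open Pool.Agent.H691.GJ (sq_div)
open Run7.h26.QI (RA clsA_iff sA sA_eq nQ fin_Q sA_pos count_sqf)

variable {r : ℕ}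

/-- no normal form in the class of `1` -/
def FrE (b : Fin r → ZI) (g : ZI) : Prop := ∀ (J : Finset (Fin r)) (D' : ZI), ¬ Rp (g * ∏ i ∈ J, b i) 1 D'

theorem frE_neg {b : Fin r → ZI} {g : ZI} : FrE b (-g) ↔ FrE b g := by
  unfold FrE
  refine forall_congr' fun J => forall_congr' fun D' => ?_
  rw [neg_mul, rp_neg]

variable {b : Fin r → ZI}

theorem frE_iff {c : ZI} (hc : Cx c) (hb : ∀ i, b i ≠ 0) {D : ZI} (hD : PS D) :
    FrE b (c * D) ↔ ∀ J, kap b J ≠ c := by
  have hne : ∀ J : Finset (Fin r), c * D * ∏ i ∈ J, b i ≠ 0 := fun J =>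
    mul_ne_zero (mul_ne_zero hc.ne hD.ne) (prod_ne_zero_iff.2 fun i _ => hb i)
  constructor
  · intro h J hJ
    have h1 := rpD hc hb hD J
    rw [(cJ_iff hc hb J).2 hJ] at h1
    exact h J _ h1
  · intro h J D' hD'
    obtain ⟨e1, -⟩ := rp_uniq (hne J) hD' (rpD hc hb hD J)
    exact h J ((cJ_iff hc hb J).1 e1.symm)

/-- the density of the class of `c` -/
noncomputable def fr (b : Fin r → ZI) (c : ZI) : ℝ := if ∀ J, kap b J ≠ c then 1 else 0

/-- the share -/
noncomputable def shF (b : Fin r → ZI) : ℝ :=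
  (2 * fr b 1 + 2 * fr b im1 + fr b pi1 + fr b (im1 * pi1)) / 6

theorem fr_nonneg (c : ZI) : 0 ≤ fr b c := by
  unfold fr
  split_ifs <;> norm_num

theorem fr_one (hb : ∀ i, b i ≠ 0) : fr b 1 = 0 := by
  unfold fr
  rw [if_neg]
  intro h
  apply h ∅
  have h1 := rp_kap hb ∅
  rw [prod_empty] at h1
  exact (rp_uniq one_ne_zero h1 ⟨cx1, ps_one, 1, by norm_num⟩).1

theorem nC_fr {c : ZI} (hc : Cx c) (hb : ∀ i, b i ≠ 0) (X : ℕ) :
    (nC (FrE b) c X : ℝ) = fr b c * sA X := by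
  unfold fr
  split_ifs with h
  · rw [one_mul]
    congr 1
    unfold nC sA
    congr 1
    ext D
    refine and_congr_right fun _ => ?_
    exact ⟨fun h1 => h1.1, fun h1 => ⟨h1, (frE_iff hc hb h1).2 h⟩⟩
  · rw [zero_mul]
    have : nC (FrE b) c X = 0 := by
      unfold nC
      rw [Set.ncard_eq_zero (fin_Q _ X)]
      ext D
      simp only [Set.mem_ofPred_eq, Set.mem_empty_iff_false, iff_false]
      rintro ⟨-, h1, h2⟩
      exact h ((frE_iff hc hb h1).1 h2)
    rw [this, Nat.cast_zero]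

theorem nC_frj {c : ZI} (hc : Cx c) (hb : ∀ i, b i ≠ 0) (h : ∀ J, kap b J ≠ c) (X : ℕ) :
    nC (fun g => FrE b g ∧ JE b g) c X = nC (fun g => SgE b g ∧ JE b g) c X := by
  unfold nC
  congr 1
  ext D
  refine and_congr_right fun _ => and_congr_right fun h1 => and_congr_left fun _ => ?_
  have h2 := (frE_iff hc hb h1).2 h
  exact ⟨fun _ J D' hD' => absurd hD' (h2 J D'), fun _ => h2⟩

theorem lim_frj {c : ZI} (hc : Cx c) (hb : ∀ i, b i ≠ 0)
    (hind : ∀ J : Finset (Fin r), J.Nonempty → ¬ IsSquare (∏ i ∈ J, b i)) :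
    Tendsto (fun X : ℕ => (nC (fun g => FrE b g ∧ JE b g) c X : ℝ) / (sA X : ℝ)) atTop
      (nhds (c2 ^ 2 ^ r * fr b c)) := by
  by_cases h : ∀ J, kap b J ≠ c
  · have h1 := lim_sj hc hb hind
    rw [dn_free hc hb h] at h1
    have e : fr b c = 1 := by
      unfold fr
      rw [if_pos h]
    rw [e]
    refine h1.congr fun X => ?_
    rw [nC_frj hc hb h]
  · have e : fr b c = 0 := by
      unfold fr
      rw [if_neg h]
    rw [e, mul_zero]
    refine (tendsto_const_nhds (x := (0 : ℝ))).congr fun X => ?_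
    have : nC (fun g => FrE b g ∧ JE b g) c X = 0 := by
      unfold nC
      rw [Set.ncard_eq_zero (fin_Q _ X)]
      ext D
      simp only [Set.mem_ofPred_eq, Set.mem_empty_iff_false, iff_false]
      rintro ⟨-, h1, h2, -⟩
      exact h ((frE_iff hc hb h1).1 h2)
    rw [this]
    simp

theorem share_fr (hb : ∀ i, b i ≠ 0) :
    Tendsto (fun X : ℕ => (nQ (fun g => Squarefree g ∧ FrE b g) X : ℝ) / (nQ Squarefree X : ℝ)) atTop
      (nhds (shF b)) := by
  refine lim_tot (fun g => frE_neg) (l := fr b) fun c hc => ?_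
  refine (tendsto_const_nhds (x := fr b c)).congr' ?_
  filter_upwards [sA_pos] with X hX
  rw [nC_fr hc hb, mul_div_assoc, div_self hX.ne', mul_one]

theorem share_frj (hb : ∀ i, b i ≠ 0)
    (hind : ∀ J : Finset (Fin r), J.Nonempty → ¬ IsSquare (∏ i ∈ J, b i)) :
    Tendsto (fun X : ℕ => (nQ (fun g => Squarefree g ∧ (FrE b g ∧ JE b g)) X : ℝ) /
      (nQ Squarefree X : ℝ)) atTop (nhds (c2 ^ 2 ^ r * shF b)) := by
  have h := lim_tot (P := fun g => FrE b g ∧ JE b g) (fun g => and_congr frE_neg jE_neg)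
    (l := fun c => c2 ^ 2 ^ r * fr b c) fun c hc => lim_frj hc hb hind
  have e : (2 * (c2 ^ 2 ^ r * fr b 1) + 2 * (c2 ^ 2 ^ r * fr b im1) + c2 ^ 2 ^ r * fr b pi1 +
      c2 ^ 2 ^ r * fr b (im1 * pi1)) / 6 = c2 ^ 2 ^ r * shF b := by
    unfold shF
    ring
  rw [e] at h
  exact h

theorem share_frm (hb : ∀ i, b i ≠ 0)
    (hind : ∀ J : Finset (Fin r), J.Nonempty → ¬ IsSquare (∏ i ∈ J, b i)) (hs : 0 < shF b) :
    Tendsto (fun X : ℕ => (nQ (fun g => Squarefree g ∧ (FrE b g ∧ JE b g)) X : ℝ) /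
      (nQ (fun g => Squarefree g ∧ FrE b g) X : ℝ)) atTop (nhds (c2 ^ 2 ^ r)) := by
  have h := (share_frj hb hind).div (share_fr hb) hs.ne'
  rw [mul_div_cancel_right₀ _ hs.ne'] at h
  refine h.congr' ?_
  filter_upwards [sA_pos] with X hX
  rw [Pi.div_apply]
  have h1 : (nQ Squarefree X : ℝ) ≠ 0 := by
    rw [count_sqf]
    push_cast
    positivity
  rw [div_div_div_cancel_right₀ h1]

theorem shF_of {c : ZI} (hc : Cx c) (h : ∀ J, kap b J ≠ c) : 1 / 6 ≤ shF b := by
  have n1 := fr_nonneg (b := b) 1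
  have n2 := fr_nonneg (b := b) im1
  have n3 := fr_nonneg (b := b) pi1
  have n4 := fr_nonneg (b := b) (im1 * pi1)
  have h1 : fr b c = 1 := by
    unfold fr
    rw [if_pos h]
  unfold shF
  rcases hc with rfl | rfl | rfl | rfl <;> linarith

theorem shF_nonempty (hb : ∀ i, b i ≠ 0) {g : ZI} (hg : g ≠ 0) (h : FrE b g) : 1 / 6 ≤ shF b := by
  obtain ⟨c, D, hr⟩ := exists_rp hg
  have h1 : FrE b (c * D) := by
    intro J D' hD'
    refine h J D' ⟨hD'.cx, hD'.ps, ?_⟩
    obtain ⟨s, hs⟩ := hr.sq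
    obtain ⟨t, ht⟩ := hD'.sq
    refine sq_div (mul_ne_zero hr.cx.ne hr.ps.ne) (t := s * t) ?_
    rw [mul_pow s, pow_two s, pow_two t, ← hs, ← ht]
    ring
  exact shF_of hr.cx ((frE_iff hr.cx hb hr.ps).1 h1)

/-- one twist -/
theorem shF_one (hb : ∀ i, b i ≠ 0) (hr : r = 1) : 1 / 3 ≤ shF b := by
  subst hr
  have hJ : ∀ J : Finset (Fin 1), J = ∅ ∨ J = univ := by decide
  have h0 : kap b ∅ = 1 := by
    have h := rp_kap hb ∅
    rw [prod_empty] at h
    exact (rp_uniq one_ne_zero h ⟨cx1, ps_one, 1, by norm_num⟩).1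
  have hk := (rp_kap hb univ).cx
  have hfree : ∀ c, c ≠ 1 → c ≠ kap b univ → fr b c = 1 := by
    intro c h1 h2
    unfold fr
    rw [if_pos]
    intro J hJ'
    rcases hJ J with h | h
    · rw [h, h0] at hJ'
      exact h1 hJ'.symm
    · rw [h] at hJ'
      exact h2 hJ'.symm
  have m1 := fr_nonneg (b := b) 1
  have m2 := fr_nonneg (b := b) im1
  have m3 := fr_nonneg (b := b) pi1
  have m4 := fr_nonneg (b := b) (im1 * pi1)
  have n12 : (im1 : ZI) ≠ 1 := by decide
  have n13 : (pi1 : ZI) ≠ 1 := by decide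
  have n14 : (im1 * pi1 : ZI) ≠ 1 := by decide
  have n23 : (im1 : ZI) ≠ pi1 := by decide
  have n24 : (im1 : ZI) ≠ im1 * pi1 := by decide
  have n34 : (pi1 : ZI) ≠ im1 * pi1 := by decide
  unfold shF
  rcases hk with h | h | h | h
  · have d2 := hfree im1 n12 (by rw [h]; exact n12)
    linarith
  · have d3 := hfree pi1 n13 (by rw [h]; exact n23.symm)
    have d4 := hfree _ n14 (by rw [h]; exact n24.symm)
    linarith
  · have d2 := hfree im1 n12 (by rw [h]; exact n23)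
    linarith
  · have d2 := hfree im1 n12 (by rw [h]; exact n24)
    linarith

/-- the `b i` are primary -/
theorem shF_prim (hb : ∀ i, PS (b i)) : shF b = 2 / 3 := by
  have hb0 : ∀ i, b i ≠ 0 := fun i => (hb i).ne
  have h : ∀ c : ZI, c ≠ 1 → fr b c = 1 := by
    intro c hc
    unfold fr
    rw [if_pos]
    intro J hJ
    exact hc (by rw [← hJ, kap_prim hb])
  unfold shF
  rw [fr_one hb0, h im1 (by decide), h pi1 (by decide), h (im1 * pi1) (by decide)]
  norm_num

end Pool.Agent.H691.QM
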