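import Pool.Agent.Run7.h691.QM.Stm
import Pool.Agent.Run7.h691.GJ.Few

/-! QM: mean values for the characters twisted by `i` and `1 + i`, and the character of a set of
vertices. -/

set_option autoImplicit false
set_option linter.unusedVariables false

open scoped Classical

namespace Pool.Agent.H691.QM

open Finset
open H385 (ZI nrm im1)
open Pool.Agent.Y699 hiding kk f1 f2 LE f1_hasProd f2_hasProd sg
open Pool.Agent.H304R2.EC.A1 (prim prim_ne_zero)
open Pool.Agent.H691.GJ.HQ (jac3 hallQ xs xs_nonneg conv1 conv2 prod_dvd)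
open Pool.Agent.H691.GJ.FW (tl tl_nonneg half_le4 jac_sum prod_ne_one)
open Pool.Agent.H691.GZ (qa sg sg_qa)
open Pool.Agent.H691.GZ.BF (pN pN_pos)
open Run7.h26.QI (Rc Ec hallE exists_Ec cc3)

theorem half_sumR {χ : ZI → ℝ} {q : ZI} (h : Rc χ q) {T : ℕ} (hT : 1 ≤ T) :
    ∑ n ∈ SB T, mf (fun π => (1 + χ π) / 2) n / nrm n ≤
      80 * Real.sqrt (lg (nrm q)) * Real.sqrt (lg T) := by
  have hl := one_le_lg (nrm q)
  have hA : ∑ n ∈ PB (T ^ 2), mf (fun π => 2 * ((1 + χ π) / 2)) n / nrm n ≤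
      (6400 * lg (nrm q)) * lg T := by
    have e1 : (fun π : ZI => 2 * ((1 + χ π) / 2)) = fun π => 1 + χ π := by
      funext π; ring
    rw [e1]
    have e2 : ∑ n ∈ PB (T ^ 2), mf (fun π => 1 + χ π) n / nrm n ≤
        ∑ n ∈ PB (T ^ 2), (∑ d ∈ DP n, χ d) / nrm n := by
      refine sum_le_sum fun n hn => ?_
      exact div_le_div_of_nonneg_right (h.conv n (mem_PB.1 hn).2) (Nat.cast_nonneg _)
    rw [conv_sum] at e2
    refine e2.trans ?_
    have e3 : ∀ k ∈ PB (T ^ 2), (1 / (nrm k : ℝ)) * ∑ d ∈ PB (T ^ 2 / nrm k), χ d / nrm d ≤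
        (45 * lg (nrm q)) * (1 / nrm k) := by
      intro k _
      rw [mul_comm]
      exact mul_le_mul_of_nonneg_right ((le_abs_self _).trans (h.log _)) (by positivity)
    refine (sum_le_sum e3).trans ?_
    rw [← mul_sum]
    have e4 := hsum (T ^ 2)
    have e5 := lg_sq T
    have e6 := lg_pos T
    have e7 : (45 * lg (nrm q)) * ∑ k ∈ PB (T ^ 2), (1 : ℝ) / nrm k ≤ (45 * lg (nrm q)) * (36 * lg T) := by
      apply mul_le_mul_of_nonneg_left _ (by linarith)
      linarith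
    refine e7.trans ?_
    have : 0 ≤ lg (nrm q) * lg T := by positivity
    nlinarith
  have h0 : ∀ π, 0 ≤ (1 + χ π) / 2 := fun π => by
    rcases h.cs π with h | h | h <;> rw [h] <;> norm_num
  have h2 := (hall2 (g := fun π => (1 + χ π) / 2) h0
    (fun π => by rcases h.cs π with h | h | h <;> simp only [h] <;> norm_num) T).trans hA
  have h3 : 0 ≤ 80 * Real.sqrt (lg (nrm q)) * Real.sqrt (lg T) := by positivity
  have h4 : (80 * Real.sqrt (lg (nrm q)) * Real.sqrt (lg T)) ^ 2 = (6400 * lg (nrm q)) * lg T := by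
    rw [mul_pow, mul_pow, Real.sq_sqrt (by linarith), Real.sq_sqrt (lg_pos T).le]
    norm_num
  rw [← h4] at h2
  exact le_of_sq_le_sq h2 h3

/-- **the mean value with exponent `1/4`** -/
theorem hallR {χ : ZI → ℝ} {q : ZI} (h : Rc χ q) : ∃ C : ℝ, 0 ≤ C ∧ ∀ T : ℕ,
    ∑ n ∈ SB T, mf (fun π => (3 + χ π) / 4) n ≤
      C * (T * (lg T) ^ (-(1 / 4) : ℝ)) := by
  set K : ℝ := 80 * Real.sqrt (lg (nrm q)) * 2 with hK
  have hlG := one_le_lg (nrm q)
  have hsG : 1 ≤ Real.sqrt (lg (nrm q)) := Real.one_le_sqrt.2 hlG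
  have hK0 : 160 ≤ K := by rw [hK]; linarith
  refine ⟨126 * K, by positivity, fun T => ?_⟩
  set g : ZI → ℝ := fun π => (3 + χ π) / 4 with hg
  have h0 : ∀ π, 0 ≤ g π := fun π => by
    rcases h.cs π with h | h | h <;> simp only [hg, h] <;> norm_num
  have h1' : ∀ π, g π ≤ 1 := fun π => by
    rcases h.cs π with h | h | h <;> simp only [hg, h] <;> norm_num
  have hh0 : ∀ π, 0 ≤ (1 + χ π) / 2 := fun π => by
    rcases h.cs π with h | h | h <;> rw [h] <;> norm_num
  rcases Nat.eq_zero_or_pos T with hz | hT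
  · have : SB T = ∅ := by
      rw [eq_empty_iff_forall_notMem]
      intro x hx
      rw [mem_SB] at hx
      have := nrm_pos' hx.2.ne
      omega
    rw [this, sum_empty, hz]
    simp
  by_cases hT1 : T = 1
  · have h2 : ∑ n ∈ SB T, mf g n ≤ 9 := by
      refine (sum_le_sum fun n _ => mf_le_one h0 h1' n).trans ?_
      rw [sum_const, nsmul_eq_mul, mul_one, hT1]
      refine (card_SB_le le_rfl).trans (le_of_eq (by norm_num))
    have h3 : lg 1 = 1 := by unfold lg; simp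
    refine h2.trans ?_
    rw [hT1, h3, Real.one_rpow]
    push_cast
    linarith
  have hT2 : 2 ≤ T := by omega
  have T0 : (0 : ℝ) < T := by exact_mod_cast hT
  set l := lg T with hl
  have hl1 : 1 ≤ l := one_le_lg T
  have hl0 : 0 < l := by linarith
  set S := ∑ n ∈ SB T, mf g n with hS
  set S1 := ∑ n ∈ SB T, mf g n / nrm n with hS1
  have hS0 : 0 ≤ S := sum_nonneg fun n _ => mf_nonneg h0 n
  have hS10 : 0 ≤ S1 := sum_nonneg fun n _ => div_nonneg (mf_nonneg h0 n) (Nat.cast_nonneg _)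
  have k1 : S * Real.log T ≤ 7 * T * S1 := hall1 h0 h1' hT
  have k2 : S1 ^ 2 ≤ ∑ n ∈ PB (T ^ 2), mf (fun π => 2 * g π) n / nrm n := hall2 h0 h1' T
  have e1 : (fun π : ZI => 2 * g π) = fun π => 1 + (1 + χ π) / 2 := by
    funext π
    rw [hg]
    ring
  rw [e1] at k2
  have k3 := k2.trans (conv2 hh0 (T ^ 2))
  have k4 := half_sumR h (T := T ^ 2) (Nat.one_le_pow _ _ hT)
  have k5 : Real.sqrt (lg (T ^ 2)) ≤ 2 * Real.sqrt l := by
    have h5 := lg_sq T
    calc Real.sqrt (lg (T ^ 2)) ≤ Real.sqrt (4 * l) := by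
          apply Real.sqrt_le_sqrt
          linarith
      _ = 2 * Real.sqrt l := by
          rw [Real.sqrt_mul (by norm_num)]
          congr 1
          rw [show (4 : ℝ) = 2 ^ 2 by norm_num]
          exact Real.sqrt_sq (by norm_num)
  have k6 : ∑ k ∈ PB (T ^ 2), (1 : ℝ) / nrm k ≤ 36 * l := by
    have e4 := hsum (T ^ 2)
    have e5 := lg_sq T
    linarith
  have k7 : S1 ^ 2 ≤ (36 * l) * (K * Real.sqrt l) := by
    refine k3.trans (mul_le_mul k6 (k4.trans ?_) ?_ (by positivity))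
    · rw [hK]
      have := mul_le_mul_of_nonneg_left k5 (show 0 ≤ 80 * Real.sqrt (lg (nrm q)) by positivity)
      linarith
    · exact sum_nonneg fun n _ => div_nonneg (mf_nonneg hh0 n) (Nat.cast_nonneg _)
  set u : ℝ := l ^ (1 / 4 : ℝ) with hu
  have hu0 : 0 < u := Real.rpow_pos_of_pos hl0 _
  have hu4 : u ^ 4 = l := by
    rw [hu, ← Real.rpow_natCast, ← Real.rpow_mul hl0.le]
    norm_num
  have hu2 : Real.sqrt l = u ^ 2 := by
    rw [← hu4, show u ^ 4 = (u ^ 2) ^ 2 by ring]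
    exact Real.sqrt_sq (by positivity)
  have hui : l ^ (-(1 / 4) : ℝ) = u⁻¹ := by
    rw [Real.rpow_neg hl0.le]
  have k8 : S1 ≤ 6 * K * u ^ 3 := by
    refine le_of_sq_le_sq (k7.trans ?_) (by positivity)
    rw [hu2, ← hu4]
    have : (6 * K * u ^ 3) ^ 2 = (36 * u ^ 4) * (K * u ^ 2) * K := by ring
    rw [this]
    refine le_mul_of_one_le_right (by positivity) (by linarith)
  have k9 := lg_le_log hT2
  have k10 : S * l ≤ 21 * T * (6 * K * u ^ 3) := by
    calc S * l ≤ S * (3 * Real.log T) := mul_le_mul_of_nonneg_left k9 hS0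
      _ = 3 * (S * Real.log T) := by ring
      _ ≤ 3 * (7 * T * S1) := by linarith
      _ ≤ 3 * (7 * T * (6 * K * u ^ 3)) := by
          have := mul_le_mul_of_nonneg_left k8 (show (0 : ℝ) ≤ 7 * T by positivity)
          linarith
      _ = 21 * T * (6 * K * u ^ 3) := by ring
  rw [hui, ← div_eq_mul_inv, ← mul_div_assoc, le_div_iff₀ hu0]
  have hu3 : 0 < u ^ 3 := by positivity
  refine le_of_mul_le_mul_right ?_ hu3
  calc S * u * u ^ 3 = S * l := by rw [← hu4]; ring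
    _ ≤ 21 * T * (6 * K * u ^ 3) := k10
    _ = 126 * K * T * u ^ 3 := by ring


/-- the character of a set of vertices -/
theorem exE {A : Finset ZI} (hA : ∀ u ∈ A, PP u ∨ u ∈ VV) (hne : A.Nonempty) (hV : ¬ VV ⊆ A) :
    ∃ χ : ZI → ℝ, (∀ π, χ π = 0 ∨ χ π = 1 ∨ χ π = -1) ∧
      (∀ π, PP π → π ∉ A → χ π = sg (∑ u ∈ A, qx u π)) ∧
      (∀ T : ℕ, ∑ n ∈ SB T, mf (fun π => (1 + χ π) / 2) n ≤
        2600 * Real.sqrt (lg (pN A)) * (T / Real.sqrt (lg T))) ∧
      ∃ C : ℝ, 0 ≤ C ∧ ∀ T : ℕ, ∑ n ∈ SB T, mf (fun π => (3 + χ π) / 4) n ≤ C * tl T := by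
  obtain ⟨P, hP⟩ : ∃ P, P = A.filter fun u => u ∉ VV := ⟨_, rfl⟩
  obtain ⟨B, hB⟩ : ∃ B, B = A.filter fun u => u ∈ VV := ⟨_, rfl⟩
  have hPP : ∀ u ∈ P, PP u := by
    intro u hu
    rw [hP, mem_filter] at hu
    exact (hA u hu.1).resolve_right hu.2
  have hBV : B ⊆ VV := by
    intro u hu
    rw [hB, mem_filter] at hu
    exact hu.2
  obtain ⟨a1, a2⟩ := PS_prod (S := P) hPP
  have hnn : nrm (∏ u ∈ P, u) ≤ pN A := by
    rw [nrm_prod]
    unfold pN
    refine prod_le_prod_of_subset_of_one_le' (by rw [hP]; exact filter_subset _ _) fun u hu _ => ?_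
    refine nrm_pos' ?_
    rcases hA u hu with h | h
    · exact h.ne
    · rintro rfl
      exact absurd h (by unfold VV; decide)
  have hlg : Real.sqrt (lg (nrm (∏ u ∈ P, u))) ≤ Real.sqrt (lg (pN A)) :=
    Real.sqrt_le_sqrt (lg_mono hnn)
  have hsum : ∀ π, PP π → ∑ u ∈ A, qx u π = ∑ u ∈ P, qa u π + ∑ u ∈ B, qa π u := by
    intro π hπ
    rw [← sum_filter_add_sum_filter_not A (fun u => u ∈ VV), ← hB, ← hP, add_comm]
    congr 1
    · exact sum_congr rfl fun u hu => qx_pp (hPP u hu) π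
    · exact sum_congr rfl fun u hu => qx_vp (hBV hu) hπ
  have hPsub : ∀ π, π ∉ A → π ∉ P := fun π h1 h2 => h1 (by
    rw [hP, mem_filter] at h2
    exact h2.1)
  rcases B.eq_empty_or_nonempty with hBe | hBne
  · have hPne : P.Nonempty := by
      obtain ⟨x, hx⟩ := hne
      refine ⟨x, ?_⟩
      rw [hP, mem_filter]
      refine ⟨hx, fun h => ?_⟩
      have : x ∈ B := by rw [hB, mem_filter]; exact ⟨hx, h⟩
      rw [hBe] at this
      exact absurd this (notMem_empty _)
    have hG1 := prod_ne_one hPP hPne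
    refine ⟨fun π => (jac (∏ u ∈ P, u) π : ℝ), jac3 _, ?_, ?_, hallQ a1 hG1⟩
    · intro π hπ hn
      rw [hsum π hπ, hBe, sum_empty, add_zero]
      exact jac_sum hPP hπ (hPsub π hn)
    · intro T
      refine (hallG a1 hG1 T).trans ?_
      have h0 : (0 : ℝ) ≤ T / Real.sqrt (lg T) := by positivity
      apply mul_le_mul_of_nonneg_right _ h0
      have h1 : 0 ≤ Real.sqrt (lg (nrm (∏ u ∈ P, u))) := Real.sqrt_nonneg _
      linarith
  · obtain ⟨c, hc, hcs⟩ := vsum hBV hBne (fun h => hV (by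
      rw [← h, hB]
      exact filter_subset _ _))
    obtain ⟨ep, he⟩ := exists_Ec hc
    have hR := Rc.of_Ec he a1
    refine ⟨fun π => (jac (∏ u ∈ P, u) π : ℝ) * ep π, hR.cs, ?_, ?_, hallR hR⟩
    · intro π hπ hn
      have h1 : sg (qa π c) = (ep π : ℝ) := by
        have h4 := he.val π hπ
        have h5 := he.cs π
        unfold Pool.Agent.H691.GZ.sg qa
        rw [← h4]
        rcases h5 with h5 | h5 <;> rw [h5] <;> norm_num
      rw [hsum π hπ, hcs π hπ, Pool.Agent.H691.GZ.EQ.sg_add, h1,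
        ← jac_sum hPP hπ (hPsub π hn)]
    · intro T
      refine (hallE he a1 T).trans ?_
      have h0 : (0 : ℝ) ≤ T / Real.sqrt (lg T) := by positivity
      apply mul_le_mul_of_nonneg_right _ h0
      linarith

end Pool.Agent.H691.QM
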