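import Pool.Agent.Run7.h691.GJ.Stm
import Pool.Agent.Run7.h26.QI.Ct3
import Pool.Agent.Run7.h26.QI.Cr

/-!
# Project QM (helper691): joint laws over `ℚ(i)` with the vertices `i`, `1 + i`, `i (1 + i)`
-/

set_option autoImplicit false
set_option linter.unusedVariables false

open scoped Classical

namespace Pool.Agent.H691.QM

open Finset
open H385 (ZI nrm im1)
open Pool.Agent.Y699 (PP PS qr PD pi1 qr_mul qr_cases)
open Pool.Agent.H304R2.EC.A1 (prim)
open Pool.Agent.H691.GZ (qa Gd Sol prs HB)
open Pool.Agent.H691.GZ.BOX (qa_symm)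
open Run7.h26.QI (GdC SolC cc3 not_dvd_cc3 anti_sum)

/-- the three further vertices -/
def VV : Finset ZI := {im1, pi1, im1 * pi1}

theorem mem_VV {c : ZI} : c ∈ VV ↔ cc3 c := by
  unfold VV cc3
  rw [mem_insert, mem_insert, mem_singleton]

/-- the symbol, with the further vertices -/
noncomputable def qx (u v : ZI) : ZMod 2 :=
  if u ∈ VV then (if v ∈ VV then 0 else qa v u) else qa u v

theorem vv_np {c : ZI} (hc : c ∈ VV) : ¬ PP c := by
  intro h
  have h1 := h.prm
  unfold VV at hc
  rw [mem_insert, mem_insert, mem_singleton] at hc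
  rcases hc with rfl | rfl | rfl
  · exact absurd h1.1 (by decide)
  · exact absurd h1.1 (by decide)
  · exact absurd h1.2 (by decide)

theorem qx_pp {u : ZI} (hu : PP u) (v : ZI) : qx u v = qa u v := by
  unfold qx
  rw [if_neg fun h => vv_np h hu]

theorem qx_vp {c u : ZI} (hc : c ∈ VV) (hu : PP u) : qx c u = qa u c := by
  unfold qx
  rw [if_pos hc, if_neg fun h => vv_np h hu]

theorem qx_vv {c c' : ZI} (hc : c ∈ VV) (hc' : c' ∈ VV) : qx c c' = 0 := by
  unfold qx
  rw [if_pos hc, if_pos hc']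

theorem qx_symm {u v : ZI} (hu : PP u ∨ u ∈ VV) (hv : PP v ∨ v ∈ VV) : qx u v = qx v u := by
  rcases hu with hu | hu <;> rcases hv with hv | hv
  · rw [qx_pp hu, qx_pp hv, qa_symm hu hv]
  · rw [qx_pp hu, qx_vp hv hu]
  · rw [qx_vp hu hv, qx_pp hv]
  · rw [qx_vv hu hv, qx_vv hv hu]

/-- the system -/
def SolV (T : Finset ZI) (c : ZI → ZMod 2) : Prop :=
  ∀ π ∈ T, ∑ ρ ∈ T, qx π ρ * (c ρ - c π) = 0

/-- only the constant solutions -/
def GdV (T : Finset ZI) : Prop := ∀ c : ZI → ZMod 2, SolV T c → ∀ x ∈ T, ∀ y ∈ T, c x = c y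

/-- without a further vertex -/
theorem gdV_gd {S : Finset ZI} (hS : ∀ u ∈ S, PP u) : GdV S ↔ Gd S := by
  have key : ∀ c, SolV S c ↔ Sol S c := by
    intro c
    unfold SolV Sol
    refine forall₂_congr fun π hπ => ?_
    rw [sum_congr rfl fun ρ _ => by rw [qx_pp (hS π hπ)]]
  unfold GdV Gd
  exact forall_congr' fun c => by rw [key]

/-- with one further vertex -/
theorem gdV_C {c : ZI} (hc : c ∈ VV) {S : Finset ZI} (hS : ∀ u ∈ S, PP u) :
    GdV (insert c S) ↔ GdC c S := by
  have hcS : c ∉ S := fun h => vv_np hc (hS c h)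
  have hch : ∀ a t s : ZMod 2, a * (t - s) = a * (s - t) := by decide
  have hch0 : ∀ a s : ZMod 2, a * (0 - s) = a * s := by decide
  constructor
  · intro h v hv π hπ
    obtain ⟨v', hv'⟩ : ∃ v' : ZI → ZMod 2, ∀ x, v' x = if x = c then 0 else v x :=
      ⟨_, fun _ => rfl⟩
    have e1 : ∀ x ∈ S, v' x = v x := fun x hx => by
      have hne : x ≠ c := fun h => hcS (by rw [← h]; exact hx)
      rw [hv', if_neg hne]
    have e0 : v' c = 0 := by rw [hv', if_pos rfl]
    have htot : ∑ x ∈ S, qa x c * v x = 0 := by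
      have h1 : ∑ x ∈ S, (∑ ρ ∈ S, qa x ρ * (v ρ - v x) + qa x c * v x) = 0 :=
        sum_eq_zero hv
      rw [sum_add_distrib, anti_sum hS, zero_add] at h1
      exact h1
    have hs : SolV (insert c S) v' := by
      intro x hx
      rw [sum_insert hcS, e0]
      rw [mem_insert] at hx
      rcases hx with rfl | hx
      · rw [e0, sub_zero, mul_zero, zero_add]
        refine Eq.trans (sum_congr rfl fun ρ hρ => ?_) htot
        rw [e1 ρ hρ, qx_vp hc (hS ρ hρ), sub_zero]
      · have h1 := hv x hx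
        rw [e1 x hx, hch0, qx_pp (hS x hx), ← h1, add_comm]
        congr 1
        refine sum_congr rfl fun ρ hρ => ?_
        rw [e1 ρ hρ, qx_pp (hS x hx)]
    have h2 := h v' hs π (mem_insert_of_mem hπ) c (mem_insert_self _ _)
    rwa [e1 π hπ, e0] at h2
  · intro h v hv
    have hs : SolC c S (fun x => v x - v c) := by
      intro x hx
      have h1 := hv x (mem_insert_of_mem hx)
      rw [sum_insert hcS, qx_pp (hS x hx)] at h1
      show ∑ ρ ∈ S, qa x ρ * ((v ρ - v c) - (v x - v c)) + qa x c * (v x - v c) = 0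
      rw [hch _ (v x), ← h1, add_comm]
      congr 1
      refine sum_congr rfl fun ρ hρ => ?_
      rw [sub_sub_sub_cancel_right, qx_pp (hS x hx)]
    have h2 := h _ hs
    have h3 : ∀ x ∈ insert c S, v x = v c := by
      intro x hx
      rw [mem_insert] at hx
      rcases hx with rfl | hx
      · rfl
      · exact sub_eq_zero.1 (h2 x hx)
    intro x hx y hy
    rw [h3 x hx, h3 y hy]

/-- jointly good -/
def GdW (𝒰 : Finset (Finset ZI)) (S : Finset ZI) : Prop := ∀ U ∈ 𝒰, GdV (symmDiff S U)

/-- the labels are not degenerate on the masks -/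
def NdU (𝒰 : Finset (Finset ZI)) (S₀ S₁ : Finset ZI) : Prop :=
  ∀ U ∈ 𝒰, ∀ v : ZI → ZMod 2, (∃ u ∈ symmDiff S₀ U, v u ≠ 0) →
    ∃ π ∈ S₁, ∑ u ∈ symmDiff S₀ U, v u * qx u π ≠ 0

/-- the condition on the small and the large primes -/
def NdQ (R : ℕ) (W : Finset ZI) (𝒰 : Finset (Finset ZI)) (S₀ S₁ : Finset ZI) : Prop :=
  NdU 𝒰 S₀ S₁ ∧ 2 * (S₀ ∪ W).card + R ≤ S₁.card ∧
    ∀ U ∈ 𝒰, ∀ U' ∈ 𝒰, U ≠ U' → 2 * (S₀ ∪ W).card + R ≤
      (S₁.filter fun p => ∑ u ∈ symmDiff U U', qx u p ≠ 0).card

/-! ### the characters -/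

theorem qa_mul {π a b : ZI} (h : PP π) (ha : ¬ π ∣ a) (hb : ¬ π ∣ b) :
    qa π (a * b) = qa π a + qa π b := by
  have e0 : ¬ ((1 : ℤ) = -1) := by decide
  unfold qa
  rw [qr_mul h]
  rcases qr_cases ha with h1 | h1 <;> rcases qr_cases hb with h2 | h2 <;> rw [h1, h2]
  · rw [mul_one, if_neg e0, add_zero]
  · rw [one_mul, if_pos rfl, if_neg e0, zero_add]
  · rw [mul_one, if_pos rfl, if_neg e0, add_zero]
  · rw [if_pos rfl]
    have : ¬ ((-1 : ℤ) * -1 = -1) := by decide
    rw [if_neg this]
    decide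

/-- the sum of the labels of some of the further vertices -/
theorem vsum {A : Finset ZI} (hA : A ⊆ VV) (hne : A.Nonempty) (hp : A ≠ VV) :
    ∃ c, cc3 c ∧ ∀ π, PP π → ∑ u ∈ A, qa π u = qa π c := by
  have hd : ∀ {c π : ZI}, c ∈ VV → PP π → ¬ π ∣ c := fun hc hπ => not_dvd_cc3 (mem_VV.1 hc) hπ
  have m1 : im1 ∈ VV := by unfold VV; simp
  have m2 : pi1 ∈ VV := by unfold VV; simp
  have m3 : im1 * pi1 ∈ VV := by unfold VV; simp
  have n12 : im1 ≠ pi1 := by decide
  have n13 : im1 ≠ im1 * pi1 := by decide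
  have n23 : pi1 ≠ im1 * pi1 := by decide
  have h3 : ∀ π, PP π → qa π (im1 * pi1) = qa π im1 + qa π pi1 := fun π hπ =>
    qa_mul hπ (hd m1 hπ) (hd m2 hπ)
  have hz : ∀ x y : ZMod 2, x + (x + y) = y := by decide
  have hz' : ∀ x y : ZMod 2, y + (x + y) = x := by decide
  have hsub : ∀ x ∈ A, x = im1 ∨ x = pi1 ∨ x = im1 * pi1 := fun x hx => by
    have := hA hx
    unfold VV at this
    simpa using this
  by_cases a1 : im1 ∈ A <;> by_cases a2 : pi1 ∈ A <;> by_cases a3 : im1 * pi1 ∈ A
  · exfalso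
    apply hp
    refine Subset.antisymm hA ?_
    intro x hx
    unfold VV at hx
    rw [mem_insert, mem_insert, mem_singleton] at hx
    rcases hx with rfl | rfl | rfl
    · exact a1
    · exact a2
    · exact a3
  · refine ⟨im1 * pi1, mem_VV.1 m3, fun π hπ => ?_⟩
    have e : A = {im1, pi1} := by
      ext x
      rw [mem_insert, mem_singleton]
      constructor
      · intro hx
        rcases hsub x hx with h | h | h
        · exact Or.inl h
        · exact Or.inr h
        · exact absurd (h ▸ hx) a3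
      · rintro (rfl | rfl)
        · exact a1
        · exact a2
    rw [e, sum_pair n12, h3 π hπ]
  · refine ⟨pi1, mem_VV.1 m2, fun π hπ => ?_⟩
    have e : A = {im1, im1 * pi1} := by
      ext x
      rw [mem_insert, mem_singleton]
      constructor
      · intro hx
        rcases hsub x hx with h | h | h
        · exact Or.inl h
        · exact absurd (h ▸ hx) a2
        · exact Or.inr h
      · rintro (rfl | rfl)
        · exact a1
        · exact a3
    rw [e, sum_pair n13, h3 π hπ, hz]
  · refine ⟨im1, mem_VV.1 m1, fun π hπ => ?_⟩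
    have e : A = {im1} := by
      ext x
      rw [mem_singleton]
      constructor
      · intro hx
        rcases hsub x hx with h | h | h
        · exact h
        · exact absurd (h ▸ hx) a2
        · exact absurd (h ▸ hx) a3
      · rintro rfl
        exact a1
    rw [e, sum_singleton]
  · refine ⟨im1, mem_VV.1 m1, fun π hπ => ?_⟩
    have e : A = {pi1, im1 * pi1} := by
      ext x
      rw [mem_insert, mem_singleton]
      constructor
      · intro hx
        rcases hsub x hx with h | h | h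
        · exact absurd (h ▸ hx) a1
        · exact Or.inl h
        · exact Or.inr h
      · rintro (rfl | rfl)
        · exact a2
        · exact a3
    rw [e, sum_pair n23, h3 π hπ, hz']
  · refine ⟨pi1, mem_VV.1 m2, fun π hπ => ?_⟩
    have e : A = {pi1} := by
      ext x
      rw [mem_singleton]
      constructor
      · intro hx
        rcases hsub x hx with h | h | h
        · exact absurd (h ▸ hx) a1
        · exact h
        · exact absurd (h ▸ hx) a3
      · rintro rfl
        exact a2
    rw [e, sum_singleton]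
  · refine ⟨im1 * pi1, mem_VV.1 m3, fun π hπ => ?_⟩
    have e : A = {im1 * pi1} := by
      ext x
      rw [mem_singleton]
      constructor
      · intro hx
        rcases hsub x hx with h | h | h
        · exact absurd (h ▸ hx) a1
        · exact absurd (h ▸ hx) a2
        · exact h
      · rintro rfl
        exact a3
    rw [e, sum_singleton]
  · exfalso
    obtain ⟨x, hx⟩ := hne
    rcases hsub x hx with h | h | h
    · exact a1 (h ▸ hx)
    · exact a2 (h ▸ hx)
    · exact a3 (h ▸ hx)

end Pool.Agent.H691.QM
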